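import Mathlib
import Pool.Agent.H3.EJ.Pat

/-!
# [H18 QT Cs] products of a quadratic character of a large prime modulus along affine forms, times a periodic function

`complete`: complete sums; `forms_small`: `|Σ_{t < x} v(t) Π_l χ_p(A_l t + C_l)| ≤ η N` for `v` periodic of period `m`
prime to `p` and `P m p ≤ N`.
-/

set_option autoImplicit false

namespace Pool.Agent.H18.QT

open Finset

/-- complete sums -/
theorem complete {p : ℕ} [Fact p.Prime] {R r : ℕ} (hp : 64 * (R + 1) ^ 2 ≤ p) (hr : 1 ≤ r)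
    (hrR : r ≤ R) (a b : Fin r → ZMod p) (ha : ∀ l, a l ≠ 0)
    (hne : ∀ l l', l ≠ l' → a l * b l' ≠ a l' * b l) :
    |((∑ s : ZMod p, ∏ l, quadraticChar (ZMod p) (a l * s + b l) : ℤ) : ℝ)| ≤
      20 * (R + 1) * √(p : ℝ) + R := by
  classical
  have hpp : p.Prime := Fact.out
  obtain ⟨ρ, hρ⟩ : ∃ ρ : Fin r → ZMod p, ρ = fun l => -b l / a l := ⟨_, rfl⟩
  have hρi : Function.Injective ρ := by
    intro l l' h
    by_contra hl
    rw [hρ] at h
    simp only at h
    rw [div_eq_div_iff (ha l) (ha l')] at h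
    refine hne l l' hl ?_
    linear_combination h
  have hcard : (univ.image ρ).card = r := by
    rw [card_image_of_injective _ hρi, card_univ, Fintype.card_fin]
  obtain ⟨x0, hx0⟩ : ∃ x0 : ZMod p, x0 ∉ univ.image ρ := by
    by_contra hcon
    push Not at hcon
    have h1 : (univ : Finset (ZMod p)) ⊆ univ.image ρ := fun x _ => hcon x
    have h2 := card_le_card h1
    rw [hcard, card_univ, ZMod.card] at h2
    nlinarith
  obtain ⟨σ, hσ⟩ : ∃ σ : Fin r → ZMod p, σ = fun l => ρ l - x0 := ⟨_, rfl⟩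
  have hσi : Function.Injective σ := by
    intro l l' h
    rw [hσ] at h
    exact hρi (sub_left_injective h)
  have hcardσ : (univ.image σ).card = r := by
    rw [card_image_of_injective _ hσi, card_univ, Fintype.card_fin]
  have hne0 : (univ.image σ).Nonempty := by
    rw [← card_pos, hcardσ]
    omega
  have h00 : (0 : ZMod p) ∉ univ.image σ := by
    intro h
    rw [mem_image] at h
    obtain ⟨l, _, hl⟩ := h
    rw [hσ] at hl
    simp only at hl
    exact hx0 (mem_image.2 ⟨l, mem_univ _, sub_eq_zero.1 hl⟩)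
  have hmain := Pool.Agent.H3.EJ.char_sum R hp (univ.image σ) (by rw [hcardσ]; exact hrR) hne0 h00
  have h1 : (∑ s : ZMod p, ∏ l, quadraticChar (ZMod p) (a l * s + b l) : ℤ) =
      (∏ l, quadraticChar (ZMod p) (a l)) *
        ∑ s : ZMod p, ∏ x ∈ univ.image σ, quadraticChar (ZMod p) (s - x) := by
    rw [← Equiv.sum_comp (Equiv.addRight x0), mul_sum]
    refine sum_congr rfl fun s _ => ?_
    rw [prod_image fun x _ y _ h => hσi h, ← prod_mul_distrib]
    refine prod_congr rfl fun l _ => ?_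
    rw [← map_mul]
    congr 1
    rw [hσ, hρ]
    simp only [Equiv.coe_addRight]
    have := ha l
    field_simp
    ring
  rw [h1]
  push_cast
  rw [abs_mul]
  refine le_trans ?_ (by push_cast at hmain; exact hmain)
  refine mul_le_of_le_one_left (abs_nonneg _) ?_
  rw [abs_prod]
  refine prod_le_one (fun _ _ => abs_nonneg _) fun l _ => ?_
  rcases quadraticChar_dichotomy (ha l) with h | h <;> rw [h] <;> simp

/-- sums of a periodic function -/
lemma per_sum {T : ℕ} (hT : 0 < T) (G : ℕ → ℂ) (hG : ∀ t, G (t + T) = G t) (hb : ∀ t, ‖G t‖ ≤ 1)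
    {B : ℝ} (hB : ‖∑ t ∈ range T, G t‖ ≤ B) (x : ℕ) :
    ‖∑ t ∈ range x, G t‖ ≤ (x / T : ℕ) * B + T := by
  have hG2 : ∀ u t, G (T * u + t) = G t := by
    intro u
    induction u with
    | zero => intro t; rw [mul_zero, zero_add]
    | succ u ih =>
      intro t
      rw [← ih t, ← hG (T * u + t)]
      congr 1
      ring
  have h1 : ∀ u : ℕ, ∑ t ∈ range (T * u), G t = u * ∑ t ∈ range T, G t := by
    intro u
    induction u with
    | zero => simp
    | succ u ih =>
      rw [mul_add, mul_one, sum_range_add, ih]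
      rw [sum_congr rfl fun t _ => hG2 u t]
      push_cast
      ring
  have h2 : x = T * (x / T) + x % T := (Nat.div_add_mod x T).symm
  have h3 : ∑ t ∈ range x, G t = (x / T : ℕ) * ∑ t ∈ range T, G t + ∑ t ∈ range (x % T), G t := by
    conv_lhs => rw [h2]
    rw [sum_range_add, h1, sum_congr rfl fun t _ => hG2 (x / T) t]
  rw [h3]
  refine (norm_add_le _ _).trans (add_le_add ?_ ?_)
  · rw [norm_mul, Complex.norm_natCast]
    exact mul_le_mul_of_nonneg_left hB (Nat.cast_nonneg _)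
  · refine (norm_sum_le _ _).trans ((sum_le_sum fun t _ => hb t).trans ?_)
    rw [sum_const, card_range, nsmul_eq_mul, mul_one]
    exact_mod_cast (Nat.mod_lt x hT).le

/-- a full period of the product of an `m`-periodic and a `p`-periodic function -/
lemma prod_sum {m p : ℕ} [Fact p.Prime] (hmp : ¬ p ∣ m) (v : ℕ → ℂ) (hv : ∀ t, v (t + m) = v t)
    (f : ZMod p → ℂ) :
    ∑ t ∈ range (m * p), v t * f (t : ZMod p) = (∑ a ∈ range m, v a) * ∑ y, f y := by
  have hpp : p.Prime := Fact.out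
  have hm0 : (m : ZMod p) ≠ 0 := by
    intro h
    exact hmp ((ZMod.natCast_eq_zero_iff m p).1 h)
  have hv2 : ∀ s a, v (m * s + a) = v a := by
    intro s
    induction s with
    | zero => intro a; rw [mul_zero, zero_add]
    | succ s ih =>
      intro a
      rw [← ih a, ← hv (m * s + a)]
      congr 1
      ring
  have h1 : ∀ u : ℕ, ∑ t ∈ range (m * u), v t * f (t : ZMod p) =
      ∑ s ∈ range u, ∑ a ∈ range m, v a * f ((m : ZMod p) * s + a) := by
    intro u
    induction u with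
    | zero => simp
    | succ u ih =>
      rw [mul_add, mul_one, sum_range_add, ih, sum_range_succ]
      congr 1
      refine sum_congr rfl fun a _ => ?_
      rw [hv2]
      push_cast
      rfl
  rw [h1, sum_comm, sum_mul]
  refine sum_congr rfl fun a _ => ?_
  rw [← mul_sum]
  congr 1
  have h2 : ∑ s ∈ range p, f ((m : ZMod p) * s + a) = ∑ y : ZMod p, f ((m : ZMod p) * y + a) := by
    refine sum_nbij' (fun s : ℕ => (s : ZMod p)) (fun y : ZMod p => y.val) (fun _ _ => mem_univ _)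
      (fun y _ => mem_range.2 (ZMod.val_lt y)) (fun s hs => ?_) (fun y _ => ?_) (fun s _ => rfl)
    · exact ZMod.val_cast_of_lt (mem_range.1 hs)
    · exact ZMod.natCast_zmod_val y
  rw [h2]
  have h3 : Function.Bijective fun y : ZMod p => (m : ZMod p) * y + a := by
    rw [Fintype.bijective_iff_injective_and_card]
    refine ⟨fun y y' h => ?_, rfl⟩
    simp only [add_left_inj] at h
    exact mul_left_cancel₀ hm0 h
  exact h3.sum_comp f

/-- `P0` is large enough for forms with coefficients `≤ H`, `≤ Bd` -/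
def Big (H Bd : ℕ) (η : ℝ) (P : ℕ) : Prop :=
  64 * (H + 1) ^ 2 ≤ P ∧ H < P ∧ H * Bd < P ∧ 2 / η ≤ P ∧ 42 * (H + 1) / η ≤ √(P : ℝ)

lemma exists_big (H Bd : ℕ) (η : ℝ) : ∃ P, Big H Bd η P := by
  obtain ⟨a, ha⟩ := exists_nat_ge (2 / η)
  obtain ⟨b, hb⟩ := exists_nat_ge ((42 * (H + 1) / η) ^ 2)
  refine ⟨64 * (H + 1) ^ 2 + (H + 1) + (H * Bd + 1) + a + b, by omega, by omega, by omega, ?_, ?_⟩
  · refine ha.trans ?_
    exact_mod_cast (by omega : a ≤ 64 * (H + 1) ^ 2 + (H + 1) + (H * Bd + 1) + a + b)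
  · refine Real.le_sqrt_of_sq_le (hb.trans ?_)
    exact_mod_cast (by omega : b ≤ 64 * (H + 1) ^ 2 + (H + 1) + (H * Bd + 1) + a + b)

lemma Big.mono {H Bd : ℕ} {η : ℝ} {P P' : ℕ} (h : Big H Bd η P) (hP : P ≤ P') : Big H Bd η P' := by
  obtain ⟨h1, h2, h3, h4, h5⟩ := h
  have hc : (P : ℝ) ≤ P' := by exact_mod_cast hP
  exact ⟨h1.trans hP, h2.trans_le hP, h3.trans_le hP, h4.trans hc,
    h5.trans (Real.sqrt_le_sqrt hc)⟩

/-- the main estimate -/
theorem forms_small {H Bd : ℕ} {η : ℝ} (hη : 0 < η) {P : ℕ} (hP : Big H Bd η P) {p : ℕ}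
    [Fact p.Prime] (hPp : P ≤ p) {m : ℕ} (hm : 0 < m) (hmp : ¬ p ∣ m) {N : ℕ} (hN : P * m * p ≤ N)
    (v : ℕ → ℂ) (hv : ∀ t, v (t + m) = v t) (hvb : ∀ t, ‖v t‖ ≤ 1)
    {r : ℕ} (hr : 1 ≤ r) (hrH : r ≤ H) (A C : Fin r → ℕ) (hA : ∀ l, 1 ≤ A l ∧ A l ≤ H)
    (hC : ∀ l, C l ≤ Bd) (hne : ∀ l l', l ≠ l' → A l * C l' ≠ A l' * C l) {x : ℕ} (hx : x ≤ N) :
    ‖∑ t ∈ range x, v t * ∏ l, ((quadraticChar (ZMod p) ((A l * t + C l : ℕ) : ZMod p) : ℤ) : ℂ)‖ ≤
      η * N := by
  classical
  have hpp : p.Prime := Fact.out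
  obtain ⟨h1, h2, h3, h4, h5⟩ := hP.mono hPp
  -- the character sum
  obtain ⟨f, hf⟩ : ∃ f : ZMod p → ℂ, f = fun y => ∏ l : Fin r,
    ((quadraticChar (ZMod p) ((A l : ZMod p) * y + (C l : ZMod p)) : ℤ) : ℂ) := ⟨_, rfl⟩
  have hfb : ∀ y, ‖f y‖ ≤ 1 := by
    intro y
    rw [hf]
    simp only
    rw [norm_prod]
    refine prod_le_one (fun _ _ => norm_nonneg _) fun l _ => ?_
    rcases eq_or_ne ((A l : ZMod p) * y + (C l : ZMod p)) 0 with h | h
    · rw [h]; simp
    · rcases quadraticChar_dichotomy h with h | h <;> rw [h] <;> simp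
  have hB : ‖∑ y, f y‖ ≤ 20 * (H + 1) * √(p : ℝ) + H := by
    have h6 := complete (p := p) (R := H) h1 hr hrH (fun l => (A l : ZMod p))
      (fun l => (C l : ZMod p)) (fun l h => by
        have h7 := Nat.le_of_dvd (hA l).1 ((ZMod.natCast_eq_zero_iff _ _).1 h)
        have := (hA l).2
        omega) (fun l l' hl h => by
        have h7 : ((A l * C l' : ℕ) : ZMod p) = ((A l' * C l : ℕ) : ZMod p) := by
          push_cast
          exact h
        rw [ZMod.natCast_eq_natCast_iff'] at h7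
        have h8 : ∀ i i', A i * C i' < p := fun i i' =>
          lt_of_le_of_lt (Nat.mul_le_mul (hA i).2 (hC i')) h3
        rw [Nat.mod_eq_of_lt (h8 _ _), Nat.mod_eq_of_lt (h8 _ _)] at h7
        exact hne l l' hl h7)
    refine le_trans (le_of_eq ?_) h6
    rw [hf, ← Real.norm_eq_abs, ← Complex.norm_real]
    congr 1
    push_cast
    rfl
  -- the period
  have hG : ∀ t, v (t + m * p) * f ((t + m * p : ℕ) : ZMod p) = v t * f (t : ZMod p) := by
    intro t
    have h6 : ∀ u, v (t + m * u) = v t := by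
      intro u
      induction u with
      | zero => rw [mul_zero, add_zero]
      | succ u ih => rw [mul_add, mul_one, ← add_assoc, hv, ih]
    rw [h6]
    congr 2
    push_cast
    simp
  have hS : ‖∑ t ∈ range (m * p), v t * f (t : ZMod p)‖ ≤ m * (20 * (H + 1) * √(p : ℝ) + H) := by
    rw [prod_sum hmp v hv f, norm_mul]
    refine mul_le_mul ?_ hB (norm_nonneg _) (Nat.cast_nonneg _)
    refine (norm_sum_le _ _).trans ((sum_le_sum fun t _ => hvb t).trans ?_)
    rw [sum_const, card_range, nsmul_eq_mul, mul_one]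
  have hT : 0 < m * p := Nat.mul_pos hm hpp.pos
  have h6 := per_sum hT (fun t => v t * f (t : ZMod p)) hG (fun t => by
    rw [norm_mul]
    exact mul_le_one₀ (hvb t) (norm_nonneg _) (hfb _)) hS x
  have h7 : ∑ t ∈ range x, v t * ∏ l, ((quadraticChar (ZMod p) ((A l * t + C l : ℕ) : ZMod p) : ℤ) : ℂ) =
      ∑ t ∈ range x, v t * f (t : ZMod p) := by
    refine sum_congr rfl fun t _ => ?_
    rw [hf]
    push_cast
    rfl
  rw [h7]
  refine h6.trans ?_
  -- numerics
  have hp0 : (0 : ℝ) < p := by exact_mod_cast hpp.pos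
  have hm0 : (0 : ℝ) < m := by exact_mod_cast hm
  have hN0 : (0 : ℝ) ≤ N := Nat.cast_nonneg N
  have hsq : √(p : ℝ) * √(p : ℝ) = p := Real.mul_self_sqrt hp0.le
  have hs1 : 1 ≤ √(p : ℝ) := by
    rw [Real.one_le_sqrt]
    exact_mod_cast hpp.one_le
  have hs0 : (0 : ℝ) < √(p : ℝ) := by linarith
  have h8 : ((x / (m * p) : ℕ) : ℝ) ≤ N / (m * p) := by
    refine (Nat.cast_div_le).trans ?_
    push_cast
    gcongr
  have h9 : 20 * ((H : ℝ) + 1) * √(p : ℝ) + H ≤ 21 * (H + 1) * √(p : ℝ) := by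
    have : (H : ℝ) ≤ (H + 1) * √(p : ℝ) := by nlinarith [Nat.cast_nonneg (α := ℝ) H]
    linarith
  have h10 : ((x / (m * p) : ℕ) : ℝ) * (m * (20 * (H + 1) * √(p : ℝ) + H)) ≤ η / 2 * N := by
    calc ((x / (m * p) : ℕ) : ℝ) * (m * (20 * (H + 1) * √(p : ℝ) + H))
        ≤ N / (m * p) * (m * (21 * (H + 1) * √(p : ℝ))) := by gcongr
      _ = N * (21 * (H + 1)) * (√(p : ℝ) / p) := by field_simp
      _ = N * (21 * (H + 1)) * (1 / √(p : ℝ)) := by
          congr 1
          rw [div_eq_div_iff hp0.ne' hs0.ne', hsq, one_mul]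
      _ = N * (21 * (H + 1) / √(p : ℝ)) := by ring
      _ ≤ N * (η / 2) := by
          refine mul_le_mul_of_nonneg_left ?_ hN0
          rw [div_le_iff₀ hs0]
          rw [div_le_iff₀ hη] at h5
          nlinarith
      _ = η / 2 * N := by ring
  have h11 : ((m * p : ℕ) : ℝ) ≤ η / 2 * N := by
    have e1 : ((P * m * p : ℕ) : ℝ) ≤ N := by exact_mod_cast hN
    have e2 : 2 / η ≤ (P : ℝ) := hP.2.2.2.1
    rw [div_le_iff₀ hη] at e2
    push_cast at e1 ⊢
    have e3 : (0 : ℝ) ≤ m * p := by positivity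
    nlinarith
  linarith

end Pool.Agent.H18.QT
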