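import Mathlib
import Pool.Agent.H2.EL.Def
import Pool.Agent.H18.QT.Cs

/-!
# [H18 QT Jac] Jacobi symbols: one large prime modulus times a periodic function
-/

set_option autoImplicit false

namespace Pool.Agent.H18.QT

open Finset Pool.H2.EL

/-- the Jacobi symbol as a complex number -/
noncomputable def jc (q n : ℕ) : ℂ := ((jacobiSym (n : ℤ) q : ℤ) : ℂ)

lemma jc_norm (q n : ℕ) : ‖jc q n‖ ≤ 1 := by
  unfold jc
  rcases jacobiSym.trichotomy (n : ℤ) q with h | h | h <;> rw [h] <;> simp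

lemma jc_cj (b : Bool) (q n : ℕ) : cj b (jc q n) = jc q n := by
  unfold cj jc
  cases b <;> simp

lemma jc_conj (q n : ℕ) : (starRingEnd ℂ) (jc q n) = jc q n := by
  unfold jc
  simp

lemma jc_add (q n : ℕ) (a : ℕ) : jc q (n + q * a) = jc q n := by
  have h : jacobiSym ((n + q * a : ℕ) : ℤ) q = jacobiSym (n : ℤ) q := by
    refine jacobiSym.mod_left' ?_
    push_cast
    exact Int.add_mul_emod_self_left _ _ _
  unfold jc
  rw [h]

lemma jc_mul {q q' : ℕ} (hq : q ≠ 0) (hq' : q' ≠ 0) (n : ℕ) : jc (q * q') n = jc q n * jc q' n := by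
  have : NeZero q := ⟨hq⟩
  have : NeZero q' := ⟨hq'⟩
  unfold jc
  rw [jacobiSym.mul_right]
  push_cast
  rfl

lemma jc_prime (p : ℕ) [Fact p.Prime] (n : ℕ) :
    jc p n = ((quadraticChar (ZMod p) ((n : ℕ) : ZMod p) : ℤ) : ℂ) := by
  unfold jc
  rw [← jacobiSym.legendreSym.to_jacobiSym]
  unfold legendreSym
  push_cast
  rfl

/-- one twist by a quadratic character of prime conductor times a periodic function -/
theorem unc_one (h0 H : ℕ) (δ : ℝ) (hδ : 0 < δ) : ∃ P : ℕ, ∀ p : ℕ, p.Prime → P ≤ p → ∀ m : ℕ, 0 < m →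
    ¬ p ∣ m → ∀ N : ℕ, P * m * p ≤ N → ∀ w : ℕ → ℂ, (∀ n, w (n + m) = w n) → (∀ n, ‖w n‖ ≤ 1) →
    Unc (fun n => jc p (n + h0) * w (n + h0)) h0 H N δ := by
  obtain ⟨P, hP⟩ := exists_big H (H + h0) δ
  refine ⟨P, fun p hp hPp m hm hmp N hN w hw hwb => ?_⟩
  have : Fact p.Prime := ⟨hp⟩
  intro r hr hrH α β c hα hβ hne x hx
  have hwm : ∀ n a, w (n + m * a) = w n := by
    intro n a
    induction a with
    | zero => rw [mul_zero, add_zero]
    | succ a ih => rw [mul_add, mul_one, ← add_assoc, hw, ih]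
  have h1 := forms_small hδ hP hPp hm hmp hN
    (fun t => ∏ l, cj (c l) (w (α l * t + (β l + h0)))) (fun t => by
      refine prod_congr rfl fun l _ => ?_
      congr 1
      rw [show α l * (t + m) + (β l + h0) = α l * t + (β l + h0) + m * α l by ring, hwm])
    (fun t => by
      rw [norm_prod]
      refine prod_le_one (fun _ _ => norm_nonneg _) fun l _ => ?_
      rw [cj_norm]
      exact hwb _) hr hrH α (fun l => β l + h0) hα (fun l => by have := hβ l; omega)
    (fun l l' hl => hne l l' hl) hx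
  refine le_trans (le_of_eq ?_) h1
  congr 1
  refine sum_congr rfl fun t _ => ?_
  rw [← prod_mul_distrib]
  refine prod_congr rfl fun l _ => ?_
  rw [← jc_prime p]
  simp only [add_assoc]
  have : ∀ (b : Bool) (z z' : ℂ), cj b (z * z') = cj b z * cj b z' := by
    intro b z z'
    unfold cj
    cases b <;> simp
  rw [this, jc_cj, mul_comm]

/-- two Jacobi symbols -/
theorem pair_small {H h0 : ℕ} {η : ℝ} (hη : 0 < η) {P : ℕ} (hP : Big H (H + h0) η P) {q q' : ℕ}
    (hq : 0 < q) (hq' : 0 < q') (hs : Squarefree q) {p : ℕ} (hp : p.Prime) (hPp : P ≤ p)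
    (hpq : p ∣ q) (hpq' : ¬ p ∣ q') {N : ℕ} (hN : P * (q * q') ≤ N) {r : ℕ} (hr : 1 ≤ r)
    (hrH : r ≤ H) (α β : Fin r → ℕ) (hα : ∀ l, 1 ≤ α l ∧ α l ≤ H) (hβ : ∀ l, β l ≤ H)
    (hne : ∀ l l', l ≠ l' → α l * (β l' + h0) ≠ α l' * (β l + h0)) {x : ℕ} (hx : x ≤ N) :
    ‖∑ t ∈ range x, (∏ l, jc q (α l * t + (β l + h0))) * ∏ l, jc q' (α l * t + (β l + h0))‖ ≤
      η * N := by
  have : Fact p.Prime := ⟨hp⟩
  obtain ⟨u, rfl⟩ := hpq
  have hu : ¬ p ∣ u := by
    rintro ⟨a, rfl⟩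
    have := hs p ⟨a, by ring⟩
    exact hp.one_lt.ne' (Nat.isUnit_iff.1 this)
  have hu0 : u ≠ 0 := by
    rintro rfl
    simp at hq
  have h1 := forms_small hη hP hPp (m := u * q') (Nat.mul_pos (Nat.pos_of_ne_zero hu0) hq')
    (fun h => (hp.dvd_mul.1 h).elim hu hpq') (N := N) (by
      refine le_trans (le_of_eq ?_) hN
      ring)
    (fun t => ∏ l, (jc u (α l * t + (β l + h0)) * jc q' (α l * t + (β l + h0)))) (fun t => by
      refine prod_congr rfl fun l _ => ?_
      rw [show α l * (t + u * q') + (β l + h0) = α l * t + (β l + h0) + u * (q' * α l) by ring,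
        jc_add, show α l * t + (β l + h0) + u * (q' * α l) =
          α l * t + (β l + h0) + q' * (u * α l) by ring, jc_add])
    (fun t => by
      rw [norm_prod]
      refine prod_le_one (fun _ _ => norm_nonneg _) fun l _ => ?_
      rw [norm_mul]
      exact mul_le_one₀ (jc_norm _ _) (norm_nonneg _) (jc_norm _ _)) hr hrH α
    (fun l => β l + h0) hα (fun l => by have := hβ l; omega) (fun l l' hl => hne l l' hl) hx
  refine le_trans (le_of_eq ?_) h1
  congr 1
  refine sum_congr rfl fun t _ => ?_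
  rw [← prod_mul_distrib, ← prod_mul_distrib]
  refine prod_congr rfl fun l _ => ?_
  rw [jc_mul hp.ne_zero hu0, ← jc_prime p]
  ring

/-- two squarefree numbers with the same small prime factors -/
lemma exists_prime {P q q' : ℕ} (hs : Squarefree q) (hs' : Squarefree q') (hne : q ≠ q')
    (h : q.primeFactors.filter (· < P) = q'.primeFactors.filter (· < P)) :
    ∃ p, p.Prime ∧ P ≤ p ∧ ((p ∣ q ∧ ¬ p ∣ q') ∨ (p ∣ q' ∧ ¬ p ∣ q)) := by
  by_contra hcon
  push Not at hcon
  apply hne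
  rw [← Nat.prod_primeFactors_of_squarefree hs, ← Nat.prod_primeFactors_of_squarefree hs']
  refine prod_congr ?_ fun _ _ => rfl
  ext p
  by_cases hp : p.Prime
  · rcases lt_or_ge p P with hpP | hpP
    · have h1 : p ∈ q.primeFactors.filter (· < P) ↔ p ∈ q'.primeFactors.filter (· < P) := by rw [h]
      rw [mem_filter, mem_filter] at h1
      exact ⟨fun h2 => (h1.1 ⟨h2, hpP⟩).1, fun h2 => (h1.2 ⟨h2, hpP⟩).1⟩
    · have h1 := hcon p hp hpP
      rw [Nat.mem_primeFactors_of_ne_zero hs.ne_zero, Nat.mem_primeFactors_of_ne_zero hs'.ne_zero]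
      exact ⟨fun h2 => ⟨hp, h1.1 h2.2⟩, fun h2 => ⟨hp, h1.2 h2.2⟩⟩
  · exact ⟨fun h2 => absurd (Nat.prime_of_mem_primeFactors h2) hp,
      fun h2 => absurd (Nat.prime_of_mem_primeFactors h2) hp⟩

end Pool.Agent.H18.QT
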