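import Mathlib
import Pool.Agent.H18.QT.Jac

/-!
# [H18 QT Pig] pigeonhole and Bessel for twists by quadratic characters

`bessel`: copy of `Pool.H2.BS.bessel`. `pig`: for all but `K` odd squarefree `q` with `P q² ≤ N` the function
`n ↦ w n (n + h0 / q)` has small self-correlations at scale `N`, `w` any bounded function.
-/

set_option autoImplicit false

namespace Pool.Agent.H18.QT

open Finset Pool.H2.EL

/-- abstract Bessel inequality -/
theorem bessel {M : ℕ} {x N : ℕ} (hx : x ≤ N) (b : ℕ → ℂ) (hb : ∀ t, ‖b t‖ ≤ 1)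
    (F : Fin M → ℕ → ℂ) (hF : ∀ m t, ‖F m t‖ ≤ 1) {ε : ℝ} (hε : 0 < ε) (hM : 2 / ε ^ 2 ≤ M)
    (horth : ∀ m m', m ≠ m' →
      ‖∑ t ∈ range x, F m t * (starRingEnd ℂ) (F m' t)‖ ≤ ε ^ 2 / 2 * N) :
    ∃ m, ‖∑ t ∈ range x, b t * F m t‖ ≤ ε * N := by
  classical
  by_contra hcon
  push Not at hcon
  have hMpos : (0 : ℝ) < M := lt_of_lt_of_le (by positivity) hM
  have hN0 : (0 : ℝ) ≤ N := Nat.cast_nonneg N
  have hxN : (x : ℝ) ≤ N := by exact_mod_cast hx
  obtain ⟨S, hS⟩ : ∃ S : Fin M → ℂ, S = fun m => ∑ t ∈ range x, b t * F m t := ⟨_, rfl⟩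
  obtain ⟨c, hc⟩ : ∃ c : Fin M → ℂ, c = fun m => (starRingEnd ℂ) (S m) / (‖S m‖ : ℂ) := ⟨_, rfl⟩
  have hSpos : ∀ m, 0 < ‖S m‖ := by
    intro m
    have h1 := hcon m
    have h2 : (∑ t ∈ range x, b t * F m t) = S m := by rw [hS]
    rw [h2] at h1
    exact lt_of_le_of_lt (by positivity) h1
  have hcS : ∀ m, c m * S m = (‖S m‖ : ℂ) := by
    intro m
    have h1 : (‖S m‖ : ℂ) ≠ 0 := by exact_mod_cast (hSpos m).ne'
    rw [hc]
    simp only
    rw [div_mul_eq_mul_div, mul_comm, Complex.mul_conj, Complex.normSq_eq_norm_sq]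
    push_cast
    rw [sq, mul_div_assoc, div_self h1, mul_one]
  have hcn : ∀ m, ‖c m‖ ≤ 1 := by
    intro m
    rw [hc]
    simp only
    rw [norm_div, RCLike.norm_conj, Complex.norm_real, norm_norm]
    exact div_self_le_one _
  -- the sum of the norms
  obtain ⟨G, hG⟩ : ∃ G : ℕ → ℂ, G = fun t => ∑ m, c m * F m t := ⟨_, rfl⟩
  have h1 : ((∑ m, ‖S m‖ : ℝ) : ℂ) = ∑ t ∈ range x, b t * G t := by
    have e1 : ((∑ m, ‖S m‖ : ℝ) : ℂ) = ∑ m, c m * S m := by
      rw [Complex.ofReal_sum]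
      exact sum_congr rfl fun m _ => (hcS m).symm
    rw [e1]
    have e2 : ∀ m, c m * S m = ∑ t ∈ range x, b t * (c m * F m t) := by
      intro m
      rw [hS]
      simp only
      rw [mul_sum]
      exact sum_congr rfl fun t _ => by ring
    rw [sum_congr rfl fun m _ => e2 m, sum_comm]
    refine sum_congr rfl fun t _ => ?_
    rw [hG]
    simp only
    rw [mul_sum]
  have h2 : (∑ m, ‖S m‖) ^ 2 ≤ x * ∑ t ∈ range x, ‖G t‖ ^ 2 := by
    have e1 : ∑ m, ‖S m‖ ≤ ∑ t ∈ range x, ‖G t‖ := by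
      have e2 : ‖((∑ m, ‖S m‖ : ℝ) : ℂ)‖ = ∑ m, ‖S m‖ := by
        rw [Complex.norm_real, Real.norm_of_nonneg (sum_nonneg fun m _ => norm_nonneg _)]
      rw [← e2, h1]
      refine (norm_sum_le _ _).trans (sum_le_sum fun t _ => ?_)
      rw [norm_mul]
      exact mul_le_of_le_one_left (norm_nonneg _) (hb t)
    have e3 : (∑ t ∈ range x, ‖G t‖) ^ 2 ≤ x * ∑ t ∈ range x, ‖G t‖ ^ 2 := by
      have := sq_sum_le_card_mul_sum_sq (s := range x) (f := fun t => ‖G t‖)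
      rwa [card_range] at this
    refine le_trans ?_ e3
    exact pow_le_pow_left₀ (sum_nonneg fun m _ => norm_nonneg _) e1 2
  -- the second moment
  have h3 : ∑ t ∈ range x, ‖G t‖ ^ 2 ≤ M * (N + M * (ε ^ 2 / 2 * N)) := by
    have e1 : ((∑ t ∈ range x, ‖G t‖ ^ 2 : ℝ) : ℂ) =
        ∑ m, ∑ m', c m * (starRingEnd ℂ) (c m') *
          ∑ t ∈ range x, F m t * (starRingEnd ℂ) (F m' t) := by
      rw [Complex.ofReal_sum]
      have e2 : ∀ t, ((‖G t‖ ^ 2 : ℝ) : ℂ) = ∑ m, ∑ m', c m * (starRingEnd ℂ) (c m') *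
          (F m t * (starRingEnd ℂ) (F m' t)) := by
        intro t
        rw [← Complex.normSq_eq_norm_sq, ← Complex.mul_conj, hG]
        simp only
        rw [map_sum, sum_mul_sum]
        refine sum_congr rfl fun m _ => sum_congr rfl fun m' _ => ?_
        rw [map_mul]
        ring
      rw [sum_congr rfl fun t _ => e2 t, sum_comm]
      refine sum_congr rfl fun m _ => ?_
      rw [sum_comm]
      refine sum_congr rfl fun m' _ => ?_
      rw [mul_sum]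
    have e3 : ∑ t ∈ range x, ‖G t‖ ^ 2 = ‖((∑ t ∈ range x, ‖G t‖ ^ 2 : ℝ) : ℂ)‖ := by
      rw [Complex.norm_real, Real.norm_of_nonneg (sum_nonneg fun t _ => by positivity)]
    rw [e3, e1]
    have e4 : ∀ m m', ‖c m * (starRingEnd ℂ) (c m') *
        ∑ t ∈ range x, F m t * (starRingEnd ℂ) (F m' t)‖ ≤
        (if m = m' then (N : ℝ) else 0) + ε ^ 2 / 2 * N := by
      intro m m'
      rw [norm_mul, norm_mul, RCLike.norm_conj]
      have e5 : ‖c m‖ * ‖c m'‖ ≤ 1 := mul_le_one₀ (hcn m) (norm_nonneg _) (hcn m')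
      refine (mul_le_of_le_one_left (norm_nonneg _) e5).trans ?_
      split_ifs with hmm
      · have e6 : ‖∑ t ∈ range x, F m t * (starRingEnd ℂ) (F m' t)‖ ≤ x := by
          refine (norm_sum_le _ _).trans ?_
          calc ∑ t ∈ range x, ‖F m t * (starRingEnd ℂ) (F m' t)‖ ≤ ∑ t ∈ range x, (1 : ℝ) := by
                refine sum_le_sum fun t _ => ?_
                rw [norm_mul, RCLike.norm_conj]
                exact mul_le_one₀ (hF m t) (norm_nonneg _) (hF m' t)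
            _ = x := by simp
        have e7 : (0 : ℝ) ≤ ε ^ 2 / 2 * N := by positivity
        linarith
      · rw [zero_add]
        exact horth m m' hmm
    refine (norm_sum_le _ _).trans ?_
    calc ∑ m, ‖∑ m', c m * (starRingEnd ℂ) (c m') *
        ∑ t ∈ range x, F m t * (starRingEnd ℂ) (F m' t)‖
        ≤ ∑ m : Fin M, ∑ m' : Fin M, ((if m = m' then (N : ℝ) else 0) + ε ^ 2 / 2 * N) :=
          sum_le_sum fun m _ => (norm_sum_le _ _).trans (sum_le_sum fun m' _ => e4 m m')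
      _ = M * (N + M * (ε ^ 2 / 2 * N)) := by
          simp only [sum_add_distrib, sum_ite_eq, mem_univ, if_true, sum_const, card_univ,
            Fintype.card_fin, nsmul_eq_mul]
          ring
  -- the contradiction
  have h4 : (M : ℝ) * (ε * N) < ∑ m, ‖S m‖ := by
    have hne : (univ : Finset (Fin M)).Nonempty := by
      have : 0 < M := by exact_mod_cast hMpos
      exact ⟨⟨0, this⟩, mem_univ _⟩
    calc (M : ℝ) * (ε * N) = ∑ _m : Fin M, ε * (N : ℝ) := by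
          rw [sum_const, card_univ, Fintype.card_fin, nsmul_eq_mul]
      _ < ∑ m, ‖S m‖ := by
          refine sum_lt_sum_of_nonempty hne fun m _ => ?_
          have h5 := hcon m
          have h6 : (∑ t ∈ range x, b t * F m t) = S m := by rw [hS]
          rwa [h6] at h5
  have h5 : ((M : ℝ) * (ε * N)) ^ 2 < (∑ m, ‖S m‖) ^ 2 :=
    pow_lt_pow_left₀ h4 (by positivity) two_ne_zero
  have h6 : (∑ m, ‖S m‖) ^ 2 ≤ N * (M * (N + M * (ε ^ 2 / 2 * N))) := by
    refine h2.trans ?_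
    have e1 : (0 : ℝ) ≤ ∑ t ∈ range x, ‖G t‖ ^ 2 := sum_nonneg fun t _ => by positivity
    calc (x : ℝ) * ∑ t ∈ range x, ‖G t‖ ^ 2 ≤ N * ∑ t ∈ range x, ‖G t‖ ^ 2 :=
          mul_le_mul_of_nonneg_right hxN e1
      _ ≤ N * (M * (N + M * (ε ^ 2 / 2 * N))) := mul_le_mul_of_nonneg_left h3 hN0
  have h7 : (N : ℝ) * (M * (N + M * (ε ^ 2 / 2 * N))) ≤ ((M : ℝ) * (ε * N)) ^ 2 := by
    have e1 : 2 ≤ M * ε ^ 2 := by
      rw [div_le_iff₀ (by positivity)] at hM
      linarith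
    have e2 : (0 : ℝ) ≤ N ^ 2 * M := by positivity
    nlinarith [mul_le_mul_of_nonneg_left e1 e2]
  linarith

/-- the configurations with coefficients at most `H` -/
abbrev Cf (H : ℕ) : Type :=
  Σ r : Fin (H + 1), (Fin r → Fin (H + 1)) × (Fin r → Fin (H + 1)) × (Fin r → Bool)

/-- the valid ones -/
def Cf.Ok {H : ℕ} (h0 : ℕ) (z : Cf H) : Prop :=
  1 ≤ (z.1 : ℕ) ∧ (∀ l, 1 ≤ (z.2.1 l : ℕ)) ∧
    (∀ l l', l ≠ l' → (z.2.1 l : ℕ) * ((z.2.2.1 l' : ℕ) + h0) ≠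
      (z.2.1 l' : ℕ) * ((z.2.2.1 l : ℕ) + h0))

/-- a function with a large correlation has one at a cut point -/
lemma cut {h0 H : ℕ} {δ : ℝ} (hδ : 0 < δ) {R : ℕ} (hR : 4 / δ ≤ R) {N : ℕ} (hN : 4 / δ ≤ N)
    (w : ℕ → ℂ) (hw : ∀ n, ‖w n‖ ≤ 1) (q : ℕ)
    (h : ¬ Unc (fun n => w n * jc q (n + h0)) h0 H N δ) :
    ∃ y : Cf H × Fin (R + 1), y.1.Ok h0 ∧ δ / 2 * N < ‖∑ t ∈ range (N * y.2 / R),
        (∏ l, cj (y.1.2.2.2 l) (w ((y.1.2.1 l : ℕ) * t + (y.1.2.2.1 l : ℕ)))) *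
        ∏ l, jc q ((y.1.2.1 l : ℕ) * t + ((y.1.2.2.1 l : ℕ) + h0))‖ := by
  have hRpos : (0 : ℝ) < R := lt_of_lt_of_le (by positivity) hR
  have hRpos' : 0 < R := by exact_mod_cast hRpos
  have hNpos : (0 : ℝ) < N := lt_of_lt_of_le (by positivity) hN
  have hN1 : 1 ≤ N := by exact_mod_cast hNpos
  have hN4 : 1 ≤ δ / 4 * N := by
    rw [div_le_iff₀ hδ] at hN
    linarith
  unfold Unc at h
  push Not at h
  obtain ⟨r, hr, hrH, A, B, c, hA, hB, hne, x, hx, hbig⟩ := h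
  obtain ⟨j, hj⟩ : ∃ j : ℕ, j = x * R / N := ⟨_, rfl⟩
  have hjR : j ≤ R := by
    rw [hj]
    refine Nat.div_le_of_le_mul ?_
    exact Nat.mul_le_mul_right _ hx
  refine ⟨⟨⟨⟨r, by omega⟩, fun l => ⟨A l, by have := (hA l).2; omega⟩,
    fun l => ⟨B l, by have := hB l; omega⟩, c⟩, ⟨j, by omega⟩⟩, ⟨hr, fun l => (hA l).1, hne⟩, ?_⟩
  have hjx : N * j / R ≤ x := by
    refine Nat.div_le_of_le_mul ?_
    rw [hj]
    calc N * (x * R / N) ≤ x * R := Nat.mul_div_le _ _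
      _ = R * x := mul_comm _ _
  have hjx2 : (x : ℝ) ≤ (N * j / R : ℕ) + δ / 2 * N := by
    have e1 : (x : ℝ) * R < N * (j + 1) := by
      have : x * R < N * (x * R / N + 1) := by
        have e0 := Nat.lt_div_mul_add (a := x * R) (b := N) (by omega)
        nlinarith
      rw [hj]
      exact_mod_cast this
    have e2 : (N : ℝ) * j < R * ((N * j / R : ℕ) + 1) := by
      have : N * j < R * (N * j / R + 1) := by
        have e0 := Nat.lt_div_mul_add (a := N * j) (b := R) hRpos'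
        nlinarith
      exact_mod_cast this
    have e3 : (N : ℝ) ≤ δ / 4 * N * R := by
      rw [div_le_iff₀ hδ] at hR
      have : (0 : ℝ) ≤ N := Nat.cast_nonneg N
      nlinarith
    have e4 : (x : ℝ) * R ≤ ((N * j / R : ℕ) + δ / 2 * N) * R := by nlinarith
    exact le_of_mul_le_mul_right e4 hRpos
  have hterm : ∀ t : ℕ, ‖∏ l, cj (c l) (w (A l * t + B l) * jc q (A l * t + B l + h0))‖ ≤ 1 := by
    intro t
    rw [norm_prod]
    refine prod_le_one (fun _ _ => norm_nonneg _) fun l _ => ?_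
    rw [cj_norm, norm_mul]
    exact mul_le_one₀ (hw _) (norm_nonneg _) (jc_norm _ _)
  have hsplit : ‖∑ t ∈ range x, ∏ l, cj (c l) (w (A l * t + B l) * jc q (A l * t + B l + h0))‖ ≤
      ‖∑ t ∈ range (N * j / R), ∏ l, cj (c l) (w (A l * t + B l) *
        jc q (A l * t + B l + h0))‖ + δ / 2 * N := by
    obtain ⟨s, hs⟩ : ∃ s, x = N * j / R + s := ⟨x - N * j / R, by omega⟩
    rw [hs, sum_range_add]
    refine (norm_add_le _ _).trans (add_le_add_right ?_ _)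
    refine (norm_sum_le _ _).trans ((sum_le_sum fun t _ => hterm _).trans ?_)
    rw [sum_const, card_range, nsmul_eq_mul, mul_one]
    have : (x : ℝ) = (N * j / R : ℕ) + s := by exact_mod_cast hs
    linarith
  have h4 : δ / 2 * N < ‖∑ t ∈ range (N * j / R), ∏ l, cj (c l) (w (A l * t + B l) *
        jc q (A l * t + B l + h0))‖ := by linarith
  refine lt_of_lt_of_le h4 (le_of_eq ?_)
  congr 1
  refine sum_congr rfl fun t _ => ?_
  rw [← prod_mul_distrib]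
  refine prod_congr rfl fun l _ => ?_
  have hcj : ∀ (b : Bool) (z z' : ℂ), cj b (z * z') = cj b z * cj b z' := by
    intro b z z'
    unfold cj
    cases b <;> simp
  rw [hcj, jc_cj, add_assoc]

/-- few quadratic characters are exceptional -/
theorem pig (h0 H : ℕ) {δ : ℝ} (hδ : 0 < δ) :
    ∃ K P : ℕ, ∀ N : ℕ, ∀ w : ℕ → ℂ, (∀ n, ‖w n‖ ≤ 1) → ∀ Bad : Finset ℕ,
      (∀ q ∈ Bad, Odd q ∧ Squarefree q ∧ P * q ^ 2 ≤ N ∧
        ¬ Unc (fun n => w n * jc q (n + h0)) h0 H N δ) → Bad.card ≤ K := by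
  classical
  obtain ⟨M, hM⟩ := exists_nat_ge (2 / (δ / 2) ^ 2)
  have hδ2 : 0 < δ / 2 := by positivity
  obtain ⟨η, hη⟩ : ∃ η : ℝ, η = (δ / 2) ^ 2 / 2 := ⟨_, rfl⟩
  have hη0 : 0 < η := by rw [hη]; positivity
  obtain ⟨P1, hP1⟩ := exists_big H (H + h0) η
  obtain ⟨R, hR⟩ := exists_nat_ge (4 / δ)
  obtain ⟨P, hP⟩ : ∃ P, P = P1 + R := ⟨_, rfl⟩
  have hbig : Big H (H + h0) η P := hP1.mono (by omega)
  refine ⟨Fintype.card (Cf H × Fin (R + 1)) * 2 ^ P * M, P, fun N w hw Bad hBad => ?_⟩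
  by_contra hcon
  push Not at hcon
  obtain ⟨q0, hq0⟩ : Bad.Nonempty := card_pos.1 (lt_of_le_of_lt (Nat.zero_le _) hcon)
  have hNP : P ≤ N := by
    obtain ⟨h1, _, h2, _⟩ := hBad q0 hq0
    have h3 : 1 ≤ q0 ^ 2 := Nat.one_le_pow _ _ h1.pos
    nlinarith
  have hN : 4 / δ ≤ N := hR.trans (by exact_mod_cast (by omega : R ≤ N))
  have h2 : ∀ q ∈ Bad, ∃ y : Cf H × Fin (R + 1), y.1.Ok h0 ∧
      δ / 2 * N < ‖∑ t ∈ range (N * y.2 / R),
        (∏ l, cj (y.1.2.2.2 l) (w ((y.1.2.1 l : ℕ) * t + (y.1.2.2.1 l : ℕ)))) *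
        ∏ l, jc q ((y.1.2.1 l : ℕ) * t + ((y.1.2.2.1 l : ℕ) + h0))‖ := by
    intro q hq
    exact cut hδ hR hN w hw q (hBad q hq).2.2.2
  have : Nonempty (Cf H × Fin (R + 1)) := ⟨(h2 q0 hq0).choose⟩
  choose! y hy1 hy2 using h2
  -- pigeonhole
  obtain ⟨z, _, hz2⟩ := exists_lt_card_fiber_of_mul_lt_card_of_maps_to
    (s := Bad) (t := (univ : Finset (Cf H × Fin (R + 1))) ×ˢ (range P).powerset)
    (f := fun q => (y q, q.primeFactors.filter (· < P))) (n := M) (fun q _ => by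
      rw [mem_product, mem_powerset]
      refine ⟨mem_univ _, fun p hp => ?_⟩
      rw [mem_filter] at hp
      exact mem_range.2 hp.2) (by
      rw [card_product, card_univ, card_powerset, card_range]
      exact hcon)
  obtain ⟨T, hT, hTc⟩ := exists_subset_card_eq hz2.le
  obtain ⟨e, he, heT⟩ : ∃ e : Fin M → ℕ, Function.Injective e ∧ ∀ m, e m ∈ T :=
    ⟨fun m => T.orderEmbOfFin hTc m, (T.orderEmbOfFin hTc).injective,
      fun m => orderEmbOfFin_mem T hTc m⟩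
  have heB : ∀ m, e m ∈ Bad := fun m => (mem_filter.1 (hT (heT m))).1
  have hez : ∀ m, y (e m) = z.1 ∧ (e m).primeFactors.filter (· < P) = z.2 := fun m => by
    have := (mem_filter.1 (hT (heT m))).2
    rw [← this]
    exact ⟨rfl, rfl⟩
  have hMpos : 0 < M := by
    have : (0 : ℝ) < M := lt_of_lt_of_le (by positivity) hM
    exact_mod_cast this
  have hok : z.1.1.Ok h0 := by
    rw [← (hez ⟨0, hMpos⟩).1]
    exact hy1 _ (heB _)
  have hxN : N * z.1.2 / R ≤ N := by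
    refine Nat.div_le_of_le_mul ?_
    rw [mul_comm]
    exact Nat.mul_le_mul_right _ (Nat.le_of_lt_succ z.1.2.2)
  have hα : ∀ l, 1 ≤ (z.1.1.2.1 l : ℕ) ∧ (z.1.1.2.1 l : ℕ) ≤ H :=
    fun l => ⟨hok.2.1 l, Nat.le_of_lt_succ (z.1.1.2.1 l).2⟩
  have hβ : ∀ l, (z.1.1.2.2.1 l : ℕ) ≤ H := fun l => Nat.le_of_lt_succ (z.1.1.2.2.1 l).2
  have hrH : (z.1.1.1 : ℕ) ≤ H := Nat.le_of_lt_succ z.1.1.1.2
  have hqq : ∀ m m', P * (e m * e m') ≤ N := by
    intro m m'
    have h1 := (hBad _ (heB m)).2.2.1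
    have h2 := (hBad _ (heB m')).2.2.1
    rcases le_total (e m) (e m') with h | h
    · refine le_trans (Nat.mul_le_mul_left _ ?_) h2
      rw [sq]
      exact Nat.mul_le_mul_right _ h
    · refine le_trans (Nat.mul_le_mul_left _ ?_) h1
      rw [sq]
      exact Nat.mul_le_mul_left _ h
  obtain ⟨m, hm⟩ := bessel hxN
    (fun t => ∏ l, cj (z.1.1.2.2.2 l) (w ((z.1.1.2.1 l : ℕ) * t + (z.1.1.2.2.1 l : ℕ)))) (fun t => by
      rw [norm_prod]
      refine prod_le_one (fun _ _ => norm_nonneg _) fun l _ => ?_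
      rw [cj_norm]
      exact hw _)
    (fun m t => ∏ l, jc (e m) ((z.1.1.2.1 l : ℕ) * t + ((z.1.1.2.2.1 l : ℕ) + h0))) (fun m t => by
      rw [norm_prod]
      exact prod_le_one (fun _ _ => norm_nonneg _) fun l _ => jc_norm _ _) hδ2 hM (by
      intro m m' hmm
      obtain ⟨h1, h1', _, _⟩ := hBad _ (heB m)
      obtain ⟨h3, h3', _, _⟩ := hBad _ (heB m')
      obtain ⟨p, hp, hPp, hpd⟩ := exists_prime (P := P) h1' h3' (he.ne hmm)
        ((hez m).2.trans (hez m').2.symm)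
      rw [← hη]
      simp only [map_prod, jc_conj]
      rcases hpd with ⟨h5, h6⟩ | ⟨h5, h6⟩
      · exact pair_small hη0 hbig h1.pos h3.pos h1' hp hPp h5 h6 (hqq m m') hok.1 hrH _ _ hα hβ
          hok.2.2 hxN
      · refine le_trans (le_of_eq ?_) (pair_small hη0 hbig h3.pos h1.pos h3' hp hPp h5 h6
          (hqq m' m) hok.1 hrH _ _ hα hβ hok.2.2 hxN)
        congr 1
        exact sum_congr rfl fun t _ => mul_comm _ _)
  have h5 := hy2 (e m) (heB m)
  rw [(hez m).1] at h5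
  linarith

end Pool.Agent.H18.QT
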