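import Mathlib
import Pool.Agent.H18.QT.Pig

/-!
# [H18 QT Chr] all Dirichlet characters modulo a prime: second moment by orthogonality

`second`: `Σ_χ |Σ_{t < x} b(t) Π_l χ^(±)(A_l t + C_l)|² ≤ r x (x + q)`.
-/

set_option autoImplicit false

namespace Pool.Agent.H18.QT

open Finset Pool.H2.EL Polynomial

/-- product of the forms or their inverses -/
noncomputable def UU {q r : ℕ} [Fact q.Prime] (A C : Fin r → ZMod q) (c : Fin r → Bool) (y : ZMod q) :
    ZMod q := ∏ l, if c l then A l * y + C l else (A l * y + C l)⁻¹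

lemma UU_chi {q r : ℕ} [Fact q.Prime] (A C : Fin r → ZMod q) (c : Fin r → Bool) (y : ZMod q)
    (χ : DirichletCharacter ℂ q) : ∏ l, cj (c l) (χ (A l * y + C l)) = χ (UU A C c y) := by
  unfold UU
  rw [map_prod]
  refine prod_congr rfl fun l _ => ?_
  unfold cj
  cases c l
  · simp only [Bool.false_eq_true, if_false]
    rw [← MulChar.inv_apply', ← MulChar.star_apply']
    rfl
  · simp

/-- few solutions of `UU y = c0` -/
lemma UU_card {q r : ℕ} [Fact q.Prime] (hr : 1 ≤ r) (A C : Fin r → ZMod q) (c : Fin r → Bool)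
    (hA : ∀ l, A l ≠ 0) (hne : ∀ l l', l ≠ l' → A l * C l' ≠ A l' * C l) (c0 : ZMod q)
    (hc0 : c0 ≠ 0) : (univ.filter fun y : ZMod q => UU A C c y = c0).card ≤ r := by
  classical
  obtain ⟨f, hf⟩ : ∃ f : (ZMod q)[X], f = (∏ l ∈ univ.filter (fun l => c l = true),
      (Polynomial.C (A l) * X + Polynomial.C (C l))) - Polynomial.C c0 *
      ∏ l ∈ univ.filter (fun l => ¬ c l = true), (Polynomial.C (A l) * X + Polynomial.C (C l)) :=
    ⟨_, rfl⟩
  have hfe : ∀ y, f.eval y = (∏ l ∈ univ.filter (fun l => c l = true), (A l * y + C l)) - c0 *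
      ∏ l ∈ univ.filter (fun l => ¬ c l = true), (A l * y + C l) := by
    intro y
    rw [hf]
    simp [eval_prod]
  have hdeg1 : ∀ s : Finset (Fin r), (∏ l ∈ s,
      (Polynomial.C (A l) * X + Polynomial.C (C l))).natDegree ≤ r := by
    intro s
    refine (natDegree_prod_le _ _).trans ?_
    refine (sum_le_sum (g := fun _ => 1) fun l _ => natDegree_linear_le).trans ?_
    rw [sum_const, smul_eq_mul, mul_one]
    exact (card_le_univ s).trans (by rw [Fintype.card_fin])
  have hdeg : f.natDegree ≤ r := by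
    rw [hf]
    refine (natDegree_sub_le _ _).trans (max_le (hdeg1 _) ?_)
    exact (natDegree_C_mul_le _ _).trans (hdeg1 _)
  -- not zero
  obtain ⟨l0, hl0⟩ : ∃ l0 : Fin r, l0 = ⟨0, hr⟩ := ⟨_, rfl⟩
  obtain ⟨y0, hy0⟩ : ∃ y0 : ZMod q, y0 = -C l0 / A l0 := ⟨_, rfl⟩
  have h0 : A l0 * y0 + C l0 = 0 := by
    rw [hy0]
    have := hA l0
    field_simp
    ring
  have h1 : ∀ l, l ≠ l0 → A l * y0 + C l ≠ 0 := by
    intro l hl h
    apply hne l l0 hl
    have := hA l0
    have h2 : A l0 * (A l * y0 + C l) = A l * (A l0 * y0 + C l0) + (A l0 * C l - A l * C l0) := by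
      ring
    rw [h, h0, mul_zero, mul_zero, zero_add] at h2
    linear_combination h2
  have hf0 : f ≠ 0 := by
    intro h
    have h2 := hfe y0
    rw [h, eval_zero] at h2
    by_cases hc : c l0 = true
    · rw [prod_eq_zero (mem_filter.2 ⟨mem_univ l0, hc⟩) h0, zero_sub, eq_comm, neg_eq_zero,
        mul_eq_zero, prod_eq_zero_iff] at h2
      rcases h2 with h2 | ⟨l, hl, h2⟩
      · exact hc0 h2
      · rw [mem_filter] at hl
        refine h1 l ?_ h2
        rintro rfl
        exact hl.2 hc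
    · rw [prod_eq_zero (s := univ.filter (fun l => ¬ c l = true)) (mem_filter.2 ⟨mem_univ l0, hc⟩) h0,
        mul_zero, sub_zero, eq_comm, prod_eq_zero_iff] at h2
      obtain ⟨l, hl, h2⟩ := h2
      rw [mem_filter] at hl
      refine h1 l ?_ h2
      rintro rfl
      exact hc hl.2
  refine le_trans (card_le_card (t := f.roots.toFinset) fun y hy => ?_)
    ((Multiset.toFinset_card_le _).trans ((card_roots' f).trans hdeg))
  rw [mem_filter] at hy
  rw [Multiset.mem_toFinset, mem_roots hf0, IsRoot.def, hfe, sub_eq_zero]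
  have h2 : ∀ l, A l * y + C l ≠ 0 := by
    intro l h
    apply hc0
    rw [← hy.2]
    unfold UU
    refine prod_eq_zero (mem_univ l) ?_
    rw [h]
    simp
  have h3 : UU A C c y = (∏ l ∈ univ.filter (fun l => c l = true), (A l * y + C l)) *
      ∏ l ∈ univ.filter (fun l => ¬ c l = true), (A l * y + C l)⁻¹ := by
    unfold UU
    rw [prod_ite]
  rw [← hy.2, h3, mul_assoc, ← prod_mul_distrib, prod_eq_one (s := univ.filter (fun l => ¬ c l = true)),
    mul_one]
  intro l _
  exact inv_mul_cancel₀ (h2 l)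

/-- few solutions below `x` -/
lemma count_card {q r : ℕ} [Fact q.Prime] (T : Finset (ZMod q)) (hT : T.card ≤ r) (x : ℕ) :
    ((range x).filter fun t : ℕ => (t : ZMod q) ∈ T).card ≤ r * (x / q + 1) := by
  classical
  have hq : 0 < q := (Fact.out : q.Prime).pos
  refine (card_le_card_of_injOn (t := T ×ˢ range (x / q + 1)) (fun t : ℕ => ((t : ZMod q), t / q))
    (fun t ht => ?_) (fun t _ t' _ h => ?_)).trans ?_
  · rw [mem_coe, mem_filter, mem_range] at ht
    rw [mem_coe, mem_product]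
    refine ⟨ht.2, mem_range.2 ?_⟩
    exact Nat.lt_succ_of_le (Nat.div_le_div_right ht.1.le)
  · simp only [Prod.mk.injEq] at h
    have h1 := (ZMod.natCast_eq_natCast_iff' _ _ _).1 h.1
    rw [← Nat.div_add_mod t q, ← Nat.div_add_mod t' q, h.2, h1]
  · rw [card_product, card_range]
    exact Nat.mul_le_mul_right _ hT

/-- second moment over all characters -/
theorem second {q r : ℕ} [Fact q.Prime] (hr : 1 ≤ r) (A C : Fin r → ZMod q) (c : Fin r → Bool)
    (hA : ∀ l, A l ≠ 0) (hne : ∀ l l', l ≠ l' → A l * C l' ≠ A l' * C l) (b : ℕ → ℂ)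
    (hb : ∀ t, ‖b t‖ ≤ 1) (x : ℕ) :
    ∑ χ : DirichletCharacter ℂ q, ‖∑ t ∈ range x, b t * ∏ l, cj (c l) (χ (A l * (t : ZMod q) + C l))‖ ^ 2 ≤
      r * x * (x + q) := by
  classical
  have hq : q.Prime := Fact.out
  have hNe : NeZero q := ⟨hq.ne_zero⟩
  obtain ⟨u, hu⟩ : ∃ u : ℕ → ZMod q, u = fun t : ℕ => UU A C c (t : ZMod q) := ⟨_, rfl⟩
  have h1 : ∀ χ : DirichletCharacter ℂ q,
      ((‖∑ t ∈ range x, b t * ∏ l, cj (c l) (χ (A l * (t : ZMod q) + C l))‖ ^ 2 : ℝ) : ℂ) =
      ∑ t ∈ range x, ∑ t' ∈ range x, b t * (starRingEnd ℂ) (b t') * (χ (u t')⁻¹ * χ (u t)) := by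
    intro χ
    rw [← Complex.normSq_eq_norm_sq, ← Complex.mul_conj, map_sum, sum_mul_sum]
    refine sum_congr rfl fun t _ => sum_congr rfl fun t' _ => ?_
    rw [UU_chi, UU_chi, map_mul, ← MulChar.inv_apply', ← MulChar.star_apply']
    rw [hu]
    simp only [starRingEnd_apply]
    ring
  have h2 : ((∑ χ : DirichletCharacter ℂ q,
      ‖∑ t ∈ range x, b t * ∏ l, cj (c l) (χ (A l * (t : ZMod q) + C l))‖ ^ 2 : ℝ) : ℂ) =
      ∑ t ∈ range x, ∑ t' ∈ range x, b t * (starRingEnd ℂ) (b t') *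
        ∑ χ : DirichletCharacter ℂ q, (χ (u t')⁻¹ * χ (u t)) := by
    rw [Complex.ofReal_sum, sum_congr rfl fun χ _ => h1 χ, sum_comm]
    refine sum_congr rfl fun t _ => ?_
    rw [sum_comm]
    refine sum_congr rfl fun t' _ => ?_
    rw [mul_sum]
  have h3 : ∀ t t', ‖b t * (starRingEnd ℂ) (b t') *
        ∑ χ : DirichletCharacter ℂ q, (χ (u t')⁻¹ * χ (u t))‖ ≤
        if u t' ≠ 0 ∧ u t = u t' then (q : ℝ) else 0 := by
    intro t t'
    have e0 : ‖b t * (starRingEnd ℂ) (b t')‖ ≤ 1 := by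
      rw [norm_mul, RCLike.norm_conj]
      exact mul_le_one₀ (hb t) (norm_nonneg _) (hb t')
    rw [norm_mul]
    refine (mul_le_of_le_one_left (norm_nonneg _) e0).trans ?_
    by_cases h0 : u t' = 0
    · rw [if_neg (by tauto)]
      rw [sum_eq_zero, norm_zero]
      intro χ _
      rw [h0, inv_zero, MulChar.map_zero, zero_mul]
    · rw [DirichletCharacter.sum_char_inv_mul_char_eq ℂ (isUnit_iff_ne_zero.2 h0)]
      by_cases h1 : u t' = u t
      · rw [if_pos h1, if_pos ⟨h0, h1.symm⟩, Complex.norm_natCast]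
        exact_mod_cast Nat.totient_le q
      · rw [if_neg h1, if_neg (fun h => h1 h.2.symm), norm_zero]
  have h4 : ∑ χ : DirichletCharacter ℂ q,
      ‖∑ t ∈ range x, b t * ∏ l, cj (c l) (χ (A l * (t : ZMod q) + C l))‖ ^ 2 ≤
      ∑ t ∈ range x, ∑ t' ∈ range x, if u t ≠ 0 ∧ u t = u t' then (q : ℝ) else 0 := by
    have e1 : ∑ χ : DirichletCharacter ℂ q,
      ‖∑ t ∈ range x, b t * ∏ l, cj (c l) (χ (A l * (t : ZMod q) + C l))‖ ^ 2 =
      ‖((∑ χ : DirichletCharacter ℂ q,
      ‖∑ t ∈ range x, b t * ∏ l, cj (c l) (χ (A l * (t : ZMod q) + C l))‖ ^ 2 : ℝ) : ℂ)‖ := by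
      rw [Complex.norm_real, Real.norm_of_nonneg (sum_nonneg fun _ _ => by positivity)]
    rw [e1, h2]
    refine (norm_sum_le _ _).trans (sum_le_sum fun t _ => (norm_sum_le _ _).trans
      (sum_le_sum fun t' _ => (h3 t t').trans (le_of_eq ?_)))
    refine if_congr ?_ rfl rfl
    constructor
    · rintro ⟨e2, e3⟩
      exact ⟨e3 ▸ e2, e3⟩
    · rintro ⟨e2, e3⟩
      exact ⟨e3 ▸ e2, e3⟩
  refine h4.trans ?_
  have h5 : ∀ t, ∑ t' ∈ range x, (if u t ≠ 0 ∧ u t = u t' then (q : ℝ) else 0) ≤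
      r * (x + q) := by
    intro t
    by_cases h0 : u t = 0
    · rw [sum_eq_zero fun t' _ => if_neg fun h => h.1 h0]
      positivity
    · have e1 : ∑ t' ∈ range x, (if u t ≠ 0 ∧ u t = u t' then (q : ℝ) else 0) =
          ((range x).filter fun t' : ℕ =>
            (t' : ZMod q) ∈ univ.filter fun y : ZMod q => UU A C c y = u t).card * (q : ℝ) := by
        rw [← nsmul_eq_mul, ← sum_const, sum_filter]
        refine sum_congr rfl fun t' _ => if_congr ?_ rfl rfl
        rw [mem_filter]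
        constructor
        · rintro ⟨_, e2⟩
          refine ⟨mem_univ _, ?_⟩
          rw [e2, hu]
        · rintro ⟨_, e2⟩
          refine ⟨h0, ?_⟩
          rw [← e2, hu]
      have e2 := count_card (univ.filter fun y : ZMod q => UU A C c y = u t)
        (UU_card hr A C c hA hne (u t) h0) x
      have e3 : (((range x).filter fun t' : ℕ =>
            (t' : ZMod q) ∈ univ.filter fun y : ZMod q => UU A C c y = u t).card : ℝ) ≤
            r * ((x / q : ℕ) + 1) := by exact_mod_cast e2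
      rw [e1]
      have e4 : ((x / q : ℕ) : ℝ) * q ≤ x := by exact_mod_cast Nat.div_mul_le_self x q
      calc _ ≤ (r : ℝ) * ((x / q : ℕ) + 1) * q := mul_le_mul_of_nonneg_right e3 (Nat.cast_nonneg _)
        _ = r * ((x / q : ℕ) * q + q) := by ring
        _ ≤ r * (x + q) := by gcongr
  refine (sum_le_sum fun t _ => h5 t).trans (le_of_eq ?_)
  rw [sum_const, card_range, nsmul_eq_mul]
  ring

end Pool.Agent.H18.QT
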