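import Mathlib
import Pool.Agent.H2.EL.FinC
import Pool.Agent.H18.QT.Chr

/-!
# [H18 QT Chf] all but `K (1 + q / N)` Dirichlet characters modulo a prime `q`
-/

set_option autoImplicit false

namespace Pool.Agent.H18.QT

open Finset Pool.H2.EL

/-- a function with a large correlation has one at a cut point -/
lemma cutg {h0 H : ℕ} {δ : ℝ} (hδ : 0 < δ) {R : ℕ} (hR : 4 / δ ≤ R) {N : ℕ} (hN : 4 / δ ≤ N)
    (w : ℕ → ℂ) (hw : ∀ n, ‖w n‖ ≤ 1) (ζ : ℕ → ℂ) (hζ : ∀ n, ‖ζ n‖ ≤ 1)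
    (h : ¬ Unc (fun n => w n * ζ (n + h0)) h0 H N δ) :
    ∃ y : Cf H × Fin (R + 1), y.1.Ok h0 ∧ δ / 2 * N < ‖∑ t ∈ range (N * y.2 / R),
        (∏ l, cj (y.1.2.2.2 l) (w ((y.1.2.1 l : ℕ) * t + (y.1.2.2.1 l : ℕ)))) *
        ∏ l, cj (y.1.2.2.2 l) (ζ ((y.1.2.1 l : ℕ) * t + ((y.1.2.2.1 l : ℕ) + h0)))‖ := by
  have hRpos : (0 : ℝ) < R := lt_of_lt_of_le (by positivity) hR
  have hRpos' : 0 < R := by exact_mod_cast hRpos
  have hNpos : (0 : ℝ) < N := lt_of_lt_of_le (by positivity) hN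
  have hN1 : 1 ≤ N := by exact_mod_cast hNpos
  have hN4 : 1 ≤ δ / 4 * N := by
    rw [div_le_iff₀ hδ] at hN
    linarith
  unfold Unc at h
  push Not at h
  obtain ⟨r, hr, hrH, A, B, c, hA, hB, hne, x, hx, hbig⟩ := h
  obtain ⟨j, hj⟩ : ∃ j : ℕ, j = x * R / N := ⟨_, rfl⟩
  have hjR : j ≤ R := by
    rw [hj]
    refine Nat.div_le_of_le_mul ?_
    exact Nat.mul_le_mul_right _ hx
  refine ⟨⟨⟨⟨r, by omega⟩, fun l => ⟨A l, by have := (hA l).2; omega⟩,
    fun l => ⟨B l, by have := hB l; omega⟩, c⟩, ⟨j, by omega⟩⟩, ⟨hr, fun l => (hA l).1, hne⟩, ?_⟩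
  have hjx : N * j / R ≤ x := by
    refine Nat.div_le_of_le_mul ?_
    rw [hj]
    calc N * (x * R / N) ≤ x * R := Nat.mul_div_le _ _
      _ = R * x := mul_comm _ _
  have hjx2 : (x : ℝ) ≤ (N * j / R : ℕ) + δ / 2 * N := by
    have e1 : (x : ℝ) * R < N * (j + 1) := by
      have : x * R < N * (x * R / N + 1) := by
        have e0 := Nat.lt_div_mul_add (a := x * R) (b := N) (by omega)
        nlinarith
      rw [hj]
      exact_mod_cast this
    have e2 : (N : ℝ) * j < R * ((N * j / R : ℕ) + 1) := by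
      have : N * j < R * (N * j / R + 1) := by
        have e0 := Nat.lt_div_mul_add (a := N * j) (b := R) hRpos'
        nlinarith
      exact_mod_cast this
    have e3 : (N : ℝ) ≤ δ / 4 * N * R := by
      rw [div_le_iff₀ hδ] at hR
      have : (0 : ℝ) ≤ N := Nat.cast_nonneg N
      nlinarith
    have e4 : (x : ℝ) * R ≤ ((N * j / R : ℕ) + δ / 2 * N) * R := by nlinarith
    exact le_of_mul_le_mul_right e4 hRpos
  have hterm : ∀ t : ℕ, ‖∏ l, cj (c l) (w (A l * t + B l) * ζ (A l * t + B l + h0))‖ ≤ 1 := by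
    intro t
    rw [norm_prod]
    refine prod_le_one (fun _ _ => norm_nonneg _) fun l _ => ?_
    rw [cj_norm, norm_mul]
    exact mul_le_one₀ (hw _) (norm_nonneg _) (hζ _)
  have hsplit : ‖∑ t ∈ range x, ∏ l, cj (c l) (w (A l * t + B l) * ζ (A l * t + B l + h0))‖ ≤
      ‖∑ t ∈ range (N * j / R), ∏ l, cj (c l) (w (A l * t + B l) *
        ζ (A l * t + B l + h0))‖ + δ / 2 * N := by
    obtain ⟨s, hs⟩ : ∃ s, x = N * j / R + s := ⟨x - N * j / R, by omega⟩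
    rw [hs, sum_range_add]
    refine (norm_add_le _ _).trans (add_le_add_right ?_ _)
    refine (norm_sum_le _ _).trans ((sum_le_sum fun t _ => hterm _).trans ?_)
    rw [sum_const, card_range, nsmul_eq_mul, mul_one]
    have : (x : ℝ) = (N * j / R : ℕ) + s := by exact_mod_cast hs
    linarith
  have h4 : δ / 2 * N < ‖∑ t ∈ range (N * j / R), ∏ l, cj (c l) (w (A l * t + B l) *
        ζ (A l * t + B l + h0))‖ := by linarith
  refine lt_of_lt_of_le h4 (le_of_eq ?_)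
  congr 1
  refine sum_congr rfl fun t _ => ?_
  rw [← prod_mul_distrib]
  refine prod_congr rfl fun l _ => ?_
  have hcj : ∀ (b : Bool) (z z' : ℂ), cj b (z * z') = cj b z * cj b z' := by
    intro b z z'
    unfold cj
    cases b <;> simp
  rw [hcj, add_assoc]

/-- few characters have a large correlation in one configuration -/
lemma few_one {h0 H : ℕ} {δ : ℝ} (hδ : 0 < δ) {q : ℕ} [Fact q.Prime] (hq : H + H * (H + h0) < q)
    {N : ℕ} (hN : 1 ≤ N) (b : ℕ → ℂ) (hb : ∀ t, ‖b t‖ ≤ 1) (z : Cf H) (hz : z.Ok h0) {x : ℕ}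
    (hx : x ≤ N) (B : Finset (DirichletCharacter ℂ q))
    (hB : ∀ χ ∈ B, δ / 2 * N < ‖∑ t ∈ range x, b t * ∏ l, cj (z.2.2.2 l)
      (χ (((z.2.1 l : ℕ) * t + ((z.2.2.1 l : ℕ) + h0) : ℕ) : ZMod q))‖) :
    (B.card : ℝ) ≤ 4 * H / δ ^ 2 * (1 + q / N) := by
  classical
  have hH : ∀ l, (z.2.1 l : ℕ) ≤ H := fun l => Nat.le_of_lt_succ (z.2.1 l).2
  have hH2 : ∀ l, (z.2.2.1 l : ℕ) ≤ H := fun l => Nat.le_of_lt_succ (z.2.2.1 l).2
  have h1 := second (q := q) hz.1 (fun l => (((z.2.1 l : ℕ)) : ZMod q))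
    (fun l => (((z.2.2.1 l : ℕ) + h0 : ℕ) : ZMod q)) z.2.2.2 (fun l h => by
      have h7 := Nat.le_of_dvd (hz.2.1 l) ((ZMod.natCast_eq_zero_iff _ _).1 h)
      have := hH l
      omega) (fun l l' hl h => by
      have h7 : (((z.2.1 l : ℕ) * ((z.2.2.1 l' : ℕ) + h0) : ℕ) : ZMod q) =
          (((z.2.1 l' : ℕ) * ((z.2.2.1 l : ℕ) + h0) : ℕ) : ZMod q) := by
        rw [Nat.cast_mul, Nat.cast_mul]
        exact h
      rw [ZMod.natCast_eq_natCast_iff'] at h7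
      have h8 : ∀ i i', (z.2.1 i : ℕ) * ((z.2.2.1 i' : ℕ) + h0) < q := fun i i' => by
        refine lt_of_le_of_lt (Nat.mul_le_mul (hH i) (Nat.add_le_add_right (hH2 i') h0)) ?_
        omega
      rw [Nat.mod_eq_of_lt (h8 _ _), Nat.mod_eq_of_lt (h8 _ _)] at h7
      exact hz.2.2 l l' hl h7) b hb x
  have hN0 : (0 : ℝ) < N := by exact_mod_cast hN
  have hsum : (B.card : ℝ) * (δ / 2 * N) ^ 2 ≤ H * N * (N + q) := by
    calc (B.card : ℝ) * (δ / 2 * N) ^ 2 = ∑ _χ ∈ B, (δ / 2 * N) ^ 2 := by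
          rw [sum_const, nsmul_eq_mul]
      _ ≤ ∑ χ ∈ B, ‖∑ t ∈ range x, b t * ∏ l, cj (z.2.2.2 l)
          (χ (((z.2.1 l : ℕ) : ZMod q) * (t : ZMod q) + (((z.2.2.1 l : ℕ) + h0 : ℕ) : ZMod q)))‖ ^ 2 := by
          refine sum_le_sum fun χ hχ => ?_
          have h2 := (hB χ hχ).le
          refine pow_le_pow_left₀ (by positivity) (h2.trans (le_of_eq ?_)) 2
          congr 1
          refine sum_congr rfl fun t _ => ?_
          congr 1
          refine prod_congr rfl fun l _ => ?_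
          push_cast
          rfl
      _ ≤ ∑ χ : DirichletCharacter ℂ q, ‖∑ t ∈ range x, b t * ∏ l, cj (z.2.2.2 l)
          (χ (((z.2.1 l : ℕ) : ZMod q) * (t : ZMod q) + (((z.2.2.1 l : ℕ) + h0 : ℕ) : ZMod q)))‖ ^ 2 :=
          sum_le_sum_of_subset_of_nonneg (subset_univ _) fun _ _ _ => by positivity
      _ ≤ (z.1 : ℕ) * x * (x + q) := h1
      _ ≤ H * N * (N + q) := by
          have e1 : ((z.1 : ℕ) : ℝ) ≤ H := by exact_mod_cast Nat.le_of_lt_succ z.1.2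
          have e2 : (x : ℝ) ≤ N := by exact_mod_cast hx
          gcongr
  have h9 : (B.card : ℝ) ≤ H * N * (N + q) / (δ / 2 * N) ^ 2 := by
    rw [le_div_iff₀ (by positivity)]
    exact hsum
  refine h9.trans (le_of_eq ?_)
  field_simp
  ring

/-- few characters are exceptional -/
theorem few_chars (h0 H : ℕ) {δ : ℝ} (hδ : 0 < δ) :
    ∃ K : ℕ, ∀ q : ℕ, ∀ _ : Fact q.Prime, ∀ N : ℕ, 1 ≤ N → ∀ w : ℕ → ℂ, (∀ n, ‖w n‖ ≤ 1) →
      ∃ E : Finset (DirichletCharacter ℂ q), (E.card : ℝ) ≤ K * (1 + q / N) ∧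
      ∀ χ, χ ∉ E → Unc (fun n => w n * χ ((n + h0 : ℕ) : ZMod q)) h0 H N δ := by
  classical
  obtain ⟨R, hR⟩ := exists_nat_ge (4 / δ)
  obtain ⟨K1, hK1⟩ := exists_nat_ge (Fintype.card (Cf H × Fin (R + 1)) * (4 * H / δ ^ 2))
  refine ⟨K1 + (H + H * (H + h0)) + R, fun q hq N hN w hw => ?_⟩
  have hN0 : (0 : ℝ) < N := by exact_mod_cast hN
  have hNe : NeZero q := ⟨hq.out.ne_zero⟩
  have hcard : ((univ : Finset (DirichletCharacter ℂ q)).card : ℝ) ≤ q := by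
    rw [card_univ, ← Nat.card_eq_fintype_card,
      DirichletCharacter.card_eq_totient_of_hasEnoughRootsOfUnity ℂ q]
    exact_mod_cast Nat.totient_le q
  have hqN : (0 : ℝ) ≤ q / N := by positivity
  by_cases h1 : q ≤ H + H * (H + h0)
  · refine ⟨univ, hcard.trans ?_, fun χ h => absurd (mem_univ χ) h⟩
    have e1 : (q : ℝ) ≤ (H + H * (H + h0) : ℕ) := by exact_mod_cast h1
    push_cast at e1 ⊢
    have e2 : (0 : ℝ) ≤ K1 := Nat.cast_nonneg _
    have e3 : (0 : ℝ) ≤ R := Nat.cast_nonneg _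
    have e4 : (0 : ℝ) ≤ (H : ℝ) + H * (H + h0) := by positivity
    nlinarith
  by_cases h2 : N < R
  · refine ⟨univ, hcard.trans ?_, fun χ h => absurd (mem_univ χ) h⟩
    have e1 : (N : ℝ) ≤ R := by exact_mod_cast h2.le
    have e2 : (q : ℝ) = N * (q / N) := by field_simp
    have e3 : (q : ℝ) ≤ R * (q / N) := by
      calc (q : ℝ) = N * (q / N) := e2
        _ ≤ R * (q / N) := mul_le_mul_of_nonneg_right e1 hqN
    push_cast
    have e4 : (0 : ℝ) ≤ (K1 : ℝ) + (H + H * (H + h0)) := by positivity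
    have e5 : (0 : ℝ) ≤ R := Nat.cast_nonneg _
    nlinarith
  push Not at h1 h2
  have hN4 : 4 / δ ≤ N := hR.trans (by exact_mod_cast h2)
  obtain ⟨Bd, hBd⟩ : ∃ Bd : Cf H × Fin (R + 1) → Finset (DirichletCharacter ℂ q),
      Bd = fun y : Cf H × Fin (R + 1) => univ.filter fun χ : DirichletCharacter ℂ q => y.1.Ok h0 ∧ δ / 2 * N < ‖∑ t ∈ range (N * y.2 / R),
        (∏ l, cj (y.1.2.2.2 l) (w ((y.1.2.1 l : ℕ) * t + (y.1.2.2.1 l : ℕ)))) *
        ∏ l, cj (y.1.2.2.2 l)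
          (χ (((y.1.2.1 l : ℕ) * t + ((y.1.2.2.1 l : ℕ) + h0) : ℕ) : ZMod q))‖ := ⟨_, rfl⟩
  have hBc : ∀ y, ((Bd y).card : ℝ) ≤ 4 * H / δ ^ 2 * (1 + q / N) := by
    intro y
    by_cases hy : y.1.Ok h0
    · refine few_one hδ h1 hN (fun t => ∏ l, cj (y.1.2.2.2 l)
        (w ((y.1.2.1 l : ℕ) * t + (y.1.2.2.1 l : ℕ)))) (fun t => ?_) y.1 hy
        (x := N * y.2 / R) ?_ _ fun χ hχ => ?_
      · rw [norm_prod]
        refine prod_le_one (fun _ _ => norm_nonneg _) fun l _ => ?_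
        rw [cj_norm]
        exact hw _
      · refine Nat.div_le_of_le_mul ?_
        rw [mul_comm]
        exact Nat.mul_le_mul_right _ (Nat.le_of_lt_succ y.2.2)
      · rw [hBd] at hχ
        exact (mem_filter.1 hχ).2.2
    · have : Bd y = ∅ := by
        rw [hBd]
        refine filter_eq_empty_iff.2 fun χ _ h => hy h.1
      rw [this, card_empty, Nat.cast_zero]
      positivity
  refine ⟨univ.biUnion Bd, ?_, fun χ hχ => ?_⟩
  · calc ((univ.biUnion Bd).card : ℝ) ≤ ∑ y, ((Bd y).card : ℝ) := by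
          exact_mod_cast card_biUnion_le
      _ ≤ ∑ _y : Cf H × Fin (R + 1), 4 * H / δ ^ 2 * (1 + (q : ℝ) / N) := sum_le_sum fun y _ => hBc y
      _ = Fintype.card (Cf H × Fin (R + 1)) * (4 * H / δ ^ 2) * (1 + q / N) := by
          rw [sum_const, card_univ, nsmul_eq_mul]
          ring
      _ ≤ K1 * (1 + q / N) := mul_le_mul_of_nonneg_right hK1 (by positivity)
      _ ≤ ((K1 + (H + H * (H + h0)) + R : ℕ) : ℝ) * (1 + q / N) := by
          refine mul_le_mul_of_nonneg_right ?_ (by positivity)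
          exact_mod_cast (by omega : K1 ≤ K1 + (H + H * (H + h0)) + R)
  · by_contra hcon
    obtain ⟨y, hy1, hy2⟩ := cutg hδ hR hN4 w hw (fun n => χ (n : ZMod q))
      (fun n => DirichletCharacter.norm_le_one χ _) hcon
    refine hχ (mem_biUnion.2 ⟨y, mem_univ _, ?_⟩)
    rw [hBd]
    exact mem_filter.2 ⟨mem_univ _, hy1, hy2⟩

theorem chars (k : ℕ) (h : Fin k → ℤ) (j : Fin k) (hne : ∀ i, i ≠ j → h i ≠ h j) {ε : ℝ}
    (hε : 0 < ε) :
    ∃ K : ℕ, ∀ q : ℕ, q.Prime → ∀ N : ℕ, 1 ≤ N → ∀ S : Finset (Fin k), j ∉ S →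
      ∀ d : Fin k → ArithmeticFunction ℂ, (∀ i n, ‖d i n‖ ≤ 1) →
      ∃ E : Finset (DirichletCharacter ℂ q), (E.card : ℝ) ≤ K * (1 + q / N) ∧ ∀ χ, χ ∉ E →
      ∀ G : Fin k → ArithmeticFunction ℂ, (∀ i n, ‖G i n‖ ≤ 1) →
      (∀ i ∈ S, (G i).IsMultiplicative) → (∀ i, i ∉ S → i ≠ j → G i = d i) →
      (∀ n : ℕ, G j n = d j n * χ (n : ZMod q)) →
      ‖(1 / (N : ℂ)) * ∑ n ∈ Icc 1 N, ∏ i, G i ((n : ℤ) + h i).toNat‖ ≤ ε := by
  classical
  rcases k with _ | k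
  · exact j.elim0
  obtain ⟨H, δ, N0, s, hδ, hs, hfin⟩ := fin_core k h j hne ε hε
  obtain ⟨K, hK⟩ := few_chars (h j + s).toNat H hδ
  refine ⟨K + N0, fun q hq N hN S hjS d hd => ?_⟩
  have hqf : Fact q.Prime := ⟨hq⟩
  have hNe : NeZero q := ⟨hq.ne_zero⟩
  have hNp : (0 : ℝ) < N := by exact_mod_cast hN
  have hqN : (0 : ℝ) ≤ q / N := by positivity
  by_cases hN0 : N < N0
  · refine ⟨univ, ?_, fun χ h => absurd (mem_univ χ) h⟩
    have hcard : ((univ : Finset (DirichletCharacter ℂ q)).card : ℝ) ≤ q := by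
      rw [card_univ, ← Nat.card_eq_fintype_card,
        DirichletCharacter.card_eq_totient_of_hasEnoughRootsOfUnity ℂ q]
      exact_mod_cast Nat.totient_le q
    refine hcard.trans ?_
    have e1 : (N : ℝ) ≤ N0 := by exact_mod_cast hN0.le
    have e3 : (q : ℝ) ≤ N0 * (q / N) := by
      calc (q : ℝ) = N * (q / N) := by field_simp
        _ ≤ N0 * (q / N) := mul_le_mul_of_nonneg_right e1 hqN
    push_cast
    have e4 : (0 : ℝ) ≤ K := Nat.cast_nonneg _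
    have e5 : (0 : ℝ) ≤ N0 := Nat.cast_nonneg _
    nlinarith
  push Not at hN0
  obtain ⟨w, hw⟩ : ∃ w : ℕ → ℂ, w = fun n => ∏ x ∈ univ \ S, d x (n + (h x + s).toNat) := ⟨_, rfl⟩
  obtain ⟨E, hE, hE2⟩ := hK q hqf N hN w (fun n => by
    rw [hw]
    simp only
    rw [norm_prod]
    exact prod_le_one (fun _ _ => norm_nonneg _) fun x _ => hd x _)
  refine ⟨E, hE.trans ?_, fun χ hχ G hG hGS hGd hGj => ?_⟩
  · refine mul_le_mul_of_nonneg_right ?_ (by positivity)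
    exact_mod_cast Nat.le_add_right K N0
  · refine hfin N hN0 G S hjS hG hGS ?_
    have h1 : (fun n => ∏ x ∈ univ \ S, G x (n + (h x + s).toNat)) =
        fun n => w n * χ ((n + (h j + s).toNat : ℕ) : ZMod q) := by
      funext n
      have hjm : j ∈ univ \ S := by
        rw [mem_sdiff]
        exact ⟨mem_univ _, hjS⟩
      rw [hw]
      simp only
      rw [← mul_prod_erase _ _ hjm, ← mul_prod_erase _ (fun x => d x (n + (h x + s).toNat)) hjm,
        hGj]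
      have h2 : ∏ x ∈ (univ \ S).erase j, G x (n + (h x + s).toNat) =
          ∏ x ∈ (univ \ S).erase j, d x (n + (h x + s).toNat) := by
        refine prod_congr rfl fun x hx => ?_
        rw [mem_erase, mem_sdiff] at hx
        rw [hGd x hx.2.2 hx.1]
      rw [h2]
      ring
    rw [h1]
    exact hE2 χ hχ

end Pool.Agent.H18.QT
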