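import Mathlib

/-!
# [H18 QT Den] from all scales to fixed elements of the family: density of the bad scales
-/

set_option autoImplicit false

namespace Pool.Agent.H18.QT

open Finset

open Classical in
/-- If at every scale `N` at most `K` of the elements `z` with `size z ≤ N` are bad, then all but `K / η` elements
`z` have, for arbitrarily large `X`, at most `η X` bad scales `N ≤ X`. -/
theorem density {ι : Type*} (size : ι → ℕ) (bad : ℕ → ι → Prop) (K : ℕ)
    (h : ∀ N : ℕ, ∃ E : Finset ι, E.card ≤ K ∧ ∀ z, size z ≤ N → z ∉ E → ¬ bad N z) {η : ℝ}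
    (hη : 0 < η) :
    ∃ E : Finset ι, (E.card : ℝ) ≤ K / η ∧ ∀ z, z ∉ E → ∀ X₀ : ℕ, ∃ X : ℕ, X₀ ≤ X ∧
      (((Icc 1 X).filter fun N => bad N z).card : ℝ) ≤ η * X := by
  obtain ⟨B, hB⟩ : ∃ B : Set ι, B = {z | ∃ X₀ : ℕ, ∀ X : ℕ, X₀ ≤ X →
      η * X < (((Icc 1 X).filter fun N => bad N z).card : ℝ)} := ⟨_, rfl⟩
  -- finite subsets are small
  have hfin : ∀ F : Finset ι, (↑F : Set ι) ⊆ B → (F.card : ℝ) ≤ K / η := by
    intro F hF
    rw [le_div_iff₀ hη]
    by_contra hcon
    push Not at hcon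
    have h1 : ∀ z ∈ F, ∃ X₀ : ℕ, ∀ X : ℕ, X₀ ≤ X →
        η * X < (((Icc 1 X).filter fun N => bad N z).card : ℝ) := by
      intro z hz
      have := hF hz
      rw [hB] at this
      exact this
    choose! X₀ hX₀ using h1
    obtain ⟨Q, hQ⟩ : ∃ Q : ℕ, Q = ∑ z ∈ F, size z := ⟨_, rfl⟩
    have hQz : ∀ z ∈ F, size z ≤ Q := fun z hz => by
      rw [hQ]
      exact single_le_sum (f := size) (fun _ _ => Nat.zero_le _) hz
    obtain ⟨T, hT⟩ := exists_nat_gt (F.card * Q / (F.card * η - K))
    obtain ⟨X, hX⟩ : ∃ X : ℕ, X = T + ∑ z ∈ F, X₀ z + 1 := ⟨_, rfl⟩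
    have hXz : ∀ z ∈ F, X₀ z ≤ X := fun z hz => by
      have := single_le_sum (f := X₀) (fun _ _ => Nat.zero_le _) hz
      omega
    -- lower bound
    have h2 : F.card * (η * X) ≤ ∑ z ∈ F, (((Icc 1 X).filter fun N => bad N z).card : ℝ) := by
      rw [← nsmul_eq_mul, ← sum_const]
      exact sum_le_sum fun z hz => (hX₀ z hz X (hXz z hz)).le
    -- upper bound
    have h3 : ∑ z ∈ F, ((Icc 1 X).filter fun N => bad N z).card ≤ K * X + F.card * Q := by
      have e1 : ∀ z ∈ F, ((Icc 1 X).filter fun N => bad N z).card ≤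
          ((Icc 1 X).filter fun N => Q ≤ N ∧ bad N z).card + Q := by
        intro z _
        have e2 : (Icc 1 X).filter (fun N => bad N z) ⊆
            ((Icc 1 X).filter fun N => Q ≤ N ∧ bad N z) ∪ range Q := by
          intro N hN
          rw [mem_filter] at hN
          rw [mem_union, mem_filter, mem_range]
          rcases lt_or_ge N Q with h | h
          · exact Or.inr h
          · exact Or.inl ⟨hN.1, h, hN.2⟩
        refine (card_le_card e2).trans ((card_union_le _ _).trans ?_)
        rw [card_range]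
      refine (sum_le_sum e1).trans ?_
      rw [sum_add_distrib, sum_const, smul_eq_mul]
      refine Nat.add_le_add_right ?_ _
      have e3 : ∑ z ∈ F, ((Icc 1 X).filter fun N => Q ≤ N ∧ bad N z).card =
          ∑ N ∈ Icc 1 X, (F.filter fun z => Q ≤ N ∧ bad N z).card := by
        simp only [card_filter]
        exact sum_comm
      rw [e3]
      calc ∑ N ∈ Icc 1 X, (F.filter fun z => Q ≤ N ∧ bad N z).card ≤ ∑ _N ∈ Icc 1 X, K := by
            refine sum_le_sum fun N _ => ?_
            obtain ⟨E, hE, hE2⟩ := h N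
            refine (card_le_card fun z hz => ?_).trans hE
            rw [mem_filter] at hz
            by_contra hzE
            exact hE2 z ((hQz z hz.1).trans hz.2.1) hzE hz.2.2
        _ = K * X := by
            rw [sum_const, Nat.card_Icc, smul_eq_mul, Nat.add_sub_cancel, mul_comm]
    have h4 : (F.card : ℝ) * (η * X) ≤ K * X + F.card * Q := by
      refine h2.trans ?_
      exact_mod_cast h3
    have h5 : (0 : ℝ) < F.card * η - K := by linarith
    rw [div_lt_iff₀ h5] at hT
    have h6 : (T : ℝ) ≤ X := by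
      rw [hX]
      push_cast
      have : (0 : ℝ) ≤ ∑ z ∈ F, (X₀ z : ℝ) := sum_nonneg fun _ _ => Nat.cast_nonneg _
      linarith
    have h7 : (T : ℝ) * (F.card * η - K) ≤ X * (F.card * η - K) :=
      mul_le_mul_of_nonneg_right h6 h5.le
    nlinarith
  have hBf : B.Finite := by
    by_contra hinf
    obtain ⟨F, hF, hFc⟩ := Set.Infinite.exists_subset_card_eq hinf (⌊(K : ℝ) / η⌋₊ + 1)
    have h1 := hfin F hF
    rw [hFc] at h1
    push_cast at h1
    have := Nat.lt_floor_add_one ((K : ℝ) / η)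
    linarith
  refine ⟨hBf.toFinset, hfin _ (by rw [Set.Finite.coe_toFinset]), fun z hz X₀ => ?_⟩
  rw [Set.Finite.mem_toFinset, hB, Set.mem_setOf_eq] at hz
  push Not at hz
  exact hz X₀

end Pool.Agent.H18.QT
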