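import Mathlib
import Pool.Agent.H2.EL.FinC
import Pool.Agent.H18.QT.Pig

/-!
# [H18 QT Fin] quadratic twists: the unweighted Elliott bound with all cofactors

`fixed`: a quadratic character of a large prime modulus times a periodic function.
`twists`: all but `K` quadratic characters of odd conductor `q`, `P q² ≤ N`, times any bounded function.
-/

set_option autoImplicit false

open Finset

namespace Pool.Agent.H18.QT

open Pool.H2.EL

theorem fixed (k : ℕ) (h : Fin k → ℤ) (j : Fin k) (hne : ∀ i, i ≠ j → h i ≠ h j) {ε : ℝ}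
    (hε : 0 < ε) :
    ∃ P : ℕ, ∀ p : ℕ, p.Prime → P ≤ p → ∀ m : ℕ, 0 < m → ¬ p ∣ m → ∀ N : ℕ, P * m * p ≤ N →
      ∀ w : ℕ → ℂ, (∀ n, w (n + m) = w n) → (∀ n, ‖w n‖ ≤ 1) →
      ∀ G : Fin k → ArithmeticFunction ℂ, (∀ i n, ‖G i n‖ ≤ 1) →
      (∀ i, i ≠ j → (G i).IsMultiplicative) → (∀ n, 0 < n → G j n = jc p n * w n) →
      ‖(1 / (N : ℂ)) * ∑ n ∈ Icc 1 N, ∏ i, G i ((n : ℤ) + h i).toNat‖ ≤ ε := by
  classical
  rcases k with _ | k
  · exact j.elim0
  obtain ⟨H, δ, N0, s, hδ, hs, hfin⟩ := fin_core k h j hne ε hε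
  obtain ⟨P, hP⟩ := unc_one (h j + s).toNat H δ hδ
  refine ⟨P + N0, fun p hp hPp m hm hmp N hN w hw hwb G hG hGm hGj => ?_⟩
  have hmp1 : 1 ≤ m * p := Nat.mul_pos hm hp.pos
  have hN1 : (P + N0) * (m * p) ≤ N := by rw [← mul_assoc]; exact hN
  have hN0 : N0 ≤ N := by nlinarith
  have hNP : P * m * p ≤ N := by
    rw [mul_assoc]
    exact le_trans (Nat.mul_le_mul_right _ (Nat.le_add_right _ _)) hN1
  refine hfin N hN0 G (univ.erase j) (by simp) hG (fun i hi => hGm i (ne_of_mem_erase hi)) ?_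
  have h1 : (univ \ univ.erase j : Finset (Fin (k + 1))) = {j} := by
    ext i
    simp
  rw [h1]
  simp only [prod_singleton]
  have h2 : (fun n => G j (n + (h j + s).toNat)) =
      fun n => jc p (n + (h j + s).toNat) * w (n + (h j + s).toNat) := by
    funext n
    refine hGj _ ?_
    have := hs j
    omega
  rw [h2]
  exact hP p hp (by omega) m hm hmp N hNP w hw hwb

theorem twists (k : ℕ) (h : Fin k → ℤ) (j : Fin k) (hne : ∀ i, i ≠ j → h i ≠ h j) {ε : ℝ}
    (hε : 0 < ε) :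
    ∃ K P : ℕ, ∀ N : ℕ, ∀ S : Finset (Fin k), j ∉ S →
      ∀ d : Fin k → ArithmeticFunction ℂ, (∀ i n, ‖d i n‖ ≤ 1) →
      ∃ E : Finset ℕ, E.card ≤ K ∧ ∀ q : ℕ, Odd q → Squarefree q → P * q ^ 2 ≤ N → q ∉ E →
      ∀ G : Fin k → ArithmeticFunction ℂ, (∀ i n, ‖G i n‖ ≤ 1) →
      (∀ i ∈ S, (G i).IsMultiplicative) → (∀ i, i ∉ S → i ≠ j → G i = d i) →
      (∀ n, G j n = d j n * jc q n) →
      ‖(1 / (N : ℂ)) * ∑ n ∈ Icc 1 N, ∏ i, G i ((n : ℤ) + h i).toNat‖ ≤ ε := by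
  classical
  rcases k with _ | k
  · exact j.elim0
  obtain ⟨H, δ, N0, s, hδ, hs, hfin⟩ := fin_core k h j hne ε hε
  obtain ⟨K, P, hP⟩ := pig (h j + s).toNat H hδ
  refine ⟨K, P + N0 + 1, fun N S hjS d hd => ?_⟩
  obtain ⟨w, hw⟩ : ∃ w : ℕ → ℂ, w = fun n => ∏ x ∈ univ \ S, d x (n + (h x + s).toNat) := ⟨_, rfl⟩
  refine ⟨(range (N + 1)).filter fun q => Odd q ∧ Squarefree q ∧ P * q ^ 2 ≤ N ∧
    ¬ Unc (fun n => w n * jc q (n + (h j + s).toNat)) (h j + s).toNat H N δ,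
    hP N w (fun n => ?_) _ (fun q hq => (mem_filter.1 hq).2), ?_⟩
  · rw [hw]
    simp only
    rw [norm_prod]
    exact prod_le_one (fun _ _ => norm_nonneg _) fun x _ => hd x _
  · intro q hodd hsq hPq hq G hG hGS hGd hGj
    have hq1 : 1 ≤ q := hodd.pos
    have hq2 : q ≤ q ^ 2 := by nlinarith
    have hNq : (P + N0 + 1) * q ^ 2 ≤ N := hPq
    have hN0 : N0 ≤ N := by nlinarith
    have hPN : P * q ^ 2 ≤ N := by nlinarith
    have hqN : q < N + 1 := by nlinarith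
    have hunc : Unc (fun n => w n * jc q (n + (h j + s).toNat)) (h j + s).toNat H N δ := by
      by_contra hcon
      exact hq (mem_filter.2 ⟨mem_range.2 hqN, hodd, hsq, hPN, hcon⟩)
    refine hfin N hN0 G S hjS hG hGS ?_
    have h1 : (fun n => ∏ x ∈ univ \ S, G x (n + (h x + s).toNat)) =
        fun n => w n * jc q (n + (h j + s).toNat) := by
      funext n
      have hjm : j ∈ univ \ S := by
        rw [mem_sdiff]
        exact ⟨mem_univ _, hjS⟩
      rw [hw]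
      simp only
      rw [← mul_prod_erase _ _ hjm, ← mul_prod_erase _ (fun x => d x (n + (h x + s).toNat)) hjm,
        hGj]
      have h2 : ∏ x ∈ (univ \ S).erase j, G x (n + (h x + s).toNat) =
          ∏ x ∈ (univ \ S).erase j, d x (n + (h x + s).toNat) := by
        refine prod_congr rfl fun x hx => ?_
        rw [mem_erase, mem_sdiff] at hx
        rw [hGd x hx.2.2 hx.1]
      rw [h2]
      ring
    rw [h1]
    exact hunc

end Pool.Agent.H18.QT
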