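import Mathlib

/-!
# [H18 QT Wd] words in which no letter occurs exactly once (general form of a lemma of helper35)
-/

set_option autoImplicit false

namespace Pool.Agent.H18.QT

open Finset

theorem words (k M : ℕ) (hk : 0 < k) {W : Type} [Fintype W] [DecidableEq W]
    (hW : Fintype.card W = 2 * k) :
    ((univ : Finset (W → Fin M)).filter fun ν => ∀ n, (univ.filter fun i => ν i = n).card ≠ 1).card ≤
      k ^ (2 * k) * M ^ k := by
  classical
  obtain ⟨w0⟩ : Nonempty W := Fintype.card_pos_iff.1 (by omega)
  have h1 : ((univ : Finset (W → Fin M)).filter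
      fun ν => ∀ n, (univ.filter fun i => ν i = n).card ≠ 1) ⊆
      (univ : Finset ((Fin k → Fin M) × (W → Fin k))).image fun q => q.1 ∘ q.2 := by
    intro ν hν
    rw [mem_filter] at hν
    have hev := hν.2
    obtain ⟨I, hI⟩ : ∃ I : Finset (Fin M), I = univ.image ν := ⟨_, rfl⟩
    have hmem : ∀ i, ν i ∈ I := fun i => by rw [hI]; exact mem_image_of_mem _ (mem_univ _)
    have hIk : I.card ≤ k := by
      have e1 : (univ : Finset W).card = ∑ n ∈ I, (univ.filter fun i => ν i = n).card :=
        card_eq_sum_card_fiberwise fun i _ => hmem i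
      have e2 : ∑ n ∈ I, 2 ≤ ∑ n ∈ I, (univ.filter fun i => ν i = n).card := by
        refine sum_le_sum fun n hn => ?_
        rw [hI, mem_image] at hn
        obtain ⟨i, _, hi⟩ := hn
        have e3 : 0 < (univ.filter fun i => ν i = n).card :=
          card_pos.2 ⟨i, mem_filter.2 ⟨mem_univ _, hi⟩⟩
        have hm := hev n
        omega
      rw [sum_const, smul_eq_mul, ← e1, card_univ, hW] at e2
      omega
    obtain ⟨e⟩ : Nonempty (I ≃ Fin I.card) := ⟨I.equivFin⟩
    rw [mem_image]
    refine ⟨(fun j => if h : (j : ℕ) < I.card then ((e.symm ⟨j, h⟩ : I) : Fin M) else ν w0,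
      fun i => Fin.castLE hIk (e ⟨ν i, hmem i⟩)), mem_univ _, ?_⟩
    funext i
    simp
  refine (card_le_card h1).trans (card_image_le.trans ?_)
  rw [card_univ, Fintype.card_prod]
  simp only [Fintype.card_fun, Fintype.card_fin, hW]
  rw [mul_comm]

end Pool.Agent.H18.QT
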