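import Mathlib
import Pool.Agent.H2.EL.Def
import Pool.Agent.H18.QT.Wd

/-!
# [H18 QT Gen] incomplete sums of a character of a product of forms: high moments of short shifts

`WB χ R B`: complete sums of products of at most `R` factors `χ(s - ρ j)` or their conjugates are at most `B` as soon
as some root `ρ j0` occurs exactly once. `moment`, `short`: sums over intervals.
-/

set_option autoImplicit false

namespace Pool.Agent.H18.QT

open Finset Pool.H2.EL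

/-- complete sums with a simple root are small -/
def WB {p : ℕ} [Fact p.Prime] (χ : DirichletCharacter ℂ p) (R : ℕ) (B : ℝ) : Prop :=
  ∀ (ι : Type) [Fintype ι] (ρ : ι → ZMod p) (c : ι → Bool), Fintype.card ι ≤ R →
    (∃ j0, ∀ j, ρ j = ρ j0 → j = j0) → ‖∑ s : ZMod p, ∏ j, cj (c j) (χ (s - ρ j))‖ ≤ B

lemma cj_mul' (b : Bool) (z z' : ℂ) : cj b (z * z') = cj b z * cj b z' := by
  unfold cj
  cases b <;> simp

lemma cj_prod {ι : Type} (s : Finset ι) (b : Bool) (f : ι → ℂ) :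
    cj b (∏ i ∈ s, f i) = ∏ i ∈ s, cj b (f i) := by
  unfold cj
  cases b <;> simp

lemma cj_sum {ι : Type} (s : Finset ι) (b : Bool) (f : ι → ℂ) :
    cj b (∑ i ∈ s, f i) = ∑ i ∈ s, cj b (f i) := by
  unfold cj
  cases b <;> simp

lemma cj_cj (b b' : Bool) (z : ℂ) : cj b (cj b' z) = cj (b == b') z := by
  unfold cj
  cases b <;> cases b' <;> simp

/-- product of the forms -/
noncomputable def gg {p r : ℕ} (χ : DirichletCharacter ℂ p) (c : Fin r → Bool) (α γ : Fin r → ZMod p)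
    (y : ZMod p) : ℂ := ∏ l, cj (c l) (χ (α l * y + γ l))

lemma gg_norm {p r : ℕ} (χ : DirichletCharacter ℂ p) (c : Fin r → Bool) (α γ : Fin r → ZMod p)
    (y : ZMod p) : ‖gg χ c α γ y‖ ≤ 1 := by
  unfold gg
  rw [norm_prod]
  refine prod_le_one (fun _ _ => norm_nonneg _) fun l _ => ?_
  rw [cj_norm]
  exact DirichletCharacter.norm_le_one χ _

/-- one word -/
lemma word {p : ℕ} [Fact p.Prime] {χ : DirichletCharacter ℂ p} {r k M R : ℕ} {B : ℝ}
    (hW : WB χ R B) (hR : 2 * k * r ≤ R)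
    (c : Fin r → Bool) (α γ : Fin r → ZMod p) (hα : ∀ l, α l ≠ 0) (U : ℕ)
    (hinj : ∀ (l l' : Fin r) (n n' : Fin M), -γ l / α l - (U : ZMod p) * ((n : ℕ) : ZMod p) =
      -γ l' / α l' - (U : ZMod p) * ((n' : ℕ) : ZMod p) → l = l' ∧ n = n') (hr : 1 ≤ r)
    (ν : Fin k × Bool → Fin M) (n : Fin M) (hn : (univ.filter fun i => ν i = n).card = 1) :
    ‖∑ s : ZMod p, ∏ z, cj z.2 (gg χ c α γ (s + U * ((ν z : ℕ) : ZMod p)))‖ ≤ B := by
  classical
  obtain ⟨z0, hz0⟩ := card_eq_one.1 hn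
  have hz1 : ∀ z, ν z = n ↔ z = z0 := fun z => by
    have : z ∈ (univ.filter fun i => ν i = n) ↔ z ∈ ({z0} : Finset _) := by rw [hz0]
    rw [mem_filter, mem_singleton] at this
    exact ⟨fun h => this.1 ⟨mem_univ _, h⟩, fun h => (this.2 h).2⟩
  have h1 : (∑ s : ZMod p, ∏ z, cj z.2 (gg χ c α γ (s + U * ((ν z : ℕ) : ZMod p)))) =
      (∏ z : Fin k × Bool, ∏ l, cj z.2 (cj (c l) (χ (α l)))) *
        ∑ s : ZMod p, ∏ y : (Fin k × Bool) × Fin r, cj (y.1.2 == c y.2) (χ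
          (s - (-γ y.2 / α y.2 - (U : ZMod p) * ((ν y.1 : ℕ) : ZMod p)))) := by
    rw [mul_sum]
    refine sum_congr rfl fun s _ => ?_
    rw [Fintype.prod_prod_type (α₁ := Fin k × Bool), ← prod_mul_distrib]
    refine prod_congr rfl fun z _ => ?_
    unfold gg
    rw [cj_prod, ← prod_mul_distrib]
    refine prod_congr rfl fun l _ => ?_
    rw [← cj_cj, ← cj_mul', ← cj_mul', ← map_mul]
    congr 3
    have := hα l
    field_simp
    ring
  rw [h1, norm_mul]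
  have h2 := hW ((Fin k × Bool) × Fin r) (fun y => -γ y.2 / α y.2 - (U : ZMod p) * ((ν y.1 : ℕ) : ZMod p))
    (fun y => y.1.2 == c y.2) (by
      rw [Fintype.card_prod, Fintype.card_prod, Fintype.card_fin, Fintype.card_fin, Fintype.card_bool]
      rw [mul_comm k 2]
      exact hR) ⟨(z0, ⟨0, hr⟩), fun y hy => by
        obtain ⟨e1, e2⟩ := hinj _ _ _ _ hy
        refine Prod.ext ?_ e1
        have e3 : ν z0 = n := (hz1 z0).2 rfl
        exact (hz1 y.1).1 (by rw [e2]; exact e3)⟩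
  refine le_trans (mul_le_of_le_one_left (norm_nonneg _) ?_) h2
  rw [norm_prod]
  refine prod_le_one (fun _ _ => norm_nonneg _) fun z _ => ?_
  rw [norm_prod]
  refine prod_le_one (fun _ _ => norm_nonneg _) fun l _ => ?_
  rw [cj_norm, cj_norm]
  exact DirichletCharacter.norm_le_one χ _

/-- the high moment -/
theorem moment {p : ℕ} [Fact p.Prime] {χ : DirichletCharacter ℂ p} {r k M R : ℕ} {B : ℝ}
    (hk : 0 < k) (hW : WB χ R B) (hB : 0 ≤ B) (hR : 2 * k * r ≤ R) (hr : 1 ≤ r)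
    (c : Fin r → Bool) (α γ : Fin r → ZMod p) (hα : ∀ l, α l ≠ 0) (U : ℕ)
    (hinj : ∀ (l l' : Fin r) (n n' : Fin M), -γ l / α l - (U : ZMod p) * ((n : ℕ) : ZMod p) =
      -γ l' / α l' - (U : ZMod p) * ((n' : ℕ) : ZMod p) → l = l' ∧ n = n') :
    ∑ s : ZMod p, ‖∑ n : Fin M, gg χ c α γ (s + U * ((n : ℕ) : ZMod p))‖ ^ (2 * k) ≤
      k ^ (2 * k) * M ^ k * p + M ^ (2 * k) * B := by
  classical
  have hnorm : ∀ z : ℂ, ((‖z‖ ^ (2 * k) : ℝ) : ℂ) = ∏ y : Fin k × Bool, cj y.2 z := by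
    intro z
    rw [Fintype.prod_prod_type]
    simp only [Fintype.prod_bool]
    rw [prod_const, card_univ, Fintype.card_fin, pow_mul]
    congr 1
    unfold cj
    simp only [if_true, Bool.false_eq_true, if_false]
    rw [Complex.mul_conj, Complex.normSq_eq_norm_sq]
    push_cast
    rfl
  have h1 : ((∑ s : ZMod p, ‖∑ n : Fin M, gg χ c α γ (s + U * ((n : ℕ) : ZMod p))‖ ^ (2 * k) : ℝ) : ℂ) =
      ∑ ν : Fin k × Bool → Fin M, ∑ s : ZMod p,
        ∏ z, cj z.2 (gg χ c α γ (s + U * ((ν z : ℕ) : ZMod p))) := by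
    rw [Complex.ofReal_sum, sum_comm]
    refine sum_congr rfl fun s _ => ?_
    rw [hnorm]
    simp only [cj_sum]
    rw [prod_univ_sum, Fintype.piFinset_univ]
  have h1' : ∑ s : ZMod p, ‖∑ n : Fin M, gg χ c α γ (s + U * ((n : ℕ) : ZMod p))‖ ^ (2 * k) =
      ‖((∑ s : ZMod p, ‖∑ n : Fin M, gg χ c α γ (s + U * ((n : ℕ) : ZMod p))‖ ^ (2 * k) : ℝ) : ℂ)‖ := by
    rw [Complex.norm_real, Real.norm_of_nonneg (sum_nonneg fun _ _ => by positivity)]
  rw [h1', h1]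
  have h2 : ∀ ν : Fin k × Bool → Fin M,
      ‖∑ s : ZMod p, ∏ z, cj z.2 (gg χ c α γ (s + U * ((ν z : ℕ) : ZMod p)))‖ ≤
      (if ∀ n, (univ.filter fun i => ν i = n).card ≠ 1 then (p : ℝ) else 0) + B := by
    intro ν
    split_ifs with hev
    · have e1 : ‖∑ s : ZMod p, ∏ z, cj z.2 (gg χ c α γ (s + U * ((ν z : ℕ) : ZMod p)))‖ ≤
          ∑ _s : ZMod p, (1 : ℝ) := by
        refine (norm_sum_le _ _).trans (sum_le_sum fun s _ => ?_)
        rw [norm_prod]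
        refine prod_le_one (fun _ _ => norm_nonneg _) fun z _ => ?_
        rw [cj_norm]
        exact gg_norm _ _ _ _ _
      rw [sum_const, card_univ, ZMod.card, nsmul_eq_mul, mul_one] at e1
      linarith
    · rw [zero_add]
      push Not at hev
      obtain ⟨n, hn⟩ := hev
      exact word hW hR c α γ hα U hinj hr ν n hn
  refine (norm_sum_le _ _).trans ((sum_le_sum fun ν _ => h2 ν).trans ?_)
  rw [sum_add_distrib, ← sum_filter, sum_const, sum_const, card_univ, Fintype.card_fun,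
    Fintype.card_fin, Fintype.card_prod, Fintype.card_fin, Fintype.card_bool, nsmul_eq_mul,
    nsmul_eq_mul]
  have h3 : (((univ : Finset (Fin k × Bool → Fin M)).filter fun ν =>
      ∀ n, (univ.filter fun i => ν i = n).card ≠ 1).card : ℝ) ≤ k ^ (2 * k) * M ^ k := by
    exact_mod_cast words k M hk (W := Fin k × Bool) (by
      rw [Fintype.card_prod, Fintype.card_fin, Fintype.card_bool, mul_comm])
  push_cast
  rw [mul_comm k 2]
  gcongr

/-- a nonnegative function on `ZMod p` -/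
lemma per_le {p : ℕ} [Fact p.Prime] (g : ZMod p → ℝ) (hg : ∀ y, 0 ≤ g y) (X : ℕ) :
    ∑ s ∈ range X, g (s : ZMod p) ≤ ((X / p : ℕ) + 1) * ∑ y, g y := by
  have hp : 0 < p := (Fact.out : p.Prime).pos
  have h2 : ∑ s ∈ range p, g ((s : ℕ) : ZMod p) = ∑ y : ZMod p, g y := by
    refine sum_nbij' (fun s : ℕ => (s : ZMod p)) (fun y : ZMod p => y.val) (fun _ _ => mem_univ _)
      (fun y _ => mem_range.2 (ZMod.val_lt y)) (fun s hs => ?_) (fun y _ => ?_) (fun s _ => rfl)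
    · exact ZMod.val_cast_of_lt (mem_range.1 hs)
    · exact ZMod.natCast_zmod_val y
  have h1 : ∀ u : ℕ, ∑ s ∈ range (p * u), g (s : ZMod p) = u * ∑ y, g y := by
    intro u
    induction u with
    | zero => simp
    | succ u ih =>
      rw [mul_add, mul_one, sum_range_add, ih]
      have h3 : ∑ s ∈ range p, g ((p * u + s : ℕ) : ZMod p) = ∑ y, g y := by
        rw [← h2]
        refine sum_congr rfl fun s _ => ?_
        congr 1
        push_cast
        simp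
      rw [h3]
      push_cast
      ring
  have h3 : X ≤ p * (X / p + 1) := by
    have := Nat.div_add_mod X p
    have := Nat.mod_lt X hp
    rw [mul_add, mul_one]
    omega
  calc ∑ s ∈ range X, g (s : ZMod p) ≤ ∑ s ∈ range (p * (X / p + 1)), g (s : ZMod p) :=
        sum_le_sum_of_subset_of_nonneg (range_mono h3) fun _ _ _ => hg _
    _ = ((X / p : ℕ) + 1) * ∑ y, g y := by rw [h1]; push_cast; ring

/-- shifts -/
lemma shifts {p r M : ℕ} (χ : DirichletCharacter ℂ p) (c : Fin r → Bool) (α γ : Fin r → ZMod p)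
    (U X : ℕ) :
    (M : ℝ) * ‖∑ s ∈ range X, gg χ c α γ (s : ZMod p)‖ ≤
      ∑ s ∈ range X, ‖∑ n : Fin M, gg χ c α γ ((s : ZMod p) + U * ((n : ℕ) : ZMod p))‖ +
        2 * U * M ^ 2 := by
  have h1 : ∀ n : Fin M, ‖∑ s ∈ range X, gg χ c α γ (s : ZMod p) -
      ∑ s ∈ range X, gg χ c α γ ((s : ZMod p) + U * ((n : ℕ) : ZMod p))‖ ≤ 2 * U * M := by
    intro n
    have e1 : ∑ s ∈ range (X + U * n), gg χ c α γ (s : ZMod p) =
        ∑ s ∈ range X, gg χ c α γ (s : ZMod p) +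
        ∑ s ∈ range (U * n), gg χ c α γ ((X + s : ℕ) : ZMod p) := sum_range_add _ _ _
    have e2 : ∑ s ∈ range (U * n + X), gg χ c α γ (s : ZMod p) =
        ∑ s ∈ range (U * n), gg χ c α γ (s : ZMod p) +
        ∑ s ∈ range X, gg χ c α γ ((U * n + s : ℕ) : ZMod p) := sum_range_add _ _ _
    have e3 : ∑ s ∈ range X, gg χ c α γ ((U * n + s : ℕ) : ZMod p) =
        ∑ s ∈ range X, gg χ c α γ ((s : ZMod p) + U * ((n : ℕ) : ZMod p)) := by
      refine sum_congr rfl fun s _ => ?_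
      congr 1
      push_cast
      ring
    rw [add_comm (U * (n : ℕ)) X, e1, e3] at e2
    have e4 : ∑ s ∈ range X, gg χ c α γ (s : ZMod p) -
      ∑ s ∈ range X, gg χ c α γ ((s : ZMod p) + U * ((n : ℕ) : ZMod p)) =
      ∑ s ∈ range (U * n), gg χ c α γ (s : ZMod p) -
        ∑ s ∈ range (U * n), gg χ c α γ ((X + s : ℕ) : ZMod p) := by linear_combination e2
    rw [e4]
    have e5 : ∀ g : ℕ → ℂ, (∀ s, ‖g s‖ ≤ 1) → ‖∑ s ∈ range (U * n), g s‖ ≤ U * n := by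
      intro g hg
      refine (norm_sum_le _ _).trans ((sum_le_sum fun s _ => hg s).trans ?_)
      rw [sum_const, card_range, nsmul_eq_mul, mul_one]
      push_cast
      exact le_rfl
    have e6 := e5 (fun s => gg χ c α γ (s : ZMod p)) fun s => gg_norm _ _ _ _ _
    have e7 := e5 (fun s => gg χ c α γ ((X + s : ℕ) : ZMod p)) fun s => gg_norm _ _ _ _ _
    have e8 : ((n : ℕ) : ℝ) ≤ M := by exact_mod_cast n.2.le
    have e9 : (U : ℝ) * (n : ℕ) ≤ U * M := mul_le_mul_of_nonneg_left e8 (Nat.cast_nonneg _)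
    have e10 := norm_sub_le (∑ s ∈ range (U * n), gg χ c α γ (s : ZMod p))
      (∑ s ∈ range (U * n), gg χ c α γ ((X + s : ℕ) : ZMod p))
    linarith
  have h2 : (M : ℂ) * ∑ s ∈ range X, gg χ c α γ (s : ZMod p) =
      ∑ s ∈ range X, (∑ n : Fin M, gg χ c α γ ((s : ZMod p) + U * ((n : ℕ) : ZMod p))) +
      ∑ n : Fin M, (∑ s ∈ range X, gg χ c α γ (s : ZMod p) -
        ∑ s ∈ range X, gg χ c α γ ((s : ZMod p) + U * ((n : ℕ) : ZMod p))) := by
    rw [sum_sub_distrib, sum_comm]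
    simp only [sum_const, card_univ, Fintype.card_fin, nsmul_eq_mul]
    ring
  have h3 : (M : ℝ) * ‖∑ s ∈ range X, gg χ c α γ (s : ZMod p)‖ =
      ‖(M : ℂ) * ∑ s ∈ range X, gg χ c α γ (s : ZMod p)‖ := by
    rw [norm_mul, Complex.norm_natCast]
  rw [h3, h2]
  refine (norm_add_le _ _).trans (add_le_add (norm_sum_le _ _) ?_)
  refine (norm_sum_le _ _).trans ((sum_le_sum fun n _ => h1 n).trans ?_)
  rw [sum_const, card_univ, Fintype.card_fin, nsmul_eq_mul]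
  exact le_of_eq (by ring)

/-- incomplete sums -/
theorem short {p : ℕ} [Fact p.Prime] {χ : DirichletCharacter ℂ p} {r k M R : ℕ} (hk : 0 < k)
    (hW : WB χ R (22 * (R + 1) * √(p : ℝ))) (hR : 2 * k * r ≤ R) (hr : 1 ≤ r)
    (c : Fin r → Bool) (α γ : Fin r → ZMod p) (hα : ∀ l, α l ≠ 0) (U : ℕ)
    (hinj : ∀ (l l' : Fin r) (n n' : Fin M), -γ l / α l - (U : ZMod p) * ((n : ℕ) : ZMod p) =
      -γ l' / α l' - (U : ZMod p) * ((n' : ℕ) : ZMod p) → l = l' ∧ n = n')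
    (hM : (p : ℝ) ≤ (M : ℝ) ^ (2 * k)) {X : ℕ} (hX : 1 ≤ X) {η : ℝ} (hη : 0 < η)
    (hsm : (1 / √(p : ℝ) + √(p : ℝ) / X) * (k ^ (2 * k) + 22 * (R + 1)) ≤ η ^ (2 * k)) :
    ‖∑ s ∈ range X, gg χ c α γ (s : ZMod p)‖ ≤ η * X + 2 * U * M := by
  classical
  have hpp : p.Prime := Fact.out
  have hp0 : (0 : ℝ) < p := by exact_mod_cast hpp.pos
  have hX0 : (0 : ℝ) < X := by exact_mod_cast hX
  have hs0 : 0 < √(p : ℝ) := Real.sqrt_pos.2 hp0
  have hsq : √(p : ℝ) * √(p : ℝ) = p := Real.mul_self_sqrt hp0.le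
  have hM0 : (0 : ℝ) < M := by
    rcases Nat.eq_zero_or_pos M with h | h
    · rw [h, Nat.cast_zero, zero_pow (by omega)] at hM
      linarith
    · exact_mod_cast h
  obtain ⟨T, hT⟩ : ∃ T : ZMod p → ℂ,
      T = fun y => ∑ n : Fin M, gg χ c α γ (y + U * ((n : ℕ) : ZMod p)) := ⟨_, rfl⟩
  obtain ⟨Sg, hSg⟩ : ∃ Sg : ℝ, Sg = ∑ s ∈ range X, ‖T (s : ZMod p)‖ := ⟨_, rfl⟩
  -- the moment
  have h1 := moment hk hW (by positivity) hR hr c α γ hα U hinj
  have h2 := per_le (fun y => ‖T y‖ ^ (2 * k)) (fun y => by positivity) X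
  have h3 : ∑ s ∈ range X, ‖T (s : ZMod p)‖ ^ (2 * k) ≤
      ((X / p : ℕ) + 1) * (k ^ (2 * k) * M ^ k * p + M ^ (2 * k) * (22 * (R + 1) * √(p : ℝ))) := by
    refine h2.trans ?_
    refine mul_le_mul_of_nonneg_left ?_ (by positivity)
    rw [hT]
    exact h1
  have h4 : Sg ^ (2 * k) ≤ (X : ℝ) ^ (2 * k - 1) * ∑ s ∈ range X, ‖T (s : ZMod p)‖ ^ (2 * k) := by
    have e1 := pow_sum_div_card_le_sum_pow (s := range X) (f := fun s : ℕ => ‖T (s : ZMod p)‖)
      (fun _ _ => norm_nonneg _) (2 * k - 1)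
    rw [card_range, show 2 * k - 1 + 1 = 2 * k by omega, div_le_iff₀ (by positivity), ← hSg] at e1
    refine e1.trans (le_of_eq ?_)
    rw [mul_comm]
  have h5 : k ^ (2 * k) * (M : ℝ) ^ k * p + M ^ (2 * k) * (22 * (R + 1) * √(p : ℝ)) ≤
      M ^ (2 * k) * √(p : ℝ) * (k ^ (2 * k) + 22 * (R + 1)) := by
    have e1 : √(p : ℝ) ≤ (M : ℝ) ^ k := by
      rw [← Real.sqrt_sq (by positivity : (0 : ℝ) ≤ (M : ℝ) ^ k)]
      refine Real.sqrt_le_sqrt (hM.trans (le_of_eq ?_))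
      rw [← pow_mul]
      congr 1
      ring
    have e2 : (M : ℝ) ^ k * p ≤ M ^ (2 * k) * √(p : ℝ) := by
      calc (M : ℝ) ^ k * p = M ^ k * √(p : ℝ) * √(p : ℝ) := by rw [mul_assoc, hsq]
        _ ≤ M ^ k * M ^ k * √(p : ℝ) := by gcongr
        _ = M ^ (2 * k) * √(p : ℝ) := by rw [← pow_add]; congr 2; ring
    calc k ^ (2 * k) * (M : ℝ) ^ k * p + M ^ (2 * k) * (22 * (R + 1) * √(p : ℝ))
        = k ^ (2 * k) * ((M : ℝ) ^ k * p) + M ^ (2 * k) * (22 * (R + 1) * √(p : ℝ)) := by ring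
      _ ≤ k ^ (2 * k) * (M ^ (2 * k) * √(p : ℝ)) + M ^ (2 * k) * (22 * (R + 1) * √(p : ℝ)) := by
          gcongr
      _ = M ^ (2 * k) * √(p : ℝ) * (k ^ (2 * k) + 22 * (R + 1)) := by ring
  have h6 : Sg ^ (2 * k) ≤ (η * X * M) ^ (2 * k) := by
    have e1 : ((X / p : ℕ) : ℝ) + 1 ≤ X * (1 / p + 1 / X) := by
      have : ((X / p : ℕ) : ℝ) ≤ X / p := Nat.cast_div_le
      have e2 : (X : ℝ) * (1 / p + 1 / X) = X / p + 1 := by field_simp
      linarith
    calc Sg ^ (2 * k) ≤ (X : ℝ) ^ (2 * k - 1) * (((X / p : ℕ) + 1) *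
          (M ^ (2 * k) * √(p : ℝ) * (k ^ (2 * k) + 22 * (R + 1)))) := by
          refine h4.trans (mul_le_mul_of_nonneg_left (h3.trans ?_) (by positivity))
          exact mul_le_mul_of_nonneg_left h5 (by positivity)
      _ ≤ (X : ℝ) ^ (2 * k - 1) * ((X * (1 / p + 1 / X)) *
          (M ^ (2 * k) * √(p : ℝ) * (k ^ (2 * k) + 22 * (R + 1)))) := by gcongr
      _ = (X ^ (2 * k - 1) * X) * M ^ (2 * k) *
          ((√(p : ℝ) * (1 / p) + √(p : ℝ) / X) * (k ^ (2 * k) + 22 * (R + 1))) := by ring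
      _ = X ^ (2 * k) * M ^ (2 * k) *
          ((1 / √(p : ℝ) + √(p : ℝ) / X) * (k ^ (2 * k) + 22 * (R + 1))) := by
          have e5 : √(p : ℝ) * (1 / p) = 1 / √(p : ℝ) := by
            rw [mul_one_div, div_eq_div_iff hp0.ne' hs0.ne', hsq, one_mul]
          rw [e5, ← pow_succ, show 2 * k - 1 + 1 = 2 * k by omega]
      _ ≤ X ^ (2 * k) * M ^ (2 * k) * η ^ (2 * k) := by gcongr
      _ = (η * X * M) ^ (2 * k) := by rw [mul_pow, mul_pow]; ring
  have h7 : Sg ≤ η * X * M := le_of_pow_le_pow_left₀ (by omega) (by positivity) h6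
  have h9 : (M : ℝ) * ‖∑ s ∈ range X, gg χ c α γ (s : ZMod p)‖ ≤ Sg + 2 * U * M ^ 2 := by
    rw [hSg]
    simp only [hT]
    exact shifts (M := M) χ c α γ U X
  have h10 : (M : ℝ) * ‖∑ s ∈ range X, gg χ c α γ (s : ZMod p)‖ ≤
      M * (η * X + 2 * U * M) := by
    refine h9.trans ?_
    nlinarith
  exact le_of_mul_le_mul_left h10 hM0

end Pool.Agent.H18.QT
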