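import Mathlib

/-!
# [H18 QT Nd] a root of odd multiplicity

`nondeg`: the shifts `ρ_l - U n` of the roots of the forms: if some letter `n` of the word `ν` has odd multiplicity,
then some root has odd multiplicity. `dirichlet`: a small multiple of `m` modulo `p`.
-/

set_option autoImplicit false

namespace Pool.Agent.H18.QT

open Finset

/-- Dirichlet -/
lemma dirichlet {p m : ℕ} (hp : p.Prime) (hmp : ¬ p ∣ m) :
    ∃ (U : ℕ) (v : ℤ), 1 ≤ U ∧ U ≤ Nat.sqrt p ∧ v ≠ 0 ∧ |v| ≤ Nat.sqrt p ∧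
      ((U * m : ℕ) : ZMod p) = (v : ZMod p) := by
  have hs1 : 0 < Nat.sqrt p := Nat.sqrt_pos.2 hp.pos
  have hsp : Nat.sqrt p < p := Nat.sqrt_lt_self hp.one_lt
  have hp0 : (0 : ℝ) < p := by exact_mod_cast hp.pos
  obtain ⟨j, u, hu0, hu, hju⟩ := Real.exists_int_int_abs_mul_sub_le ((m : ℝ) / p) hs1
  obtain ⟨U, rfl⟩ : ∃ U : ℕ, u = U := ⟨u.toNat, by omega⟩
  have hU0 : 1 ≤ U := by omega
  have hU : U ≤ Nat.sqrt p := by exact_mod_cast hu
  refine ⟨U, U * m - j * p, hU0, hU, ?_, ?_, ?_⟩
  · intro h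
    have h1 : (p : ℤ) ∣ (U * m : ℕ) := ⟨j, by push_cast; linarith⟩
    have h2 : p ∣ U * m := by exact_mod_cast h1
    rcases (hp.dvd_mul).1 h2 with h3 | h3
    · have := Nat.le_of_dvd (by omega) h3
      omega
    · exact hmp h3
  · have h1 : |((U * m - j * p : ℤ) : ℝ)| < Nat.sqrt p + 1 := by
      have h2 : ((U * m - j * p : ℤ) : ℝ) = p * (((U : ℤ) : ℝ) * ((m : ℝ) / p) - j) := by
        push_cast
        field_simp
      rw [h2, abs_mul, abs_of_pos hp0]
      have h3 : (0 : ℝ) < Nat.sqrt p + 1 := by positivity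
      calc (p : ℝ) * |((U : ℤ) : ℝ) * ((m : ℝ) / p) - j| ≤ p * (1 / (Nat.sqrt p + 1)) :=
            mul_le_mul_of_nonneg_left hju hp0.le
        _ = p / (Nat.sqrt p + 1) := by ring
        _ < Nat.sqrt p + 1 := by
            rw [div_lt_iff₀ h3]
            exact_mod_cast Nat.lt_succ_sqrt p
    have h4 : |(U * m - j * p : ℤ)| < Nat.sqrt p + 1 := by exact_mod_cast h1
    exact Int.lt_add_one_iff.1 h4
  · push_cast
    simp

/-- an odd root -/
lemma nondeg {p : ℕ} [Fact p.Prime] {r k M H Bd : ℕ} (hr : 1 ≤ r) (A C : Fin r → ℕ)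
    (hA : ∀ l, 1 ≤ A l ∧ A l ≤ H) (hC : ∀ l, C l ≤ Bd)
    (hne : ∀ l l', l ≠ l' → A l * C l' ≠ A l' * C l) (m a : ℕ) (hmp : ¬ p ∣ m) (U : ℕ) (v : ℤ)
    (hv0 : v ≠ 0) (hUv : ((U * m : ℕ) : ZMod p) = (v : ZMod p)) (hHp : H < p) (V : ℕ) (hv : |v| ≤ V)
    (hsmall : H * Bd + V * M * H ^ 2 < p) (ν : Fin (2 * k) → Fin M)
    (hodd : ∃ n, Odd (univ.filter fun i => ν i = n).card) :
    ∃ x : ZMod p, Odd (univ.filter fun z : Fin (2 * k) × Fin r =>
      -((A z.2 : ZMod p) * a + C z.2) / ((A z.2 : ZMod p) * m) - (U : ZMod p) * ((ν z.1 : ℕ) : ZMod p)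
        = x).card := by
  classical
  have hpp : p.Prime := Fact.out
  have hm0 : (m : ZMod p) ≠ 0 := fun h => hmp ((ZMod.natCast_eq_zero_iff m p).1 h)
  have hA0 : ∀ l, (A l : ZMod p) ≠ 0 := fun l h => by
    have h7 := Nat.le_of_dvd (hA l).1 ((ZMod.natCast_eq_zero_iff _ _).1 h)
    have := (hA l).2
    omega
  -- the extreme form
  obtain ⟨ls, hls⟩ : ∃ ls : Fin r, ∀ l, C l * A ls ≤ C ls * A l := by
    have hne' : (univ : Finset (Fin r)).Nonempty := ⟨⟨0, hr⟩, mem_univ _⟩
    obtain ⟨ls, _, h⟩ := exists_max_image univ (fun l => (C l : ℚ) / A l) hne'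
    refine ⟨ls, fun l => ?_⟩
    have h1 := h l (mem_univ l)
    have h2 : (0 : ℚ) < A l := by exact_mod_cast (hA l).1
    have h3 : (0 : ℚ) < A ls := by exact_mod_cast (hA ls).1
    rw [div_le_div_iff₀ h2 h3] at h1
    exact_mod_cast h1
  -- the extreme letter
  obtain ⟨ns, hns, hext⟩ : ∃ ns : Fin M, Odd (univ.filter fun i => ν i = ns).card ∧
      ∀ n : Fin M, 0 < v * ((n : ℤ) - ns) → ¬ Odd (univ.filter fun i => ν i = n).card := by
    obtain ⟨O, hO⟩ : ∃ O : Finset (Fin M), O = univ.filter fun n =>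
      Odd (univ.filter fun i => ν i = n).card := ⟨_, rfl⟩
    have hOne : O.Nonempty := by
      obtain ⟨n, hn⟩ := hodd
      exact ⟨n, by rw [hO]; exact mem_filter.2 ⟨mem_univ _, hn⟩⟩
    have hmem : ∀ n, n ∈ O ↔ Odd (univ.filter fun i => ν i = n).card := fun n => by
      rw [hO, mem_filter]
      exact ⟨fun h => h.2, fun h => ⟨mem_univ _, h⟩⟩
    rcases lt_or_gt_of_ne hv0 with hv' | hv'
    · refine ⟨O.min' hOne, (hmem _).1 (min'_mem _ _), fun n hn ho => ?_⟩
      have h1 : O.min' hOne ≤ n := min'_le _ _ ((hmem n).2 ho)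
      have h2 : ((O.min' hOne : Fin M) : ℤ) ≤ (n : ℤ) := by exact_mod_cast h1
      nlinarith
    · refine ⟨O.max' hOne, (hmem _).1 (max'_mem _ _), fun n hn ho => ?_⟩
      have h1 : n ≤ O.max' hOne := le_max' _ _ ((hmem n).2 ho)
      have h2 : (n : ℤ) ≤ ((O.max' hOne : Fin M) : ℤ) := by exact_mod_cast h1
      nlinarith
  refine ⟨-((A ls : ZMod p) * a + C ls) / ((A ls : ZMod p) * m) -
    (U : ZMod p) * ((ns : ℕ) : ZMod p), ?_⟩
  -- the condition over the integers
  have hcond : ∀ (i : Fin (2 * k)) (l : Fin r),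
      (-((A l : ZMod p) * a + C l) / ((A l : ZMod p) * m) - (U : ZMod p) * ((ν i : ℕ) : ZMod p) =
        -((A ls : ZMod p) * a + C ls) / ((A ls : ZMod p) * m) - (U : ZMod p) * ((ns : ℕ) : ZMod p)) ↔
      ((C ls * A l : ℤ) - C l * A ls = v * ((ν i : ℤ) - ns) * (A l * A ls)) := by
    intro i l
    have e1 : (-((A l : ZMod p) * a + C l) / ((A l : ZMod p) * m) -
        (U : ZMod p) * ((ν i : ℕ) : ZMod p) =
        -((A ls : ZMod p) * a + C ls) / ((A ls : ZMod p) * m) -
          (U : ZMod p) * ((ns : ℕ) : ZMod p)) ↔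
        (((C ls * A l : ℤ) - C l * A ls : ℤ) : ZMod p) =
          ((v * ((ν i : ℤ) - ns) * (A l * A ls) : ℤ) : ZMod p) := by
      have e2 : ((v * ((ν i : ℤ) - ns) * (A l * A ls) : ℤ) : ZMod p) =
          (U : ZMod p) * m * (((ν i : ℕ) : ZMod p) - ((ns : ℕ) : ZMod p)) * (A l * A ls) := by
        push_cast
        rw [← hUv]
        push_cast
        ring
      rw [e2]
      push_cast
      have h3 := hA0 l
      have h4 := hA0 ls
      constructor
      · intro h
        have h5 : (A l : ZMod p) * A ls * m * (-((A l : ZMod p) * a + C l) / ((A l : ZMod p) * m) -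
            (U : ZMod p) * ((ν i : ℕ) : ZMod p)) = (A l : ZMod p) * A ls * m *
            (-((A ls : ZMod p) * a + C ls) / ((A ls : ZMod p) * m) -
              (U : ZMod p) * ((ns : ℕ) : ZMod p)) := by rw [h]
        field_simp at h5
        linear_combination h5
      · intro h
        field_simp
        linear_combination h
    rw [e1, ZMod.intCast_eq_intCast_iff]
    constructor
    · intro h
      rw [Int.modEq_iff_dvd] at h
      have h6 : |v * ((ν i : ℤ) - ns) * (A l * A ls) - ((C ls * A l : ℤ) - C l * A ls)| < p := by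
        have b1 : |((ν i : ℤ) - ns)| ≤ M := by
          have := (ν i).2
          have := ns.2
          rw [abs_le]
          constructor <;> omega
        have b2 : |(A l * A ls : ℤ)| ≤ H ^ 2 := by
          rw [abs_of_nonneg (by positivity), sq]
          exact_mod_cast Nat.mul_le_mul (hA l).2 (hA ls).2
        have b3 : |((C ls * A l : ℤ) - C l * A ls)| ≤ H * Bd := by
          have c1 := hls l
          have c2 : C ls * A l ≤ Bd * H := Nat.mul_le_mul (hC ls) (hA l).2
          rw [abs_of_nonneg (by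
            have : ((C l * A ls : ℕ) : ℤ) ≤ ((C ls * A l : ℕ) : ℤ) := by exact_mod_cast c1
            push_cast at this
            linarith)]
          have c3 : ((C ls * A l : ℕ) : ℤ) ≤ ((Bd * H : ℕ) : ℤ) := by exact_mod_cast c2
          have c4 : (0 : ℤ) ≤ ((C l * A ls : ℕ) : ℤ) := Int.natCast_nonneg _
          push_cast at c3 c4
          linarith
        have b4 : |v * ((ν i : ℤ) - ns) * (A l * A ls)| ≤ V * M * H ^ 2 := by
          rw [abs_mul, abs_mul]
          gcongr
        have b5 := abs_sub (v * ((ν i : ℤ) - ns) * (A l * A ls)) ((C ls * A l : ℤ) - C l * A ls)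
        have b6 : ((H * Bd + V * M * H ^ 2 : ℕ) : ℤ) < p := by exact_mod_cast hsmall
        push_cast at b6
        linarith
      have h7 := Int.eq_zero_of_abs_lt_dvd h h6
      linarith
    · intro h
      rw [h]
  -- the count
  have hcard : (univ.filter fun z : Fin (2 * k) × Fin r =>
      -((A z.2 : ZMod p) * a + C z.2) / ((A z.2 : ZMod p) * m) - (U : ZMod p) * ((ν z.1 : ℕ) : ZMod p)
        = -((A ls : ZMod p) * a + C ls) / ((A ls : ZMod p) * m) -
          (U : ZMod p) * ((ns : ℕ) : ZMod p)).card =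
      ∑ l : Fin r, (univ.filter fun i : Fin (2 * k) =>
        (C ls * A l : ℤ) - C l * A ls = v * ((ν i : ℤ) - ns) * (A l * A ls)).card := by
    rw [card_filter, Fintype.sum_prod_type_right]
    refine sum_congr rfl fun l _ => ?_
    rw [card_filter]
    exact sum_congr rfl fun i _ => if_congr (hcond i l) rfl rfl
  rw [hcard, ← add_sum_erase _ _ (mem_univ ls)]
  have hpos : ∀ l, (0 : ℤ) < A l * A ls := fun l => by
    have := (hA l).1
    have := (hA ls).1
    positivity
  have h1 : (univ.filter fun i : Fin (2 * k) =>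
        (C ls * A ls : ℤ) - C ls * A ls = v * ((ν i : ℤ) - ns) * (A ls * A ls)) =
      univ.filter fun i => ν i = ns := by
    ext i
    simp only [mem_filter, mem_univ, true_and, sub_self]
    constructor
    · intro h
      have h2 := (mul_eq_zero.1 h.symm).resolve_right (hpos ls).ne'
      have h3 := (mul_eq_zero.1 h2).resolve_left hv0
      exact Fin.ext (by omega)
    · intro h
      rw [h]
      simp
  rw [h1]
  refine Odd.add_even hns ?_
  refine even_sum _ fun l hl => ?_
  have hl' : l ≠ ls := ne_of_mem_erase hl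
  by_cases hex : ∃ i0 : Fin (2 * k), (C ls * A l : ℤ) - C l * A ls = v * ((ν i0 : ℤ) - ns) * (A l * A ls)
  · obtain ⟨i0, hi0⟩ := hex
    have h2 : (univ.filter fun i : Fin (2 * k) =>
        (C ls * A l : ℤ) - C l * A ls = v * ((ν i : ℤ) - ns) * (A l * A ls)) =
        univ.filter fun i => ν i = ν i0 := by
      ext i
      simp only [mem_filter, mem_univ, true_and]
      constructor
      · intro h
        rw [hi0] at h
        have h3 := mul_right_cancel₀ (hpos l).ne' h
        have h4 := mul_left_cancel₀ hv0 h3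
        exact Fin.ext (by omega)
      · intro h
        rw [h]
        exact hi0
    rw [h2, ← Nat.not_odd_iff_even]
    refine hext _ ?_
    have h3 : (0 : ℤ) < (C ls * A l : ℤ) - C l * A ls := by
      have c1 : ((C l * A ls : ℕ) : ℤ) ≤ ((C ls * A l : ℕ) : ℤ) := by exact_mod_cast hls l
      have c2 : ((C l * A ls : ℕ) : ℤ) ≠ ((C ls * A l : ℕ) : ℤ) := by
        intro h
        have h5 : C l * A ls = C ls * A l := by exact_mod_cast h
        exact hne ls l hl'.symm (by rw [mul_comm, h5, mul_comm])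
      push_cast at c1 c2
      have := lt_of_le_of_ne c1 c2
      linarith
    rw [hi0] at h3
    exact (mul_pos_iff_of_pos_right (hpos l)).1 h3
  · push Not at hex
    rw [filter_eq_empty_iff.2 fun i _ => hex i, card_empty]
    exact ⟨0, rfl⟩

end Pool.Agent.H18.QT
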