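import Mathlib
import Pool.Agent.H18.QT.Nd
import Pool.Agent.H18.QT.Gen

/-!
# [H18 QT Kar] the range of Karatsuba: `N ≥ m p ^ (1/2 + δ)`

`kar`: `|Σ_{t < x} v(t) Π_l χ^(±)(A_l t + C_l)| ≤ η N` for `x ≤ N`, `v` periodic of period `m` prime to `p`,
`N ≥ m p ^ (1/2 + δ)`, for every character `χ` mod `p` with the property `WB`.
-/

set_option autoImplicit false

namespace Pool.Agent.H18.QT

open Finset Pool.H2.EL Filter Topology

/-- all roots are different -/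
lemma inj_roots {p : ℕ} [Fact p.Prime] {r M H Bd : ℕ} (A C : Fin r → ℕ)
    (hA : ∀ l, 1 ≤ A l ∧ A l ≤ H) (hC : ∀ l, C l ≤ Bd)
    (hne : ∀ l l', l ≠ l' → A l * C l' ≠ A l' * C l) (m a : ℕ) (hmp : ¬ p ∣ m) (U : ℕ) (v : ℤ)
    (hv0 : v ≠ 0) (hUv : ((U * m : ℕ) : ZMod p) = (v : ZMod p)) (hHp : H < p) (V : ℕ) (hv : |v| ≤ V)
    (hsmall : H * Bd + V * (H * Bd + 1) * M * H ^ 2 < p) (l l' : Fin r) (n n' : Fin M)
    (h : -((A l : ZMod p) * a + C l) / ((A l : ZMod p) * m) -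
        ((U * (H * Bd + 1) : ℕ) : ZMod p) * ((n : ℕ) : ZMod p) =
      -((A l' : ZMod p) * a + C l') / ((A l' : ZMod p) * m) -
        ((U * (H * Bd + 1) : ℕ) : ZMod p) * ((n' : ℕ) : ZMod p)) : l = l' ∧ n = n' := by
  have hm0 : (m : ZMod p) ≠ 0 := fun h => hmp ((ZMod.natCast_eq_zero_iff m p).1 h)
  have hA0 : ∀ l, (A l : ZMod p) ≠ 0 := fun l h => by
    have h7 := Nat.le_of_dvd (hA l).1 ((ZMod.natCast_eq_zero_iff _ _).1 h)
    have := (hA l).2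
    omega
  have hApos : ∀ l, (0 : ℤ) < A l := fun l => by exact_mod_cast (hA l).1
  have e1 : (((C l * A l' : ℤ) - C l' * A l : ℤ) : ZMod p) =
      ((v * (H * Bd + 1) * ((n' : ℤ) - n) * (A l * A l') : ℤ) : ZMod p) := by
    push_cast
    rw [← hUv]
    push_cast at h ⊢
    have h3 := hA0 l
    have h4 := hA0 l'
    field_simp at h
    linear_combination (-1 : ZMod p) * h
  rw [ZMod.intCast_eq_intCast_iff, Int.modEq_iff_dvd] at e1
  have b3 : |((C l * A l' : ℤ) - C l' * A l)| ≤ H * Bd := by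
    have c1 : ((C l * A l' : ℕ) : ℤ) ≤ ((Bd * H : ℕ) : ℤ) := by
      exact_mod_cast Nat.mul_le_mul (hC l) (hA l').2
    have c2 : ((C l' * A l : ℕ) : ℤ) ≤ ((Bd * H : ℕ) : ℤ) := by
      exact_mod_cast Nat.mul_le_mul (hC l') (hA l).2
    have c3 : (0 : ℤ) ≤ ((C l * A l' : ℕ) : ℤ) := Int.natCast_nonneg _
    have c4 : (0 : ℤ) ≤ ((C l' * A l : ℕ) : ℤ) := Int.natCast_nonneg _
    push_cast at c1 c2 c3 c4
    rw [abs_le]
    constructor <;> linarith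
  have b1 : |((n' : ℤ) - n)| ≤ M := by
    have := n.2
    have := n'.2
    rw [abs_le]
    constructor <;> omega
  have b2 : |(A l * A l' : ℤ)| ≤ H ^ 2 := by
    rw [abs_of_nonneg (by positivity), sq]
    exact_mod_cast Nat.mul_le_mul (hA l).2 (hA l').2
  have b0 : |((H : ℤ) * Bd + 1)| = H * Bd + 1 := abs_of_nonneg (by positivity)
  have h6 : |v * (H * Bd + 1) * ((n' : ℤ) - n) * (A l * A l') -
      ((C l * A l' : ℤ) - C l' * A l)| < p := by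
    have b4 : |v * (H * Bd + 1) * ((n' : ℤ) - n) * (A l * A l')| ≤ V * (H * Bd + 1) * M * H ^ 2 := by
      rw [abs_mul, abs_mul, abs_mul, b0]
      gcongr
    have b5 := abs_sub (v * (H * Bd + 1) * ((n' : ℤ) - n) * (A l * A l'))
      ((C l * A l' : ℤ) - C l' * A l)
    have b6 : ((H * Bd + V * (H * Bd + 1) * M * H ^ 2 : ℕ) : ℤ) < p := by exact_mod_cast hsmall
    push_cast at b6
    linarith
  have h7 := Int.eq_zero_of_abs_lt_dvd e1 h6
  have h8 : (C l * A l' : ℤ) - C l' * A l = v * (H * Bd + 1) * ((n' : ℤ) - n) * (A l * A l') := by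
    linarith
  have hnn : n = n' := by
    by_contra hnn
    have d1 : (1 : ℤ) ≤ |((n' : ℤ) - n)| := by
      rw [← Int.sub_nonneg]
      have : (n' : ℤ) - n ≠ 0 := by
        intro h
        exact hnn (Fin.ext (by omega))
      have := Int.one_le_abs this
      linarith
    have d2 : (1 : ℤ) ≤ |v| := Int.one_le_abs hv0
    have d3 : (1 : ℤ) ≤ |(A l * A l' : ℤ)| :=
      Int.one_le_abs (mul_pos (hApos l) (hApos l')).ne'
    have d4 : (H : ℤ) * Bd + 1 ≤ |v * (H * Bd + 1) * ((n' : ℤ) - n) * (A l * A l')| := by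
      rw [abs_mul, abs_mul, abs_mul, b0]
      have d5 : (0 : ℤ) ≤ (H : ℤ) * Bd + 1 := by positivity
      calc (H : ℤ) * Bd + 1 = 1 * (H * Bd + 1) * 1 * 1 := by ring
        _ ≤ |v| * (H * Bd + 1) * |((n' : ℤ) - n)| * |(A l * A l' : ℤ)| := by gcongr
    rw [← h8] at d4
    linarith
  refine ⟨?_, hnn⟩
  by_contra hl
  apply hne l l' hl
  rw [hnn, sub_self, mul_zero, zero_mul] at h8
  have h9 : ((A l * C l' : ℕ) : ℤ) = ((A l' * C l : ℕ) : ℤ) := by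
    push_cast
    linarith
  exact_mod_cast h9

/-- sums over residue classes -/
lemma split_sum (G : ℕ → ℂ) (m u : ℕ) :
    ∑ t ∈ range (m * u), G t = ∑ a ∈ range m, ∑ s ∈ range u, G (m * s + a) := by
  rw [sum_comm]
  induction u with
  | zero => simp
  | succ u ih => rw [mul_add, mul_one, sum_range_add, ih, sum_range_succ]

/-- large primes -/
lemma large (H Bd k R : ℕ) (hk : 2 ≤ k) {η δ : ℝ} (hη : 0 < η) (hδ : 0 < δ) :
    ∀ᶠ p : ℕ in atTop, H < p ∧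
      (H * Bd : ℝ) + 2 * (H * Bd + 1) * H ^ 2 * (p : ℝ) ^ (3 / 4 : ℝ) < p ∧
      (1 / √(p : ℝ) + (2 / η) * (p : ℝ) ^ (-δ)) * (k ^ (2 * k) + 22 * (R + 1)) ≤ (η / 4) ^ (2 * k) ∧
      1 ≤ η / 2 * (p : ℝ) ^ (1 / 2 + δ) ∧
      (p : ℝ) ^ (-(δ / 2)) * (4 * (H * Bd + 1) + 1) ≤ η / 4 := by
  have key : ∀ (a c : ℝ), 0 < a → 0 < c → ∀ᶠ p : ℕ in atTop, (p : ℝ) ^ (-a) ≤ c := by
    intro a c ha hc
    exact ((tendsto_rpow_neg_atTop ha).comp tendsto_natCast_atTop_atTop).eventually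
      (ge_mem_nhds hc |> fun h => by simpa using h)
  obtain ⟨Kc, hKc⟩ : ∃ Kc : ℝ, Kc = k ^ (2 * k) + 22 * (R + 1) := ⟨_, rfl⟩
  have hKc0 : 0 < Kc := by rw [hKc]; positivity
  obtain ⟨e, he⟩ : ∃ e : ℝ, e = (η / 4) ^ (2 * k) := ⟨_, rfl⟩
  have he0 : 0 < e := by rw [he]; positivity
  filter_upwards [eventually_gt_atTop H, eventually_gt_atTop (2 * (H * Bd)),
    key (1 / 4) (1 / (4 * ((H * Bd + 1) * H ^ 2 + 1))) (by norm_num) (by positivity),
    key (1 / 2) (e / (2 * Kc)) (by norm_num) (by positivity),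
    key δ (e * η / (4 * Kc)) hδ (by positivity),
    key (1 / 2 + δ) (η / 2) (by positivity) (by positivity),
    key (δ / 2) (η / 4 / (4 * (H * Bd + 1) + 1)) (by positivity) (by positivity)] with
    p h1 h2 h3 h4 h5 h6 h7
  have hp0 : (0 : ℝ) < p := by exact_mod_cast (by omega : 0 < p)
  refine ⟨h1, ?_, ?_, ?_, ?_⟩
  · have e1 : (p : ℝ) ^ (3 / 4 : ℝ) = p * (p : ℝ) ^ (-(1 / 4 : ℝ)) := by
      rw [← Real.rpow_one_add' hp0.le (by norm_num)]
      congr 1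
      norm_num
    have e2 : (2 * (H * Bd) : ℝ) < p := by exact_mod_cast h2
    rw [e1]
    rw [le_div_iff₀ (by positivity)] at h3
    have e3 : (0 : ℝ) ≤ (p : ℝ) ^ (-(1 / 4 : ℝ)) := by positivity
    have e4 : 2 * ((H : ℝ) * Bd + 1) * H ^ 2 * (p : ℝ) ^ (-(1 / 4 : ℝ)) ≤ 1 / 2 := by nlinarith
    nlinarith
  · have e1 : 1 / √(p : ℝ) = (p : ℝ) ^ (-(1 / 2 : ℝ)) := by
      rw [Real.rpow_neg hp0.le, ← Real.sqrt_eq_rpow, one_div]
    rw [e1, ← hKc, ← he]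
    calc ((p : ℝ) ^ (-(1 / 2 : ℝ)) + 2 / η * (p : ℝ) ^ (-δ)) * Kc
        ≤ (e / (2 * Kc) + 2 / η * (e * η / (4 * Kc))) * Kc := by gcongr
      _ = e := by field_simp; ring
  · have e1 : (p : ℝ) ^ (1 / 2 + δ) * (p : ℝ) ^ (-(1 / 2 + δ)) = 1 := by
      rw [← Real.rpow_add hp0]
      simp
    have e2 : (0 : ℝ) < (p : ℝ) ^ (1 / 2 + δ) := by positivity
    calc (1 : ℝ) = (p : ℝ) ^ (1 / 2 + δ) * (p : ℝ) ^ (-(1 / 2 + δ)) := e1.symm
      _ ≤ (p : ℝ) ^ (1 / 2 + δ) * (η / 2) := by gcongr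
      _ = η / 2 * (p : ℝ) ^ (1 / 2 + δ) := by ring
  · rw [le_div_iff₀ (by positivity)] at h7
    exact h7

/-- the main estimate -/
theorem kar (H Bd : ℕ) {η δ : ℝ} (hη : 0 < η) (hδ : 0 < δ) : ∃ R P : ℕ, ∀ p : ℕ,
    ∀ _ : Fact p.Prime, P ≤ p → ∀ χ : DirichletCharacter ℂ p, WB χ R (22 * (R + 1) * √(p : ℝ)) →
    ∀ m : ℕ, 0 < m → ¬ p ∣ m → ∀ N : ℕ, (m : ℝ) * (p : ℝ) ^ (1 / 2 + δ) ≤ N →
    ∀ v : ℕ → ℂ, (∀ t, v (t + m) = v t) → (∀ t, ‖v t‖ ≤ 1) → ∀ r : ℕ, 1 ≤ r → r ≤ H →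
    ∀ (c : Fin r → Bool) (A C : Fin r → ℕ), (∀ l, 1 ≤ A l ∧ A l ≤ H) → (∀ l, C l ≤ Bd) →
    (∀ l l', l ≠ l' → A l * C l' ≠ A l' * C l) → ∀ x : ℕ, x ≤ N →
    ‖∑ t ∈ range x, v t * ∏ l, cj (c l) (χ ((A l * t + C l : ℕ) : ZMod p))‖ ≤ η * N := by
  obtain ⟨k, hk⟩ : ∃ k : ℕ, k = ⌈1 / δ⌉₊ + 2 := ⟨_, rfl⟩
  have hk2 : 2 ≤ k := by omega
  have hkδ : 1 / δ ≤ k := by
    rw [hk]
    push_cast
    have := Nat.le_ceil (1 / δ)
    linarith
  obtain ⟨R, hR⟩ : ∃ R : ℕ, R = 2 * k * H := ⟨_, rfl⟩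
  obtain ⟨P, hP⟩ := eventually_atTop.1 (large H Bd k R hk2 hη hδ)
  refine ⟨R, P, ?_⟩
  intro p hpf hPp χ hχ m hm hmp N hN v hv hvb r hr hrH c A C hA hC hne x hx
  have hpp : p.Prime := hpf.out
  obtain ⟨h1, h2, h3, h4, h5⟩ := hP p hPp
  have hp0 : (0 : ℝ) < p := by exact_mod_cast hpp.pos
  have hp1 : (1 : ℝ) ≤ p := by exact_mod_cast hpp.one_le
  have hm0 : (0 : ℝ) < m := by exact_mod_cast hm
  have hN0 : (0 : ℝ) ≤ N := Nat.cast_nonneg N
  have hterm : ∀ t : ℕ, ‖v t * ∏ l, cj (c l) (χ ((A l * t + C l : ℕ) : ZMod p))‖ ≤ 1 := by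
    intro t
    rw [norm_mul, norm_prod]
    refine mul_le_one₀ (hvb t) (prod_nonneg fun _ _ => norm_nonneg _)
      (prod_le_one (fun _ _ => norm_nonneg _) fun l _ => ?_)
    rw [cj_norm]
    exact DirichletCharacter.norm_le_one χ _
  by_cases hxs : (x : ℝ) ≤ η * N
  · refine (norm_sum_le _ _).trans ((sum_le_sum fun t _ => hterm t).trans ?_)
    rw [sum_const, card_range, nsmul_eq_mul, mul_one]
    exact hxs
  push Not at hxs
  -- parameters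
  obtain ⟨U, w, hU1, hU, hw0, hw, hUw⟩ := dirichlet hpp hmp
  obtain ⟨M, hM⟩ : ∃ M : ℕ, M = ⌈(p : ℝ) ^ (((2 * k : ℕ) : ℝ)⁻¹)⌉₊ := ⟨_, rfl⟩
  have hMle : (p : ℝ) ≤ (M : ℝ) ^ (2 * k) := by
    calc (p : ℝ) = ((p : ℝ) ^ (((2 * k : ℕ) : ℝ)⁻¹)) ^ (2 * k) :=
          (Real.rpow_inv_natCast_pow hp0.le (by omega)).symm
      _ ≤ (M : ℝ) ^ (2 * k) := by
          refine pow_le_pow_left₀ (by positivity) ?_ _
          rw [hM]
          exact Nat.le_ceil _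
  have hk0 : (0 : ℝ) < k := by exact_mod_cast (by omega : 0 < k)
  have hM1 : (M : ℝ) ≤ 2 * (p : ℝ) ^ (((2 * k : ℕ) : ℝ)⁻¹) := by
    have e1 : (M : ℝ) < (p : ℝ) ^ (((2 * k : ℕ) : ℝ)⁻¹) + 1 := by
      rw [hM]
      exact Nat.ceil_lt_add_one (by positivity)
    have e2 : (1 : ℝ) ≤ (p : ℝ) ^ (((2 * k : ℕ) : ℝ)⁻¹) := Real.one_le_rpow hp1 (by positivity)
    linarith
  have hM2 : (M : ℝ) ≤ 2 * (p : ℝ) ^ (1 / 4 : ℝ) := by
    refine hM1.trans (mul_le_mul_of_nonneg_left (Real.rpow_le_rpow_of_exponent_le hp1 ?_) (by norm_num))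
    rw [one_div]
    refine inv_anti₀ (by norm_num) ?_
    exact_mod_cast (by omega : 4 ≤ 2 * k)
  have hM3 : (M : ℝ) ≤ 2 * (p : ℝ) ^ (δ / 2) := by
    refine hM1.trans (mul_le_mul_of_nonneg_left (Real.rpow_le_rpow_of_exponent_le hp1 ?_) (by norm_num))
    push_cast
    rw [inv_le_comm₀ (by positivity) (by positivity), inv_div]
    rw [div_le_iff₀ hδ] at hkδ ⊢
    linarith
  have hUs : (U : ℝ) ≤ √(p : ℝ) := by
    refine (Nat.cast_le.2 hU).trans ?_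
    exact Real.nat_sqrt_le_real_sqrt
  have hVs : ((Nat.sqrt p : ℕ) : ℝ) ≤ √(p : ℝ) := Real.nat_sqrt_le_real_sqrt
  have hsmall : H * Bd + Nat.sqrt p * (H * Bd + 1) * M * H ^ 2 < p := by
    have e1 : ((H * Bd + Nat.sqrt p * (H * Bd + 1) * M * H ^ 2 : ℕ) : ℝ) < p := by
      push_cast
      refine lt_of_le_of_lt ?_ h2
      have e2 : √(p : ℝ) * (p : ℝ) ^ (1 / 4 : ℝ) = (p : ℝ) ^ (3 / 4 : ℝ) := by
        rw [Real.sqrt_eq_rpow, ← Real.rpow_add hp0]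
        norm_num
      calc (H : ℝ) * Bd + (Nat.sqrt p : ℕ) * (H * Bd + 1) * M * H ^ 2
          ≤ (H : ℝ) * Bd + √(p : ℝ) * (H * Bd + 1) * (2 * (p : ℝ) ^ (1 / 4 : ℝ)) * H ^ 2 := by gcongr
        _ = H * Bd + 2 * (H * Bd + 1) * H ^ 2 * (√(p : ℝ) * (p : ℝ) ^ (1 / 4 : ℝ)) := by ring
        _ = H * Bd + 2 * (H * Bd + 1) * H ^ 2 * (p : ℝ) ^ (3 / 4 : ℝ) := by rw [e2]
    exact_mod_cast e1
  obtain ⟨X, hX⟩ : ∃ X : ℕ, X = x / m := ⟨_, rfl⟩
  have hXlow : η / 2 * (p : ℝ) ^ (1 / 2 + δ) ≤ X := by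
    have e1 : (x : ℝ) < m * (X + 1) := by
      rw [hX]
      have := Nat.lt_mul_div_succ x hm
      exact_mod_cast this
    have e2 : η * (m * (p : ℝ) ^ (1 / 2 + δ)) < m * (X + 1) :=
      lt_of_le_of_lt (mul_le_mul_of_nonneg_left hN hη.le) (hxs.trans e1)
    have e3 : η * (p : ℝ) ^ (1 / 2 + δ) < X + 1 := by
      refine lt_of_mul_lt_mul_left ?_ hm0.le
      linarith
    linarith
  have hX1 : 1 ≤ X := by
    have : (1 : ℝ) ≤ X := h4.trans hXlow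
    exact_mod_cast this
  have hX0 : (0 : ℝ) < X := by exact_mod_cast hX1
  have hsm : (1 / √(p : ℝ) + √(p : ℝ) / X) * (k ^ (2 * k) + 22 * (R + 1)) ≤ (η / 4) ^ (2 * k) := by
    refine le_trans ?_ h3
    have e1 : √(p : ℝ) / X ≤ 2 / η * (p : ℝ) ^ (-δ) := by
      rw [div_le_iff₀ hX0]
      calc √(p : ℝ) = 2 / η * (p : ℝ) ^ (-δ) * (η / 2 * (p : ℝ) ^ (1 / 2 + δ)) := by
            rw [Real.sqrt_eq_rpow]
            have : (p : ℝ) ^ (-δ) * (p : ℝ) ^ (1 / 2 + δ) = (p : ℝ) ^ (1 / 2 : ℝ) := by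
              rw [← Real.rpow_add hp0]
              congr 1
              ring
            rw [← this]
            field_simp
        _ ≤ 2 / η * (p : ℝ) ^ (-δ) * X := by gcongr
    gcongr
  -- each residue class
  have hmz : (m : ZMod p) ≠ 0 := fun h => hmp ((ZMod.natCast_eq_zero_iff m p).1 h)
  have hcls : ∀ a, ‖∑ s ∈ range X, ∏ l, cj (c l) (χ ((A l * (m * s + a) + C l : ℕ) : ZMod p))‖ ≤
      η / 4 * X + 2 * ((U * (H * Bd + 1) : ℕ) : ℝ) * M := by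
    intro a
    have e1 := short (p := p) (χ := χ) (r := r) (k := k) (M := M) (R := R) (by omega) hχ
      (by rw [hR]; exact Nat.mul_le_mul_left _ hrH) hr c
      (fun l => (A l : ZMod p) * m) (fun l => (A l : ZMod p) * a + C l) (fun l h => by
        rcases mul_eq_zero.1 h with h | h
        · have h7 := Nat.le_of_dvd (hA l).1 ((ZMod.natCast_eq_zero_iff _ _).1 h)
          have := (hA l).2
          omega
        · exact hmz h) (U * (H * Bd + 1)) (fun l l' n n' h =>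
          inj_roots A C hA hC hne m a hmp U w hw0 hUw h1 (Nat.sqrt p) hw hsmall l l' n n' h)
      hMle hX1 (η := η / 4) (by positivity) hsm
    refine le_trans (le_of_eq ?_) e1
    congr 1
    refine sum_congr rfl fun s _ => ?_
    unfold gg
    refine prod_congr rfl fun l _ => ?_
    congr 2
    push_cast
    ring
  have hvm : ∀ s a, v (m * s + a) = v a := by
    intro s
    induction s with
    | zero => intro a; rw [mul_zero, zero_add]
    | succ s ih =>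
      intro a
      rw [← ih a, ← hv (m * s + a)]
      congr 1
      ring
  have hxd : x = m * X + x % m := by rw [hX]; exact (Nat.div_add_mod x m).symm
  have hmain : ‖∑ t ∈ range x, v t * ∏ l, cj (c l) (χ ((A l * t + C l : ℕ) : ZMod p))‖ ≤
      m * (η / 4 * X + 2 * ((U * (H * Bd + 1) : ℕ) : ℝ) * M) + m := by
    conv_lhs => rw [hxd]
    rw [sum_range_add]
    refine (norm_add_le _ _).trans (add_le_add ?_ ?_)
    · rw [split_sum]
      refine (norm_sum_le _ _).trans ?_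
      calc ∑ a ∈ range m, ‖∑ s ∈ range X, v (m * s + a) *
            ∏ l, cj (c l) (χ ((A l * (m * s + a) + C l : ℕ) : ZMod p))‖
          ≤ ∑ _a ∈ range m, (η / 4 * X + 2 * ((U * (H * Bd + 1) : ℕ) : ℝ) * M) := by
            refine sum_le_sum fun a _ => ?_
            have e2 : ∑ s ∈ range X, v (m * s + a) *
                ∏ l, cj (c l) (χ ((A l * (m * s + a) + C l : ℕ) : ZMod p)) =
                v a * ∑ s ∈ range X,
                ∏ l, cj (c l) (χ ((A l * (m * s + a) + C l : ℕ) : ZMod p)) := by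
              rw [mul_sum]
              exact sum_congr rfl fun s _ => by rw [hvm]
            rw [e2, norm_mul]
            exact (mul_le_of_le_one_left (norm_nonneg _) (hvb a)).trans (hcls a)
        _ = m * (η / 4 * X + 2 * ((U * (H * Bd + 1) : ℕ) : ℝ) * M) := by
            rw [sum_const, card_range, nsmul_eq_mul]
    · refine (norm_sum_le _ _).trans ((sum_le_sum fun t _ => hterm _).trans ?_)
      rw [sum_const, card_range, nsmul_eq_mul, mul_one]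
      exact_mod_cast (Nat.mod_lt x hm).le
  refine hmain.trans ?_
  -- numerics
  have e1 : (m : ℝ) * X ≤ x := by
    rw [hX]
    exact_mod_cast Nat.mul_div_le x m
  have e2 : (x : ℝ) ≤ N := by exact_mod_cast hx
  have e3 : (1 : ℝ) ≤ √(p : ℝ) * (p : ℝ) ^ (δ / 2) := by
    have a1 : (1 : ℝ) ≤ √(p : ℝ) := Real.one_le_sqrt.2 hp1
    have a2 : (1 : ℝ) ≤ (p : ℝ) ^ (δ / 2) := Real.one_le_rpow hp1 (by positivity)
    nlinarith
  have e4 : √(p : ℝ) * (p : ℝ) ^ (δ / 2) = (p : ℝ) ^ (1 / 2 + δ) * (p : ℝ) ^ (-(δ / 2)) := by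
    rw [Real.sqrt_eq_rpow, ← Real.rpow_add hp0, ← Real.rpow_add hp0]
    congr 1
    ring
  have e5 : (m : ℝ) * (2 * ((U * (H * Bd + 1) : ℕ) : ℝ) * M) + m ≤ η / 4 * N := by
    push_cast
    calc (m : ℝ) * (2 * (U * (H * Bd + 1)) * M) + m
        ≤ m * (2 * (√(p : ℝ) * (H * Bd + 1)) * (2 * (p : ℝ) ^ (δ / 2))) +
          m * (√(p : ℝ) * (p : ℝ) ^ (δ / 2)) := by
          gcongr
          exact le_mul_of_one_le_right hm0.le e3
      _ = m * (√(p : ℝ) * (p : ℝ) ^ (δ / 2)) * (4 * (H * Bd + 1) + 1) := by ring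
      _ = (m * (p : ℝ) ^ (1 / 2 + δ)) * ((p : ℝ) ^ (-(δ / 2)) * (4 * (H * Bd + 1) + 1)) := by
          rw [e4]
          ring
      _ ≤ N * (η / 4) := by gcongr
      _ = η / 4 * N := by ring
  have e6 : (m : ℝ) * (η / 4 * X + 2 * ((U * (H * Bd + 1) : ℕ) : ℝ) * M) + m =
      η / 4 * (m * X) + ((m : ℝ) * (2 * ((U * (H * Bd + 1) : ℕ) : ℝ) * M) + m) := by ring
  rw [e6]
  have e7 : η / 4 * (m * X) ≤ η / 4 * N := mul_le_mul_of_nonneg_left (e1.trans e2) (by positivity)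
  nlinarith

end Pool.Agent.H18.QT
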