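import Mathlib
import Pool.Agent.H2.EL.FinC
import Pool.Agent.H18.QT.Chf
import Pool.Agent.H18.QT.Kar
import Pool.Agent.H75.QT.Comps

/-!
# [H18 QT Prm] primitive characters of squarefree conductor `q ≤ √N`

`WeilD D`: complete sums for the characters `χ ≠ 1` with `χ ^ D = 1` modulo large primes.
`fixedD`, `primD`: the two theorems for the characters with `χ ^ D = 1`.
-/

set_option autoImplicit false

namespace Pool.Agent.H18.QT

open Finset Pool.H2.EL

/-- bound for complete sums, for the characters with `χ ^ D = 1` -/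
def WeilD (D : ℕ) : Prop := ∀ R : ℕ, ∃ P : ℕ, ∀ p : ℕ, ∀ _ : Fact p.Prime, P ≤ p →
  ∀ χ : DirichletCharacter ℂ p, χ ≠ 1 → χ ^ D = 1 → WB χ R (22 * (R + 1) * √(p : ℝ))

lemma conj_chi {q : ℕ} [NeZero q] (χ : DirichletCharacter ℂ q) (y : ZMod q) :
    (starRingEnd ℂ) (χ y) = χ⁻¹ y := by
  rw [← MulChar.star_apply']
  rfl

/-- the quotient of two characters -/
lemma quot {q q' : ℕ} (c c' : (p : ℕ) → DirichletCharacter ℂ p)
    (h2 : ∀ p, p ∉ q.primeFactors → c p = 1) (h2' : ∀ p, p ∉ q'.primeFactors → c' p = 1)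
    {p : ℕ} [Fact p.Prime] (hne : c p ≠ c' p) (n : ℕ) :
    (∏ r ∈ q.primeFactors, c r (n : ZMod r)) *
      (starRingEnd ℂ) (∏ r ∈ q'.primeFactors, c' r (n : ZMod r)) =
    (c p * (c' p)⁻¹) (n : ZMod p) * ((∏ r ∈ q.primeFactors.erase p, c r (n : ZMod r)) *
      (starRingEnd ℂ) (∏ r ∈ q'.primeFactors.erase p, c' r (n : ZMod r))) := by
  classical
  have hNe : NeZero p := ⟨(Fact.out : p.Prime).ne_zero⟩
  by_cases h : p ∈ q.primeFactors
  · by_cases h' : p ∈ q'.primeFactors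
    · rw [← mul_prod_erase _ _ h, ← mul_prod_erase _ _ h', map_mul, MulChar.mul_apply, conj_chi]
      ring
    · rw [← mul_prod_erase _ _ h, erase_eq_of_notMem h', h2' p h', inv_one, mul_one]
      ring
  · by_cases h' : p ∈ q'.primeFactors
    · rw [← mul_prod_erase _ _ h', erase_eq_of_notMem h, h2 p h, one_mul, map_mul, conj_chi]
      ring
    · exact absurd ((h2 p h).trans (h2' p h').symm) hne

lemma prod_per (s : Finset ℕ) (c : (p : ℕ) → DirichletCharacter ℂ p) (n m : ℕ)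
    (hm : ∀ r ∈ s, r ∣ m) :
    ∏ r ∈ s, c r ((n + m : ℕ) : ZMod r) = ∏ r ∈ s, c r (n : ZMod r) := by
  refine prod_congr rfl fun r hr => ?_
  congr 1
  push_cast
  rw [(ZMod.natCast_eq_zero_iff m r).2 (hm r hr), add_zero]

lemma prod_le {q : ℕ} (hq : Squarefree q) (p : ℕ) : ∏ r ∈ q.primeFactors.erase p, r ≤ q := by
  calc ∏ r ∈ q.primeFactors.erase p, r ≤ ∏ r ∈ q.primeFactors, r :=
        prod_le_prod_of_subset_of_one_le' (erase_subset _ _) fun r hr _ =>
          (Nat.prime_of_mem_primeFactors hr).one_le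
    _ = q := Nat.prod_primeFactors_of_squarefree hq

/-- two characters -/
theorem pairD {H h0 : ℕ} {η : ℝ} (hη : 0 < η) {D : ℕ} (hW : WeilD D) :
    ∃ P : ℕ, ∀ q q' : ℕ, Squarefree q → Squarefree q' → ∀ (χ : DirichletCharacter ℂ q)
    (χ' : DirichletCharacter ℂ q') (c c' : (p : ℕ) → DirichletCharacter ℂ p),
    (∀ n : ℕ, χ (n : ZMod q) = ∏ p ∈ q.primeFactors, c p (n : ZMod p)) →
    (∀ n : ℕ, χ' (n : ZMod q') = ∏ p ∈ q'.primeFactors, c' p (n : ZMod p)) →
    (∀ p, p ∉ q.primeFactors → c p = 1) → (∀ p, p ∉ q'.primeFactors → c' p = 1) →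
    (∀ p, (c p) ^ D = 1) → (∀ p, (c' p) ^ D = 1) → ∀ p : ℕ, p.Prime → P ≤ p → c p ≠ c' p →
    ∀ N : ℕ, q * q' ≤ N → ∀ r : ℕ, 1 ≤ r → r ≤ H → ∀ (b : Fin r → Bool) (α β : Fin r → ℕ),
    (∀ l, 1 ≤ α l ∧ α l ≤ H) → (∀ l, β l ≤ H) →
    (∀ l l', l ≠ l' → α l * (β l' + h0) ≠ α l' * (β l + h0)) → ∀ x : ℕ, x ≤ N →
    ‖∑ t ∈ range x, (∏ l, cj (b l) (χ ((α l * t + (β l + h0) : ℕ) : ZMod q))) *
      (starRingEnd ℂ) (∏ l, cj (b l) (χ' ((α l * t + (β l + h0) : ℕ) : ZMod q')))‖ ≤ η * N := by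
  classical
  obtain ⟨R, P, hkar⟩ := kar H (H + h0) hη (δ := 1 / 2) (by norm_num)
  obtain ⟨P', hP'⟩ := hW R
  refine ⟨P + P', ?_⟩
  intro q q' hq hq' χ χ' c c' h1 h1' h2 h2' h3 h3' p hp hPp hne N hN r hr hrH b α β hα hβ hfr x hx
  have hpf : Fact p.Prime := ⟨hp⟩
  have hNe : NeZero p := ⟨hp.ne_zero⟩
  obtain ⟨ψ, hψ⟩ : ∃ ψ : DirichletCharacter ℂ p, ψ = c p * (c' p)⁻¹ := ⟨_, rfl⟩
  have hψ1 : ψ ≠ 1 := by
    rw [hψ]
    intro h
    exact hne (mul_inv_eq_one.1 h)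
  have hψD : ψ ^ D = 1 := by
    rw [hψ, mul_pow, inv_pow, h3, h3', inv_one, mul_one]
  obtain ⟨m, hm⟩ : ∃ m : ℕ, m = (∏ r ∈ q.primeFactors.erase p, r) *
    ∏ r ∈ q'.primeFactors.erase p, r := ⟨_, rfl⟩
  have hpos : ∀ s : ℕ, 0 < ∏ r ∈ s.primeFactors.erase p, r := fun s =>
    prod_pos fun r hr => (Nat.prime_of_mem_primeFactors (mem_of_mem_erase hr)).pos
  have hm0 : 0 < m := by rw [hm]; exact Nat.mul_pos (hpos q) (hpos q')
  have hndv : ∀ s : ℕ, ¬ p ∣ ∏ r ∈ s.primeFactors.erase p, r := by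
    intro s h
    obtain ⟨r, hr, hpr⟩ := (hp.prime.dvd_finsetProd_iff _).1 h
    rw [mem_erase] at hr
    exact hr.1 ((Nat.prime_dvd_prime_iff_eq hp (Nat.prime_of_mem_primeFactors hr.2)).1 hpr).symm
  have hpm : ¬ p ∣ m := by
    rw [hm]
    intro h
    exact (hp.dvd_mul.1 h).elim (hndv q) (hndv q')
  have hmN : m * p ≤ N := by
    refine le_trans ?_ hN
    by_cases h : p ∈ q.primeFactors
    · have e1 : p * ∏ r ∈ q.primeFactors.erase p, r = q := by
        rw [mul_prod_erase _ (fun r => r) h]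
        exact Nat.prod_primeFactors_of_squarefree hq
      have e2 := prod_le hq' p
      calc m * p = (p * ∏ r ∈ q.primeFactors.erase p, r) * ∏ r ∈ q'.primeFactors.erase p, r := by
            rw [hm]; ring
        _ = q * ∏ r ∈ q'.primeFactors.erase p, r := by rw [e1]
        _ ≤ q * q' := Nat.mul_le_mul_left _ e2
    · have h' : p ∈ q'.primeFactors := by
        by_contra h'
        exact hne ((h2 p h).trans (h2' p h').symm)
      have e1 : p * ∏ r ∈ q'.primeFactors.erase p, r = q' := by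
        rw [mul_prod_erase _ (fun r => r) h']
        exact Nat.prod_primeFactors_of_squarefree hq'
      have e2 := prod_le hq p
      calc m * p = (∏ r ∈ q.primeFactors.erase p, r) * (p * ∏ r ∈ q'.primeFactors.erase p, r) := by
            rw [hm]; ring
        _ = (∏ r ∈ q.primeFactors.erase p, r) * q' := by rw [e1]
        _ ≤ q * q' := Nat.mul_le_mul_right _ e2
  obtain ⟨V, hV⟩ : ∃ V : ℕ → ℂ, V = fun n => (∏ r ∈ q.primeFactors.erase p, c r (n : ZMod r)) *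
      (starRingEnd ℂ) (∏ r ∈ q'.primeFactors.erase p, c' r (n : ZMod r)) := ⟨_, rfl⟩
  have hVper : ∀ n a, V (n + m * a) = V n := by
    intro n a
    rw [hV]
    simp only
    rw [prod_per _ c n (m * a) fun r hr => by
        rw [hm, mul_assoc]
        exact Dvd.dvd.mul_right (dvd_prod_of_mem (fun r => r) hr) _,
      prod_per _ c' n (m * a) fun r hr => by
        rw [hm, mul_assoc]
        exact Dvd.dvd.mul_left (Dvd.dvd.mul_right (dvd_prod_of_mem (fun r => r) hr) _) _]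
  have hVb : ∀ n, ‖V n‖ ≤ 1 := by
    intro n
    rw [hV]
    simp only
    rw [norm_mul, RCLike.norm_conj, norm_prod, norm_prod]
    exact mul_le_one₀ (prod_le_one (fun _ _ => norm_nonneg _) fun r _ =>
      DirichletCharacter.norm_le_one _ _) (prod_nonneg fun _ _ => norm_nonneg _)
      (prod_le_one (fun _ _ => norm_nonneg _) fun r _ => DirichletCharacter.norm_le_one _ _)
  have hquot : ∀ n : ℕ, χ (n : ZMod q) * (starRingEnd ℂ) (χ' (n : ZMod q')) = ψ (n : ZMod p) * V n := by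
    intro n
    rw [h1, h1', quot c c' h2 h2' hne n, hψ, hV]
  have hfin := hkar p hpf (by omega) ψ (hP' p hpf (by omega) ψ hψ1 hψD) m hm0 hpm N (by
      rw [show (1 / 2 + 1 / 2 : ℝ) = 1 by norm_num, Real.rpow_one]
      exact_mod_cast hmN)
    (fun t => ∏ l, cj (b l) (V (α l * t + (β l + h0)))) (fun t => by
      refine prod_congr rfl fun l _ => ?_
      congr 1
      rw [show α l * (t + m) + (β l + h0) = α l * t + (β l + h0) + m * α l by ring, hVper])
    (fun t => by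
      rw [norm_prod]
      refine prod_le_one (fun _ _ => norm_nonneg _) fun l _ => ?_
      rw [cj_norm]
      exact hVb _) r hr hrH b α (fun l => β l + h0) hα
    (fun l => by have := hβ l; omega) hfr x hx
  refine le_trans (le_of_eq ?_) hfin
  congr 1
  refine sum_congr rfl fun t _ => ?_
  rw [map_prod, ← prod_mul_distrib, ← prod_mul_distrib]
  refine prod_congr rfl fun l _ => ?_
  have e1 : (starRingEnd ℂ) (cj (b l) (χ' ((α l * t + (β l + h0) : ℕ) : ZMod q'))) =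
      cj (b l) ((starRingEnd ℂ) (χ' ((α l * t + (β l + h0) : ℕ) : ZMod q'))) := by
    unfold cj
    cases b l <;> simp
  rw [e1, ← cj_mul', hquot, ← cj_mul', mul_comm]

/-- all characters of modulus below `n` -/
noncomputable def cands (n : ℕ) : Finset (Σ q : ℕ, DirichletCharacter ℂ q) :=
  open Classical in
  (univ : Finset (Σ q : Fin n, DirichletCharacter ℂ (q : ℕ))).image fun z => ⟨(z.1 : ℕ), z.2⟩

lemma mem_cands {n : ℕ} {z : Σ q : ℕ, DirichletCharacter ℂ q} (h : z.1 < n) : z ∈ cands n := by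
  classical
  unfold cands
  exact mem_image.2 ⟨⟨⟨z.1, h⟩, z.2⟩, mem_univ _, rfl⟩

lemma ext_chi {z z' : Σ q : ℕ, DirichletCharacter ℂ q} (hz : z.1 ≠ 0) (h1 : z.1 = z'.1)
    (h2 : ∀ n : ℕ, z.2 (n : ZMod z.1) = z'.2 (n : ZMod z'.1)) : z = z' := by
  obtain ⟨q, χ⟩ := z
  obtain ⟨q', χ'⟩ := z'
  simp only at h1 h2 hz
  subst h1
  have hNe : NeZero q := ⟨hz⟩
  congr 1
  refine MulChar.ext' fun y => ?_
  have := h2 y.val
  rwa [ZMod.natCast_zmod_val] at this

/-- few primitive characters are exceptional -/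
theorem pigD {D : ℕ} (hW : WeilD D) (h0 H : ℕ) {δ : ℝ} (hδ : 0 < δ) :
    ∃ K : ℕ, ∀ N : ℕ, ∀ w : ℕ → ℂ, (∀ n, ‖w n‖ ≤ 1) →
      ∀ Bad : Finset (Σ q : ℕ, DirichletCharacter ℂ q),
      (∀ z ∈ Bad, Squarefree z.1 ∧ z.1 ^ 2 ≤ N ∧ z.2.IsPrimitive ∧ z.2 ^ D = 1 ∧
        ¬ Unc (fun n => w n * z.2 ((n + h0 : ℕ) : ZMod z.1)) h0 H N δ) → Bad.card ≤ K := by
  classical
  obtain ⟨M, hM⟩ := exists_nat_ge (2 / (δ / 2) ^ 2)
  have hδ2 : 0 < δ / 2 := by positivity
  have hη : 0 < (δ / 2) ^ 2 / 2 := by positivity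
  obtain ⟨P, hP⟩ := pairD (H := H) (h0 := h0) hη hW
  obtain ⟨R, hR⟩ := exists_nat_ge (4 / δ)
  refine ⟨Fintype.card (Cf H × Fin (R + 1)) *
    Fintype.card ((r : Fin P) → DirichletCharacter ℂ (r : ℕ)) * M + (cands (R + 1)).card,
    fun N w hw Bad hBad => ?_⟩
  by_cases hNR : N < R
  · refine le_trans (card_le_card fun z hz => mem_cands ?_) (Nat.le_add_left _ _)
    obtain ⟨h1, h2, _⟩ := hBad z hz
    have : z.1 ≤ z.1 ^ 2 := Nat.le_self_pow two_ne_zero _
    omega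
  push Not at hNR
  have hN : 4 / δ ≤ N := hR.trans (by exact_mod_cast hNR)
  by_contra hcon
  push Not at hcon
  have hcon' : Fintype.card (Cf H × Fin (R + 1)) *
    Fintype.card ((r : Fin P) → DirichletCharacter ℂ (r : ℕ)) * M < Bad.card := by omega
  have hcmp : ∀ z : Σ q : ℕ, DirichletCharacter ℂ q, ∃ c : (p : ℕ) → DirichletCharacter ℂ p,
      Squarefree z.1 →
      (∀ n : ℕ, z.2 (n : ZMod z.1) = ∏ p ∈ z.1.primeFactors, c p (n : ZMod p)) ∧
      (∀ p, p ∉ z.1.primeFactors → c p = 1) ∧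
      (∀ D : ℕ, z.2 ^ D = 1 → ∀ p, (c p) ^ D = 1) ∧
      (z.2.IsPrimitive → ∀ p ∈ z.1.primeFactors, c p ≠ 1) := by
    intro z
    by_cases hz : Squarefree z.1
    · obtain ⟨c, hc⟩ := Pool.Agent.H75.QT.comps hz z.2
      exact ⟨c, fun _ => hc⟩
    · exact ⟨fun _ => 1, fun h => absurd h hz⟩
  choose c hc using hcmp
  have h2 : ∀ z ∈ Bad, ∃ y : Cf H × Fin (R + 1), y.1.Ok h0 ∧
      δ / 2 * N < ‖∑ t ∈ range (N * y.2 / R),
        (∏ l, cj (y.1.2.2.2 l) (w ((y.1.2.1 l : ℕ) * t + (y.1.2.2.1 l : ℕ)))) *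
        ∏ l, cj (y.1.2.2.2 l)
          (z.2 (((y.1.2.1 l : ℕ) * t + ((y.1.2.2.1 l : ℕ) + h0) : ℕ) : ZMod z.1))‖ := by
    intro z hz
    exact cutg hδ hR hN w hw (fun n => z.2 (n : ZMod z.1))
      (fun n => DirichletCharacter.norm_le_one _ _) (hBad z hz).2.2.2.2
  obtain ⟨z00, hz00⟩ : Bad.Nonempty := card_pos.1 (lt_of_le_of_lt (Nat.zero_le _) hcon')
  have : Nonempty (Cf H × Fin (R + 1)) := ⟨(h2 z00 hz00).choose⟩
  choose! y hy1 hy2 using h2
  obtain ⟨g, _, hz2⟩ := exists_lt_card_fiber_of_mul_lt_card_of_maps_to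
    (s := Bad) (t := (univ : Finset ((Cf H × Fin (R + 1)) ×
      ((r : Fin P) → DirichletCharacter ℂ (r : ℕ)))))
    (f := fun z => (y z, fun r : Fin P => c z (r : ℕ))) (n := M) (fun _ _ => mem_univ _) (by
      rw [card_univ, Fintype.card_prod]
      exact hcon')
  obtain ⟨T, hT, hTc⟩ := exists_subset_card_eq hz2.le
  obtain ⟨e, he, heT⟩ : ∃ e : Fin M → Σ q : ℕ, DirichletCharacter ℂ q,
      Function.Injective e ∧ ∀ m, e m ∈ T :=
    ⟨fun m => ((T.equivFinOfCardEq hTc).symm m : Σ q : ℕ, DirichletCharacter ℂ q),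
      Subtype.val_injective.comp (T.equivFinOfCardEq hTc).symm.injective, fun m =>
      ((T.equivFinOfCardEq hTc).symm m).2⟩
  have heB : ∀ m, e m ∈ Bad := fun m => (mem_filter.1 (hT (heT m))).1
  have hez : ∀ m, y (e m) = g.1 ∧ (fun r : Fin P => c (e m) (r : ℕ)) = g.2 := fun m => by
    have h := (mem_filter.1 (hT (heT m))).2
    rw [← h]
    exact ⟨rfl, rfl⟩
  have hMpos : 0 < M := by
    have : (0 : ℝ) < M := lt_of_lt_of_le (by positivity) hM
    exact_mod_cast this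
  have hok : g.1.1.Ok h0 := by
    rw [← (hez ⟨0, hMpos⟩).1]
    exact hy1 _ (heB _)
  have hxN : N * g.1.2 / R ≤ N := by
    refine Nat.div_le_of_le_mul ?_
    rw [mul_comm]
    exact Nat.mul_le_mul_right _ (Nat.le_of_lt_succ g.1.2.2)
  have hα : ∀ l, 1 ≤ (g.1.1.2.1 l : ℕ) ∧ (g.1.1.2.1 l : ℕ) ≤ H :=
    fun l => ⟨hok.2.1 l, Nat.le_of_lt_succ (g.1.1.2.1 l).2⟩
  have hβ : ∀ l, (g.1.1.2.2.1 l : ℕ) ≤ H := fun l => Nat.le_of_lt_succ (g.1.1.2.2.1 l).2
  have hrH : (g.1.1.1 : ℕ) ≤ H := Nat.le_of_lt_succ g.1.1.1.2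
  have hqq : ∀ m m', (e m).1 * (e m').1 ≤ N := by
    intro m m'
    have h1 := (hBad _ (heB m)).2.1
    have h2 := (hBad _ (heB m')).2.1
    rcases le_total (e m).1 (e m').1 with h | h
    · refine le_trans ?_ h2
      rw [sq]
      exact Nat.mul_le_mul_right _ h
    · refine le_trans ?_ h1
      rw [sq]
      exact Nat.mul_le_mul_left _ h
  obtain ⟨m, hm⟩ := bessel hxN
    (fun t => ∏ l, cj (g.1.1.2.2.2 l) (w ((g.1.1.2.1 l : ℕ) * t + (g.1.1.2.2.1 l : ℕ)))) (fun t => by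
      rw [norm_prod]
      refine prod_le_one (fun _ _ => norm_nonneg _) fun l _ => ?_
      rw [cj_norm]
      exact hw _)
    (fun m t => ∏ l, cj (g.1.1.2.2.2 l)
      ((e m).2 (((g.1.1.2.1 l : ℕ) * t + ((g.1.1.2.2.1 l : ℕ) + h0) : ℕ) : ZMod (e m).1)))
    (fun m t => by
      rw [norm_prod]
      refine prod_le_one (fun _ _ => norm_nonneg _) fun l _ => ?_
      rw [cj_norm]
      exact DirichletCharacter.norm_le_one _ _) hδ2 hM (by
      intro m m' hmm
      obtain ⟨a1, _, a3, a4, _⟩ := hBad _ (heB m)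
      obtain ⟨b1, _, b3, b4, _⟩ := hBad _ (heB m')
      obtain ⟨c1, c2, c3, c4⟩ := hc _ a1
      obtain ⟨d1, d2, d3, d4⟩ := hc _ b1
      -- a large prime
      obtain ⟨p, hp⟩ : ∃ p, c (e m) p ≠ c (e m') p := by
        by_contra hcc
        push Not at hcc
        apply he.ne hmm
        have hpf : ∀ p, p ∈ (e m).1.primeFactors ↔ p ∈ (e m').1.primeFactors := by
          intro p
          constructor
          · intro h
            by_contra h'
            exact c4 a3 p h ((hcc p).trans (d2 p h'))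
          · intro h
            by_contra h'
            exact d4 b3 p h ((hcc p).symm.trans (c2 p h'))
        have hpf' : (e m).1.primeFactors = (e m').1.primeFactors := ext hpf
        refine ext_chi a1.ne_zero ?_ fun n => ?_
        · rw [← Nat.prod_primeFactors_of_squarefree a1, ← Nat.prod_primeFactors_of_squarefree b1,
            hpf']
        · rw [c1, d1, hpf']
          exact prod_congr rfl fun p _ => by rw [hcc]
      have hpp : p.Prime := by
        by_contra h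
        apply hp
        rw [c2 p fun h' => h (Nat.prime_of_mem_primeFactors h'),
          d2 p fun h' => h (Nat.prime_of_mem_primeFactors h')]
      have hPp : P ≤ p := by
        by_contra h
        push Not at h
        apply hp
        have h1 := (hez m).2.trans (hez m').2.symm
        exact congrFun h1 ⟨p, h⟩
      exact hP _ _ a1 b1 _ _ _ _ c1 d1 c2 d2 (c3 D a4) (d3 D b4) p hpp hPp hp N (hqq m m') _
        hok.1 hrH _ _ _ hα hβ hok.2.2 _ hxN)
  have h5 := hy2 (e m) (heB m)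
  rw [(hez m).1] at h5
  linarith

/-- primitive characters of squarefree conductor `q ≤ √N` -/
theorem primD {D : ℕ} (hW : WeilD D) (k : ℕ) (h : Fin k → ℤ) (j : Fin k)
    (hne : ∀ i, i ≠ j → h i ≠ h j) {ε : ℝ} (hε : 0 < ε) :
    ∃ K : ℕ, ∀ N : ℕ, ∀ S : Finset (Fin k), j ∉ S →
      ∀ d : Fin k → ArithmeticFunction ℂ, (∀ i n, ‖d i n‖ ≤ 1) →
      ∃ E : Finset (Σ q : ℕ, DirichletCharacter ℂ q), E.card ≤ K ∧ ∀ q : ℕ, Squarefree q →
      q ^ 2 ≤ N → ∀ χ : DirichletCharacter ℂ q, χ.IsPrimitive → χ ^ D = 1 → ⟨q, χ⟩ ∉ E →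
      ∀ G : Fin k → ArithmeticFunction ℂ, (∀ i n, ‖G i n‖ ≤ 1) →
      (∀ i ∈ S, (G i).IsMultiplicative) → (∀ i, i ∉ S → i ≠ j → G i = d i) →
      (∀ n : ℕ, G j n = d j n * χ (n : ZMod q)) →
      ‖(1 / (N : ℂ)) * ∑ n ∈ Icc 1 N, ∏ i, G i ((n : ℤ) + h i).toNat‖ ≤ ε := by
  classical
  rcases k with _ | k
  · exact j.elim0
  obtain ⟨H, δ, N0, s, hδ, hs, hfin⟩ := fin_core k h j hne ε hε
  obtain ⟨K, hK⟩ := pigD hW (h j + s).toNat H hδ
  refine ⟨K + (cands (N0 + 1)).card, fun N S hjS d hd => ?_⟩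
  by_cases hN0 : N < N0
  · refine ⟨cands (N0 + 1), Nat.le_add_left _ _, fun q hq hqN χ _ _ hE => absurd (mem_cands ?_) hE⟩
    have : q ≤ q ^ 2 := Nat.le_self_pow two_ne_zero _
    show q < N0 + 1
    omega
  push Not at hN0
  obtain ⟨w, hw⟩ : ∃ w : ℕ → ℂ, w = fun n => ∏ x ∈ univ \ S, d x (n + (h x + s).toNat) := ⟨_, rfl⟩
  refine ⟨(cands (N + 1)).filter fun z => Squarefree z.1 ∧ z.1 ^ 2 ≤ N ∧ z.2.IsPrimitive ∧
    z.2 ^ D = 1 ∧
    ¬ Unc (fun n => w n * z.2 ((n + (h j + s).toNat : ℕ) : ZMod z.1)) (h j + s).toNat H N δ,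
    (hK N w (fun n => ?_) _ (fun z hz => (mem_filter.1 hz).2)).trans (Nat.le_add_right _ _), ?_⟩
  · rw [hw]
    simp only
    rw [norm_prod]
    exact prod_le_one (fun _ _ => norm_nonneg _) fun x _ => hd x _
  · intro q hq hqN χ hprim hχD hE G hG hGS hGd hGj
    have hunc : Unc (fun n => w n * χ ((n + (h j + s).toNat : ℕ) : ZMod q))
        (h j + s).toNat H N δ := by
      by_contra hcon
      refine hE (mem_filter.2 ⟨mem_cands ?_, hq, hqN, hprim, hχD, hcon⟩)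
      have : q ≤ q ^ 2 := Nat.le_self_pow two_ne_zero _
      show q < N + 1
      omega
    refine hfin N hN0 G S hjS hG hGS ?_
    have h1 : (fun n => ∏ x ∈ univ \ S, G x (n + (h x + s).toNat)) =
        fun n => w n * χ ((n + (h j + s).toNat : ℕ) : ZMod q) := by
      funext n
      have hjm : j ∈ univ \ S := by
        rw [mem_sdiff]
        exact ⟨mem_univ _, hjS⟩
      rw [hw]
      simp only
      rw [← mul_prod_erase _ _ hjm, ← mul_prod_erase _ (fun x => d x (n + (h x + s).toNat)) hjm,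
        hGj]
      have h2 : ∏ x ∈ (univ \ S).erase j, G x (n + (h x + s).toNat) =
          ∏ x ∈ (univ \ S).erase j, d x (n + (h x + s).toNat) := by
        refine prod_congr rfl fun x hx => ?_
        rw [mem_erase, mem_sdiff] at hx
        rw [hGd x hx.2.2 hx.1]
      rw [h2]
      ring
    rw [h1]
    exact hunc

/-- one character of large prime modulus, the range `N ≥ m p ^ (1/2 + δ)` -/
theorem fixedD {D : ℕ} (hW : WeilD D) (k : ℕ) (h : Fin k → ℤ) (j : Fin k)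
    (hne : ∀ i, i ≠ j → h i ≠ h j) {ε δ : ℝ} (hε : 0 < ε) (hδ : 0 < δ) :
    ∃ P : ℕ, ∀ p : ℕ, p.Prime → P ≤ p → ∀ χ : DirichletCharacter ℂ p, χ ≠ 1 → χ ^ D = 1 →
      ∀ m : ℕ, 0 < m → ¬ p ∣ m → ∀ N : ℕ, (m : ℝ) * (p : ℝ) ^ (1 / 2 + δ) ≤ N →
      ∀ w : ℕ → ℂ, (∀ n, w (n + m) = w n) → (∀ n, ‖w n‖ ≤ 1) →
      ∀ G : Fin k → ArithmeticFunction ℂ, (∀ i n, ‖G i n‖ ≤ 1) →
      (∀ i, i ≠ j → (G i).IsMultiplicative) → (∀ n, 0 < n → G j n = χ (n : ZMod p) * w n) →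
      ‖(1 / (N : ℂ)) * ∑ n ∈ Icc 1 N, ∏ i, G i ((n : ℤ) + h i).toNat‖ ≤ ε := by
  classical
  rcases k with _ | k
  · exact j.elim0
  obtain ⟨H, δ0, N0, s, hδ0, hs, hfin⟩ := fin_core k h j hne ε hε
  obtain ⟨R, P, hkar⟩ := kar H (H + (h j + s).toNat) hδ0 hδ
  obtain ⟨P', hP'⟩ := hW R
  refine ⟨P + P' + N0 ^ 2, fun p hp hPp χ hχ1 hχD m hm hmp N hN w hw hwb G hG hGm hGj => ?_⟩
  have hpf : Fact p.Prime := ⟨hp⟩
  have hN0 : N0 ≤ N := by
    have e1 : (N0 : ℝ) ≤ (p : ℝ) ^ (1 / 2 : ℝ) := by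
      rw [← Real.sqrt_eq_rpow]
      refine Real.le_sqrt_of_sq_le ?_
      exact_mod_cast (by omega : N0 ^ 2 ≤ p)
    have hp1 : (1 : ℝ) ≤ p := by exact_mod_cast hp.one_le
    have e2 : (p : ℝ) ^ (1 / 2 : ℝ) ≤ (p : ℝ) ^ (1 / 2 + δ) :=
      Real.rpow_le_rpow_of_exponent_le hp1 (by linarith)
    have e3 : (1 : ℝ) ≤ m := by exact_mod_cast hm
    have e4 : (p : ℝ) ^ (1 / 2 + δ) ≤ m * (p : ℝ) ^ (1 / 2 + δ) :=
      le_mul_of_one_le_left (by positivity) e3
    exact_mod_cast e1.trans (e2.trans (e4.trans hN))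
  refine hfin N hN0 G (univ.erase j) (by simp) hG (fun i hi => hGm i (ne_of_mem_erase hi)) ?_
  have h1 : (univ \ univ.erase j : Finset (Fin (k + 1))) = {j} := by
    ext i
    simp
  rw [h1]
  simp only [prod_singleton]
  obtain ⟨h0, hh0⟩ : ∃ h0 : ℕ, h0 = (h j + s).toNat := ⟨_, rfl⟩
  have h0pos : 0 < h0 := by
    have := hs j
    omega
  rw [← hh0] at hkar ⊢
  intro r hr hrH α β c hα hβ hfr x hx
  have hwm : ∀ n a, w (n + m * a) = w n := by
    intro n a
    induction a with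
    | zero => rw [mul_zero, add_zero]
    | succ a ih => rw [mul_add, mul_one, ← add_assoc, hw, ih]
  have hb := hkar p hpf (by omega) χ (hP' p hpf (by omega) χ hχ1 hχD) m hm hmp N hN
    (fun t => ∏ l, cj (c l) (w (α l * t + (β l + h0)))) (fun t => by
      refine prod_congr rfl fun l _ => ?_
      congr 1
      rw [show α l * (t + m) + (β l + h0) = α l * t + (β l + h0) + m * α l by ring, hwm])
    (fun t => by
      rw [norm_prod]
      refine prod_le_one (fun _ _ => norm_nonneg _) fun l _ => ?_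
      rw [cj_norm]
      exact hwb _) r hr hrH c α (fun l => β l + h0) hα (fun l => by have := hβ l; omega) hfr x hx
  refine le_trans (le_of_eq ?_) hb
  congr 1
  refine sum_congr rfl fun t _ => ?_
  rw [← prod_mul_distrib]
  refine prod_congr rfl fun l _ => ?_
  show cj (c l) (G j (α l * t + β l + h0)) = _
  rw [add_assoc, hGj _ (by omega), cj_mul', mul_comm]

end Pool.Agent.H18.QT
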