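import Mathlib
import Pool.Agent.H18.QT.Prm
import Pool.Agent.H18.QT.Den
import Pool.Agent.H37.WM.Wb

/-!
# [H18 QT Main] twists by Dirichlet characters: the unweighted Elliott bound with all cofactors
-/

set_option autoImplicit false

open Finset

namespace Pool.Agent.H18.QT

/-- Weil's bound for all characters -/
theorem weilD (D : ℕ) : WeilD D := by
  intro R
  refine ⟨0, fun p hp _ χ hχ _ ι _ ρ c hι hj => ?_⟩
  obtain ⟨j0, hj0⟩ := hj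
  refine (Pool.H37.WM.weil_prod χ hχ ι ρ c j0 hj0).trans ?_
  have h1 : ((Fintype.card ι : ℕ) : ℝ) ≤ 22 * (R + 1) := by
    have : ((Fintype.card ι : ℕ) : ℝ) ≤ R := by exact_mod_cast hι
    have h2 : (0 : ℝ) ≤ R := Nat.cast_nonneg _
    linarith
  exact mul_le_mul_of_nonneg_right h1 (Real.sqrt_nonneg _)

/-- the bound of Q1 for the function `d j * f` at the place `j`, given functions `d i` at the places outside `S`, and
ALL bounded multiplicative functions at the places of `S` -/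
def Good {k : ℕ} (h : Fin k → ℤ) (j : Fin k) (ε : ℝ) (S : Finset (Fin k))
    (d : Fin k → ArithmeticFunction ℂ) (N : ℕ) (f : ℕ → ℂ) : Prop :=
  ∀ G : Fin k → ArithmeticFunction ℂ, (∀ i n, ‖G i n‖ ≤ 1) →
    (∀ i ∈ S, (G i).IsMultiplicative) → (∀ i, i ∉ S → i ≠ j → G i = d i) →
    (∀ n : ℕ, 0 < n → G j n = d j n * f n) →
    ‖(1 / (N : ℂ)) * ∑ n ∈ Icc 1 N, ∏ i, G i ((n : ℤ) + h i).toNat‖ ≤ ε

lemma zero_ok {f g : ArithmeticFunction ℂ} {u : ℕ → ℂ} (h : ∀ n : ℕ, 0 < n → f n = g n * u n)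
    (n : ℕ) : f n = g n * u n := by
  rcases Nat.eq_zero_or_pos n with h0 | h0
  · rw [h0, ArithmeticFunction.map_zero, ArithmeticFunction.map_zero, zero_mul]
  · exact h n h0

open Classical in
theorem main (k : ℕ) (h : Fin k → ℤ) (j : Fin k) (hne : ∀ i, i ≠ j → h i ≠ h j) {ε δ : ℝ}
    (hε : 0 < ε) (hδ : 0 < δ) : ∃ K P : ℕ,
    (∀ (S : Finset (Fin k)), j ∉ S → ∀ d : Fin k → ArithmeticFunction ℂ, (∀ i n, ‖d i n‖ ≤ 1) →
      (∀ N : ℕ, ∃ E : Finset (Σ q : ℕ, DirichletCharacter ℂ q), E.card ≤ K ∧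
        ∀ (q : ℕ) (χ : DirichletCharacter ℂ q), Squarefree q → q ^ 2 ≤ N → χ.IsPrimitive →
        ⟨q, χ⟩ ∉ E → Good h j ε S d N (fun n => χ n)) ∧
      (∀ η : ℝ, 0 < η → ∃ E : Finset (Σ q : ℕ, DirichletCharacter ℂ q), (E.card : ℝ) ≤ K / η ∧
        ∀ (q : ℕ) (χ : DirichletCharacter ℂ q), Squarefree q → χ.IsPrimitive → ⟨q, χ⟩ ∉ E →
        ∀ X₀ : ℕ, ∃ X : ℕ, X₀ ≤ X ∧
        (((Icc 1 X).filter fun N => ¬ Good h j ε S d N (fun n => χ n)).card : ℝ) ≤ η * X) ∧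
      (∀ q : ℕ, q.Prime → ∀ N : ℕ, 1 ≤ N → ∃ E : Finset (DirichletCharacter ℂ q),
        (E.card : ℝ) ≤ K * (1 + q / N) ∧ ∀ χ, χ ∉ E → Good h j ε S d N (fun n => χ n))) ∧
    (∀ p : ℕ, p.Prime → P ≤ p → ∀ χ : DirichletCharacter ℂ p, χ ≠ 1 →
      ∀ m : ℕ, 0 < m → ¬ p ∣ m → ∀ w : ℕ → ℂ, (∀ n, w (n + m) = w n) → (∀ n, ‖w n‖ ≤ 1) →
      ∀ N : ℕ, (m : ℝ) * (p : ℝ) ^ (1 / 2 + δ) ≤ N →
      ∀ G : Fin k → ArithmeticFunction ℂ, (∀ i n, ‖G i n‖ ≤ 1) →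
      (∀ i, i ≠ j → (G i).IsMultiplicative) → (∀ n : ℕ, 0 < n → G j n = χ n * w n) →
      ‖(1 / (N : ℂ)) * ∑ n ∈ Icc 1 N, ∏ i, G i ((n : ℤ) + h i).toNat‖ ≤ ε) := by
  obtain ⟨K₁, h1⟩ := primD (weilD 0) k h j hne hε
  obtain ⟨K₂, h2⟩ := chars k h j hne hε
  obtain ⟨P, h3⟩ := fixedD (weilD 0) k h j hne hε hδ
  have hK : ∀ (S : Finset (Fin k)), j ∉ S → ∀ d : Fin k → ArithmeticFunction ℂ,
      (∀ i n, ‖d i n‖ ≤ 1) → ∀ N : ℕ, ∃ E : Finset (Σ q : ℕ, DirichletCharacter ℂ q),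
        E.card ≤ K₁ ∧ ∀ (q : ℕ) (χ : DirichletCharacter ℂ q), Squarefree q → q ^ 2 ≤ N →
        χ.IsPrimitive → ⟨q, χ⟩ ∉ E → Good h j ε S d N (fun n => χ n) := by
    intro S hS d hd N
    obtain ⟨E, hE, hE2⟩ := h1 N S hS d hd
    exact ⟨E, hE, fun q χ hq hqN hχ hχE G hG hGS hGd hGj =>
      hE2 q hq hqN χ hχ (pow_zero χ) hχE G hG hGS hGd (zero_ok hGj)⟩
  refine ⟨K₁ + K₂, P, fun S hS d hd => ⟨fun N => ?_, fun η hη => ?_, fun q hq N hN => ?_⟩, ?_⟩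
  · obtain ⟨E, hE, hE2⟩ := hK S hS d hd N
    exact ⟨E, by omega, hE2⟩
  · obtain ⟨E, hE, hE2⟩ := density (fun z : Σ q : ℕ, DirichletCharacter ℂ q => z.1 ^ 2)
      (fun N z => Squarefree z.1 ∧ z.2.IsPrimitive ∧ ¬ Good h j ε S d N (fun n => z.2 n)) K₁
      (fun N => by
        obtain ⟨E, hE, hE2⟩ := hK S hS d hd N
        exact ⟨E, hE, fun z hz hzE hb => hb.2.2 (hE2 z.1 z.2 hb.1 hz hb.2.1 hzE)⟩) hη
    refine ⟨E, hE.trans ?_, fun q χ hq hχ hχE X₀ => ?_⟩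
    · refine div_le_div_of_nonneg_right ?_ hη.le
      exact_mod_cast Nat.le_add_right K₁ K₂
    · obtain ⟨X, hX, hX2⟩ := hE2 ⟨q, χ⟩ hχE X₀
      refine ⟨X, hX, le_trans ?_ hX2⟩
      refine Nat.cast_le.2 (card_le_card fun N hN => ?_)
      simp only [mem_filter] at hN ⊢
      exact ⟨hN.1, hq, hχ, hN.2⟩
  · obtain ⟨E, hE, hE2⟩ := h2 q hq N hN S hS d hd
    refine ⟨E, hE.trans ?_, fun χ hχ G hG hGS hGd hGj => hE2 χ hχ G hG hGS hGd (zero_ok hGj)⟩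
    refine mul_le_mul_of_nonneg_right ?_ (by positivity)
    exact_mod_cast Nat.le_add_left K₂ K₁
  · intro p hp hPp χ hχ m hm hmp w hw hwb N hN G hG hGm hGj
    exact h3 p hp hPp χ hχ (pow_zero χ) m hm hmp N hN w hw hwb G hG hGm hGj

end Pool.Agent.H18.QT
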